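import Pool.Agent.Lib.MP_07b2d0_nt.Kh.Top

/-!
Two affine models of a hyperelliptic curve.
-/

set_option autoImplicit false
set_option linter.unusedSectionVars false
set_option linter.unusedVariables false

namespace Pool.Agent.Lib.MP_07b2d0_nt.Tq

open CategoryTheory AlgebraicGeometry Polynomial WithZero NumberField

theorem pj_mu {k R : Type} [Field k] [CommRing R] [Algebra k R] {f : k[X]} {x : R}
    {Y : Fin 1 → R} (hP : Kh.Pres 2 (fun _ : Fin 1 => f) x Y) :
    ∃ μ : AdjoinRoot (X ^ 2 - C f) →+* R, (∀ P, μ (AdjoinRoot.of _ P) = aeval x P) ∧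
      μ (AdjoinRoot.root _) = aeval x f * Y 0 :=
  ⟨AdjoinRoot.lift (aeval x : k[X] →ₐ[k] R).toRingHom (aeval x f * Y 0) (by
      rw [eval₂_sub, eval₂_X_pow, eval₂_C]
      change _ - aeval x f = 0
      linear_combination aeval x f * hP.eq 0),
    fun _ => AdjoinRoot.lift_of _, AdjoinRoot.lift_root _⟩

theorem pj_jac {B k R : Type} [CommRing B] [Field k] [CommRing R] [Algebra k R] {b : B →+* k}
    {f : k[X]} {x : R} {Y : Fin 1 → R} (hP : Kh.Pres 2 (fun _ : Fin 1 => f) x Y)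
    {A : Over (Spec (.of B))} [GrpObj A] [IsCommMonObj A]
    {j : St.sp ((algebraMap k (AdjoinRoot (X ^ 2 - C f))).comp b) ⟶ A}
    (h : St.IsJac b (AdjoinRoot.of (X ^ 2 - C f) X) A j) : ∃ j', St.IsJac b x A j' := by
  obtain ⟨μ, m1, m2⟩ := pj_mu hP
  have m3 : ∀ a : k, μ (algebraMap k _ a) = algebraMap k _ a := fun a =>
    (m1 (C a)).trans (aeval_C x a)
  have m4 : μ (AdjoinRoot.of _ X) = x := (m1 X).trans (aeval_X x)
  refine ⟨Fh.spm μ (RingHom.ext fun z => m3 (b z)) ≫ j, fun Ω F _ _ _ _ _ ρ h3 h4 h5 => ?_⟩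
  have h0 : ρ (aeval x f) ≠ 0 := left_ne_zero_of_mul_eq_one
    (by rw [← map_mul, hP.eq 0, map_one] : ρ (aeval x f) * ρ (Y 0 ^ 2) = 1)
  have e0 : ρ (Y 0) = ρ (μ (AdjoinRoot.root _)) / ρ (μ (AdjoinRoot.of _ f)) := by
    rw [m1, m2, map_mul, mul_div_cancel_left₀ _ h0]
  obtain ⟨val, h6, h7⟩ := h Ω F (ρ.comp μ) (fun a => (congrArg ρ (m3 a)).trans (h3 a))
    (by rwa [RingHom.comp_apply, m4]) (by
      rw [eq_top_iff, ← h5, IntermediateField.adjoin_le_iff]
      rintro _ ⟨z, rfl⟩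
      have w : ∀ a, ρ (μ a) ∈ IntermediateField.adjoin Ω (Set.range (ρ.comp μ)) :=
        fun a => IntermediateField.subset_adjoin _ _ ⟨a, rfl⟩
      refine hP.mem ρ (IntermediateField.adjoin Ω (Set.range (ρ.comp μ))).toSubfield.toSubring
        (fun a => ?_) ?_ (fun n => ?_) z
      · rw [← m3]
        exact w _
      · rw [← m4]
        exact w _
      · rw [Subsingleton.elim n 0, e0]
        exact IntermediateField.div_mem _ (w _) (w _))
  refine ⟨val, h6, fun v => ?_⟩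
  have e : Spec.map (CommRingCat.ofHom (ρ.comp μ)) =
      Spec.map (CommRingCat.ofHom ρ) ≫ Spec.map (CommRingCat.ofHom μ) :=
    Spec.map_comp (CommRingCat.ofHom μ) (CommRingCat.ofHom ρ)
  have h8 := h7 v
  rw [e] at h8
  exact (congrArg (fun q => St.IsVal q v.1.valuationSubring (val v).left)
    (Category.assoc _ _ _)).mp h8

/-- The affine curve `f(x) * y ^ 2 = 1` is the open subset `y ≠ 0` of `y ^ 2 = f(x)`. -/
theorem kumJac_of_abJac {g : ℕ} {B k : Type} [CommRing B] [Field k] {b : B →+* k} {f : k[X]}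
    {A : Over (Spec (.of B))} (h : St.AbJac g b f A) : St.KumJac g 2 b (fun _ : Fin 1 => f) A := by
  obtain ⟨h1, h2, i1, i2, j, h⟩ := h
  exact ⟨h1, h2, i1, i2, pj_jac (Kh.pres_quot 2 fun _ : Fin 1 => f) h⟩

end Pool.Agent.Lib.MP_07b2d0_nt.Tq
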