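import Pool.Agent.Lib.MP_07b2d0_nt.Tq.Un
import Pool.Agent.Lib.MP_07b2d0_nt.Kh.Top

/-!
Inertia fixes the branch points.
-/

set_option autoImplicit false
set_option linter.unusedSectionVars false
set_option linter.unusedVariables false

namespace Pool.Agent.Lib.MP_07b2d0_nt.Tq

open CategoryTheory AlgebraicGeometry Polynomial WithZero NumberField Height Fh Kh

variable {Ω F : Type} [Field Ω] [IsAlgClosed Ω] [CharZero Ω] [Field F] [Algebra Ω F]

theorem cmb_one {ℓ r : ℕ} {e : Fin r → ℕ} (hℓ : ℓ.Prime) (hr : 0 < r) (he : ∀ i, ¬ ℓ ∣ e i)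
    (hs : ℓ ∣ ∑ i, e i) : Cmb ℓ fun _ : Fin 1 => e := by
  exact ⟨hℓ, fun _ => hs, fun i => ⟨0, he i⟩, fun u hu j => by
    have h1 := hu ⟨0, hr⟩
    rw [Fin.sum_univ_one] at h1
    exact Subsingleton.elim 0 j ▸ (hℓ.prime.dvd_or_dvd h1).resolve_right (he _)⟩

/-- The deck transformation exists. -/
theorem exists_cy {ℓ r : ℕ} {c : Ω} {a : Fin r → Ω} {e : Fin r → ℕ} (hℓ : ℓ.Prime) (hr : 0 < r)
    (hc : c ≠ 0) (ha : Function.Injective a) (he : ∀ i, ¬ ℓ ∣ e i) (hs : ℓ ∣ ∑ i, e i) {x y : F}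
    (hx : Transcendental Ω x) (ht : IntermediateField.adjoin Ω {x, y} = ⊤)
    (hy : y ^ ℓ = aeval x (C c * ∏ i, (X - C (a i)) ^ e i)) :
    ∃ ζ s, Cy ℓ ζ x y (C c * ∏ i, (X - C (a i)) ^ e i) s := by
  have : NeZero ℓ := ⟨hℓ.ne_zero⟩
  obtain ⟨ζ, hζ⟩ := HasEnoughRootsOfUnity.exists_primitiveRoot Ω ℓ
  have h0 : K0 ℓ (fun _ : Fin 1 => e) (od (fun _ => c) a) x fun _ => y :=
    K0.mk' ⟨cmb_one hℓ hr he hs, fun _ => hc, fun _ => one_ne_zero, (od_a _ a).symm ▸ ha⟩ ⟨ζ, hζ⟩ hx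
      fun j => by rw [od_F, hy]
  have h1 : K1 ℓ (fun _ : Fin 1 => e) (od (fun _ => c) a) x fun _ => y :=
    ⟨h0, by rw [range_one, Set.range_const, ht]⟩
  obtain ⟨s, s1, s2⟩ := h1.exists_aut (fun _ _ => ζ) fun _ _ => hζ.pow_eq_one
  refine ⟨ζ, s, hℓ, fun τ hτ => ?_, hx, ht, hy, hζ, s1 (), s2 () 0⟩
  obtain ⟨i, rfl, -⟩ := Ks.kf3_root hc a e hτ
  rw [Ks.kf3_mult hc ha]
  exact he i

/-- An automorphism that fixes the classes of the functions with divisor divisible by `ℓ` fixes the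
branch points. -/
theorem Cy.root_fix {ℓ r : ℕ} {ζ : Ω} {x y : F} {f : Polynomial Ω} {s : F ≃ₐ[Ω] F} (h : Cy ℓ ζ x y f s)
    {a : Fin r → Ω} (ha : Function.Injective a) (hr : 5 ≤ r) (hf : ∀ i, f.IsRoot (a i))
    (σ : Ω ≃+* Ω) (t : F →+* F) (ht : ∀ z, t (algebraMap Ω F z) = algebraMap Ω F (σ z))
    (hx : t x = x) (H : ∀ φ : F, φ ≠ 0 → Ks.DivBy Ω ℓ φ → ∃ ψ : F, t φ = φ * ψ ^ ℓ) (i : Fin r) :
    σ (a i) = a i := by
  classical
  by_contra h0
  have pick : ∀ S : Finset Ω, S.card ≤ 4 → ∃ j, a j ∉ S := fun S hS => by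
    obtain ⟨b, hb, hb'⟩ := Finset.exists_mem_notMem_of_card_lt_card (s := S)
      (t := Finset.univ.image a) (by
        rw [Finset.card_image_of_injective _ ha, Finset.card_univ, Fintype.card_fin]
        omega)
    obtain ⟨j, -, rfl⟩ := Finset.mem_image.1 hb
    exact ⟨j, hb'⟩
  obtain ⟨j, hj⟩ := pick {a i, σ.symm (a i)} (Finset.card_le_two.trans (by omega))
  obtain ⟨l, hl⟩ := pick {a i, a j, σ (a i), σ (a j)} Finset.card_le_four
  simp only [Finset.mem_insert, Finset.mem_singleton, not_or, σ.eq_symm_apply] at hj hl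
  have n := h.sub_ne
  obtain ⟨ψ, hψ⟩ := H _ (div_ne_zero (n (a i)) (n (a j))) fun v hv => by
    rw [map_div₀, log_div ((map_ne_zero v).2 (n _)) ((map_ne_zero v).2 (n _))]
    rcases lt_or_ge 1 (v x) with h1 | h1
    · rw [v.map_sub_eq_of_lt_left ((hv _).trans_lt h1),
        v.map_sub_eq_of_lt_left ((hv _).trans_lt h1), sub_self]
      exact dvd_zero _
    · have key : ∀ m, (ℓ : ℤ) ∣ log (v (x - algebraMap Ω F (a m))) := fun m => by
        rcases (v.map_sub_le h1 (hv (a m))).lt_or_eq with h2 | h2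
        · exact h.ram_dvd (hf m) hv h2
        · rw [h2, log_one]
          exact dvd_zero _
      exact dvd_sub (key i) (key j)
  rw [map_div₀, map_sub, map_sub, hx, ht, ht, div_mul_eq_mul_div, div_eq_div_iff (n _) (n _)] at hψ
  have p0 : ψ ≠ 0 := by
    rintro rfl
    rw [zero_pow h.prime.ne_zero, mul_zero, zero_mul] at hψ
    exact mul_ne_zero (n _) (n _) hψ
  have p1 : s ψ ^ ℓ = ψ ^ ℓ := by
    have h1 := congrArg s hψ
    simp only [map_mul, map_sub, map_pow, h.aut.sx, s.commutes] at h1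
    exact mul_left_cancel₀ (n _) (mul_right_cancel₀ (n _) (h1.symm.trans hψ))
  obtain ⟨u, hu⟩ := Ks.exists_const_of_pow h.prime.ne_zero (u := s ψ / ψ) (c := (1 : Ω))
    (by rw [div_pow, p1, div_self (pow_ne_zero _ p0), map_one])
  rw [div_eq_iff p0] at hu
  obtain ⟨v, hv⟩ := h.above (a l)
  have v1 : ∀ c, a l ≠ c → v.1 (x - algebraMap Ω F c) = 1 := fun c hc => by
    have := (Val.aeval x (a l) (X - C c)).eq_one (by simpa [sub_eq_zero] using hc) v.2.2 hv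
    rwa [map_sub, aeval_X, aeval_C] at this
  obtain ⟨c, c0, hc⟩ := h.exists_val (z := ψ) (hf l) v hv (by
    have h1 := congrArg v.1 hψ
    rw [map_mul, map_mul, map_mul, map_pow, v1 _ hl.1, v1 _ hl.2.1, v1 _ hl.2.2.1, v1 _ hl.2.2.2,
      one_mul, one_mul, mul_one] at h1
    exact (pow_eq_one_iff_of_nonneg zero_le h.prime.ne_zero).1 h1.symm)
  have u1 : u = 1 := mul_right_cancel₀ c0
    ((h.unique ((Val.const x _ u).mul hc) (hu ▸ hc.aut s h.aut.sx)).trans (one_mul c).symm)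
  rw [u1, map_one, one_mul] at hu
  obtain ⟨A, B, hB, e⟩ := h.fixed hu
  have hA : A ≠ 0 := by
    rintro rfl
    exact mul_ne_zero p0 (h.aeval_ne hB) (e.trans (map_zero _))
  have h2 : (X - C (σ (a i))) * (X - C (a j)) * B ^ ℓ =
      (X - C (a i)) * (X - C (σ (a j))) * A ^ ℓ := transcendental_iff_injective.1 h.trans (by
    simp only [map_mul, map_sub, map_pow, aeval_X, aeval_C, ← e, hψ]
    ring)
  have m := fun c : Ω => X_sub_C_ne_zero c
  have h3 := congrArg (fun P : Polynomial Ω => P.roots.count (a i)) h2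
  simp only [roots_mul (mul_ne_zero (mul_ne_zero (m _) (m _)) (pow_ne_zero _ hB)),
    roots_mul (mul_ne_zero (mul_ne_zero (m _) (m _)) (pow_ne_zero _ hA)),
    roots_mul (mul_ne_zero (m _) (m _)), roots_pow, roots_X_sub_C, Multiset.count_add,
    Multiset.count_nsmul, Multiset.count_singleton, if_neg (Ne.symm h0), if_neg (Ne.symm hj.1),
    if_neg (Ne.symm hj.2), if_true, add_zero, zero_add] at h3
  exact h.prime.one_lt.ne' (Nat.dvd_one.1
    ((Nat.dvd_add_left (dvd_mul_right _ _)).1 (h3 ▸ dvd_mul_right _ _)))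

end Pool.Agent.Lib.MP_07b2d0_nt.Tq
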