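import Pool.Agent.Lib.MP_07b2d0_nt.Kh.St

/-!
Torsion points on the curve `y ^ ℓ = f(x)`.
-/

set_option autoImplicit false

namespace Pool.Agent.Lib.MP_07b2d0_nt.St

open Polynomial

/-- The function `φ` has no zero or pole outside `P` and `W`. -/
def Sup {Ω F : Type} [Field Ω] [Field F] [Algebra Ω F] (P W : Plc Ω F) (φ : F) : Prop :=
  ∀ v : Plc Ω F, v ≠ P → v ≠ W → v.1 φ = 1

/-- The curve `y ^ ℓ = f(x)` has a point `P`, not a zero of `y`, and a zero `W` of `y` with `P - W`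
torsion, and `P` is rational over `k` if `P - W'` has order prime to `ℓ` for a zero `W'` of `y`. -/
def Tor (ℓ : ℕ) {k : Type} [Field k] (f : k[X]) : Prop :=
  ∃ (F : Type) (_ : Field F) (_ : Algebra (AlgebraicClosure k) F) (x y φ : F)
    (P W : Plc (AlgebraicClosure k) F), Transcendental (AlgebraicClosure k) x ∧
    IntermediateField.adjoin (AlgebraicClosure k) {x, y} = ⊤ ∧
    y ^ ℓ = aeval x (f.map (algebraMap k (AlgebraicClosure k))) ∧
    ¬ P.1 y < 1 ∧ W.1 y < 1 ∧ Sup P W φ ∧ P.1 φ ≠ 1 ∧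
    ∀ (W' : Plc (AlgebraicClosure k) F) (ψ : F), W'.1 y < 1 → Sup P W' ψ →
      ¬ (ℓ : ℤ) ∣ WithZero.log (P.1 ψ) → ∃ t η : k,
        (P.1 (x - algebraMap _ F (algebraMap k (AlgebraicClosure k) t)) < 1 ∧
          P.1 (y - algebraMap _ F (algebraMap k (AlgebraicClosure k) η)) < 1) ∨
        (1 < P.1 x ∧ P.1 (y / x ^ (f.natDegree / ℓ) -
          algebraMap _ F (algebraMap k (AlgebraicClosure k) η)) < 1)

end Pool.Agent.Lib.MP_07b2d0_nt.St
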