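import Pool.Agent.Lib.MP_07b2d0_nt.Tq.Inf
import Pool.Agent.Lib.MP_07b2d0_nt.Tq.Rf
import Pool.Agent.Lib.MP_07b2d0_nt.Tq.St

/-!
A solution of the polynomial Pell equation gives a rational torsion point.
-/

set_option autoImplicit false
set_option linter.unusedSectionVars false
set_option linter.unusedVariables false

namespace Pool.Agent.Lib.MP_07b2d0_nt.Tq

open CategoryTheory AlgebraicGeometry Polynomial WithZero NumberField

section

open Fh Kh

variable {L F : Type} [Field L] [IsAlgClosed L] [CharZero L] [Field F] [Algebra L F] {x y : F}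
  {f : L[X]}

theorem pellt_cy (H : Fh.Hyp f x y) : ∃ s, Cy 2 (-1) x y f s := by
  obtain ⟨s, h1, h2, h3⟩ := H.conj
  refine ⟨AlgEquiv.ofRingEquiv (f := s) h1, Nat.prime_two, fun τ hτ hd => ?_, H.trans, H.top, H.eq,
    IsPrimitiveRoot.neg_one 0 (by norm_num), h2, h3.trans (by simp)⟩
  have h4 := (rootMultiplicity_pos H.sep.ne_zero).2 hτ
  have h5 := rootMultiplicity_le_one_of_separable H.sep τ
  omega

theorem pellt_lead {s : F ≃ₐ[L] F} (h : Cy 2 (-1) x y f s) (hm : f.Monic) {n : ℕ}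
    (hd : f.natDegree = 2 * n) {P : Plc L F} (hP : 1 < P.1 x) :
    ∃ c, c ^ 2 = 1 ^ 2 ∧ Vl P (y / x ^ n) c := by
  have hx : 0 < P.1 x ^ f.natDegree := pow_pos (zero_lt_one.trans hP) _
  have hx0 : x ^ f.natDegree ≠ 0 := fun e => by
    rw [← map_pow, e, map_zero] at hx
    exact hx.false
  refine Vl.root two_pos h.aut.prim ?_
  rw [Vl, one_pow, ← hm.leadingCoeff, div_pow, h.eq, ← pow_mul, mul_comm n, ← hd, div_sub' hx0,
    map_div₀, map_pow, div_lt_one₀ hx,
    show aeval x f - x ^ f.natDegree * algebraMap L F f.leadingCoeff = aeval x f.eraseLead by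
      rw [← self_sub_C_mul_X_pow, map_sub, map_mul, map_pow, aeval_C, aeval_X, mul_comm]]
  rcases eq_or_ne f.eraseLead 0 with e | e
  · rwa [e, map_zero, map_zero]
  · rw [plc_aeval_inf P hP e]
    exact pow_lt_pow_right₀ hP ((eraseLead_natDegree_lt_or_eraseLead_eq_zero f).resolve_right e)

theorem pellt_sup {s : F ≃ₐ[L] F} (h : Cy 2 (-1) x y f s) (hd : 2 ∣ f.natDegree)
    (h0 : 0 < f.natDegree) {u w : L[X]} (hw : w ≠ 0) (e : u ^ 2 - f * w ^ 2 = 1) {P : Plc L F}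
    (hP : 1 < P.1 x) : ∃ (φ : F) (W : Plc L F), ¬ P.1 y < 1 ∧ W.1 y < 1 ∧
      (∀ v : Plc L F, v ≠ P → v ≠ W → v.1 φ = 1) ∧ P.1 φ ≠ 1 := by
  obtain ⟨a, ha⟩ := IsAlgClosed.exists_root f (natDegree_pos_iff_degree_pos.1 h0).ne'
  obtain ⟨W, hW⟩ := h.above a
  obtain ⟨θ, hθ⟩ : ∃ θ, θ = aeval x u + y * aeval x w := ⟨_, rfl⟩
  have sa : ∀ A : L[X], s (aeval x A) = aeval x A := fun A => by
    simpa using h.aut.pow_aeval 1 A
  have e1 : s θ = aeval x u - y * aeval x w := by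
    rw [hθ, map_add, map_mul, sa, sa, h.aut.sy, map_neg, map_one]
    ring
  have e2 : θ * s θ = 1 := by
    have := congrArg (aeval x) e
    rw [map_sub, map_mul, map_pow, map_pow, map_one, ← h.eq] at this
    rw [e1, hθ]
    linear_combination this
  have e3 : ∀ v : Plc L F, v.1 θ * v.1 (s θ) = 1 := fun v => by rw [← map_mul, e2, map_one]
  have e4 : ∀ v : Plc L F, v.1 y ^ 2 = v.1 (aeval x f) := fun v => by rw [← map_pow, h.eq]
  have y1 : 1 < P.1 y := by
    refine lt_of_pow_lt_pow_left₀ 2 zero_le ?_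
    rw [e4, plc_aeval_inf P hP h.ne_zero, one_pow]
    exact one_lt_pow₀ hP h0.ne'
  have t0 : P.1 θ ≠ 0 := left_ne_zero_of_mul_eq_one (e3 P)
  have t1 : P.1 θ ≠ 1 := fun t => by
    have t2 := e3 P
    rw [t, one_mul] at t2
    have t3 := P.1.map_sub_le t.le t2.le
    rw [e1, hθ, show aeval x u + y * aeval x w - (aeval x u - y * aeval x w) =
      algebraMap L F 2 * (y * aeval x w) by rw [map_ofNat]; ring, map_mul, map_mul,
      plc_eq_one P two_ne_zero, one_mul, plc_aeval_inf P hP hw] at t3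
    exact (one_lt_mul_of_lt_of_le' y1 (one_le_pow₀ hP.le)).not_ge t3
  have x1 : P.1 (x - algebraMap L F a) = exp 1 := by
    rw [P.1.map_sub_eq_of_lt_left ((P.2.2 a).trans_lt hP), ← h.inf_e hd hP,
      exp_log (zero_lt_one.trans hP).ne']
  have x2 : P.1 ((x - algebraMap L F a) ^ log (P.1 θ)) = P.1 θ := by
    rw [map_zpow₀, x1, ← exp_zsmul, smul_eq_mul, mul_one, exp_log t0]
  refine ⟨θ * (x - algebraMap L F a) ^ log (P.1 θ), W, y1.le.not_gt, ?_, fun v h1 h2 => ?_,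
    fun t => t1 ?_⟩
  · refine lt_of_pow_lt_pow_left₀ 2 zero_le ?_
    rw [e4, one_pow, ← vl_zero, ← ha.eq_zero]
    exact Vl.aeval hW f
  · rcases le_or_gt (v.1 x) 1 with hv | hv
    · have y2 : v.1 y ≤ 1 := by
        refine le_of_pow_le_pow_left₀ two_ne_zero zero_le ?_
        rw [e4, one_pow]
        exact plc_aeval_le v hv f
      have y3 : v.1 (y * aeval x w) ≤ 1 := by
        rw [map_mul]
        exact mul_le_one' y2 (plc_aeval_le v hv w)
      have y4 : v.1 θ ≤ 1 := hθ ▸ v.1.map_add_le (plc_aeval_le v hv u) y3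
      have y5 : v.1 (s θ) ≤ 1 := e1 ▸ v.1.map_sub_le (plc_aeval_le v hv u) y3
      have y6 : v.1 (x - algebraMap L F a) = 1 :=
        (v.1.map_sub_le hv (v.2.2 a)).eq_or_lt.resolve_right fun k => h2 (h.ram_unique ha k hW)
      rw [map_mul, map_zpow₀, y6, one_zpow, mul_one]
      exact y4.antisymm ((e3 v).ge.trans (mul_le_of_le_one_right' y5))
    · obtain ⟨j, hj, k⟩ := h.inf_orbit hd hP hv
      obtain rfl | rfl : j = 0 ∨ j = 1 := by omega
      · exact absurd (Subtype.ext (Valuation.ext k)) h1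
      · rw [k, pow_one, map_mul, map_mul, map_zpow₀ s, map_sub, h.aut.sx, s.commutes, x2, mul_comm,
          e3]
  · rw [map_mul, x2, ← sq] at t
    exact (pow_eq_one_iff_of_nonneg zero_le two_ne_zero).1 t

end

/-- Function field from `Fh.exists_hyp`; `P` a place above infinity, `W` the place above a root `a`,
`θ = u + y * w`, `φ = θ * (x - a) ^ n` with `n = log (P θ)`. -/
theorem tor_of_pell {g : ℕ} {k : Type} [Field k] [CharZero k] {f : k[X]}
    {u w : (AlgebraicClosure k)[X]} (hm : f.Monic) (hs : f.Separable)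
    (hd : f.natDegree = 2 * g + 2) (hw : w ≠ 0)
    (h : u ^ 2 - f.map (algebraMap k (AlgebraicClosure k)) * w ^ 2 = 1) : St.Tor 2 f := by
  have d1 : (f.map (algebraMap k (AlgebraicClosure k))).natDegree = 2 * (g + 1) :=
    (hm.natDegree_map _).trans hd
  obtain ⟨F, _, _, x, y, H⟩ := Fh.exists_hyp (hs.map (f := algebraMap k (AlgebraicClosure k)))
    (by omega)
  obtain ⟨s, hC⟩ := pellt_cy H
  obtain ⟨P, hP⟩ := Kh.exists_plc_lt hC.trans hC.fd (t := x⁻¹) fun e => hC.trans (by simpa using e.inv)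
  have x0 : x ≠ 0 := by simpa using hC.sub_ne 0
  rw [map_inv₀, inv_lt_one₀ (zero_lt_iff.2 ((_root_.map_ne_zero _).2 x0))] at hP
  obtain ⟨φ, W, a1, a2, a3, a4⟩ := pellt_sup hC ⟨_, d1⟩ (by omega) hw h hP
  obtain ⟨c, b1, b2⟩ := pellt_lead hC (hm.map _) d1 hP
  refine ⟨F, _, _, x, y, φ, P, W, H.trans, H.top, H.eq, a1, a2, a3, a4, fun _ _ _ _ _ => ?_⟩
  rw [show f.natDegree / 2 = g + 1 by omega]
  rcases sq_eq_sq_iff_eq_or_eq_neg.1 b1 with rfl | rfl
  · exact ⟨0, 1, .inr ⟨hP, by rwa [map_one]⟩⟩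
  · exact ⟨0, -1, .inr ⟨hP, by rwa [map_neg, map_one]⟩⟩

end Pool.Agent.Lib.MP_07b2d0_nt.Tq
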