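import Pool.Agent.Lib.MP_07b2d0_nt.Tq.Un

/-!
A nonconstant unit colours the branch points.
-/

set_option autoImplicit false
set_option linter.unusedSectionVars false
set_option linter.unusedVariables false

namespace Pool.Agent.Lib.MP_07b2d0_nt.Tq

open Polynomial WithZero Finset Ks Fh Kh
open scoped Polynomial.Bivariate IntermediateField

theorem desc {M : Type} [AddCommGroup M] {ℓ : ℕ} (hℓ : ℓ.Prime) (T : Module.End ℤ M)
    (hT : T ^ ℓ = 1) (A : Submodule ℤ M) (hA : A ≤ A.comap T)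
    (h : ∀ D ∈ A, ∃ E ∈ A, D = E - T E) (n : ℕ) : ∀ D ∈ A, ∃ E ∈ A, D = (ℓ : ℤ) ^ n • E := by
  have h1 : ∀ m : ℕ, ∀ D ∈ A, ∃ E ∈ A, D = aeval T ((1 - X : ℤ[X]) ^ m) E := fun m => by
    induction m with
    | zero => exact fun D hD => ⟨D, hD, by simp⟩
    | succ m ih =>
      intro D hD
      obtain ⟨E, hE, rfl⟩ := ih D hD
      obtain ⟨E', hE', rfl⟩ := h E hE
      exact ⟨E', hE', by rw [pow_succ, map_mul, Module.End.mul_apply]; simp⟩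
  induction n with
  | zero => exact fun D hD => ⟨D, hD, by simp⟩
  | succ n ih =>
    intro D hD
    obtain ⟨E, hE, rfl⟩ := ih D hD
    obtain ⟨E', hE', rfl⟩ := h1 ℓ E hE
    obtain ⟨g, hg⟩ := kb8_poly hℓ
    refine ⟨_, aeval_apply_smul_mem_of_le_comap hE' g T hA, ?_⟩
    rw [hg, map_add, map_sub, map_one, map_pow, aeval_X, hT, sub_self, zero_add, map_mul,
      Module.End.mul_apply, aeval_C, Module.algebraMap_end_apply, pow_succ, mul_smul]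

variable {k E : Type} [Field k] [IsAlgClosed k] [CharZero k] [Field E] [Algebra k E]
  {ℓ : ℕ} {x y : E} {f : k[X]} {ζ : k} {s : E ≃ₐ[k] E}

/-- If every unit is a coboundary up to a constant then all units are constant. -/
theorem Cy.const (h : Cy ℓ ζ x y f s)
    (H : ∀ φ, Un k x φ → ∃ (c : k) (ψ : E), c ≠ 0 ∧ Un k x ψ ∧ algebraMap k E c * φ * s ψ = ψ)
    {φ : E} (hφ : Un k x φ) (v : Plc k E) : v.1 φ = 1 := by
  choose π hπ using fun v : Plc k E => plc_comap v s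
  let T : Module.End ℤ (Plc k E → ℤ) := LinearMap.funLeft ℤ ℤ π
  have n0 : ∀ (v : Plc k E) {φ}, Un k x φ → v.1 φ ≠ 0 := fun v φ hφ =>
    (_root_.map_ne_zero _).2 (h.un_ne hφ)
  let A : Submodule ℤ (Plc k E → ℤ) := AddSubgroup.toIntSubmodule
    { carrier := {D | ∃ φ, Un k x φ ∧ D = fun v => log (v.1 φ)}
      add_mem' := by
        rintro _ _ ⟨a, ha, rfl⟩ ⟨b, hb, rfl⟩
        exact ⟨a * b, fun v hv => by rw [map_mul, ha v hv, hb v hv, mul_one], funext fun v => by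
          rw [map_mul, log_mul (n0 v ha) (n0 v hb)]; rfl⟩
      zero_mem' := ⟨1, fun v _ => map_one _, funext fun v => by simp⟩
      neg_mem' := by
        rintro _ ⟨a, ha, rfl⟩
        exact ⟨a⁻¹, fun v hv => by rw [map_inv₀, ha v hv, inv_one], funext fun v => by
          rw [map_inv₀, log_inv]; rfl⟩ }
  have h1 : ∀ (i : ℕ) (D : Plc k E → ℤ) v, ∃ v' : Plc k E, (∀ z, v'.1 z = v.1 ((s ^ i) z)) ∧
      (T ^ i) D v = D v' := fun i => by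
    induction i with
    | zero => exact fun D v => ⟨v, fun _ => rfl, rfl⟩
    | succ i ih =>
      intro D v
      obtain ⟨v', e1, e2⟩ := ih (T D) v
      exact ⟨π v', fun z => by rw [hπ, e1, pow_succ, AlgEquiv.mul_apply], by
        rw [pow_succ, Module.End.mul_apply, e2]; rfl⟩
  have h2 : T ^ ℓ = 1 := LinearMap.ext fun D => funext fun v => by
    obtain ⟨v', e1, e2⟩ := h1 ℓ D v
    rw [e2, show v' = v from Subtype.ext (Valuation.ext fun z => by rw [e1, h.pow_eq_one]; rfl)]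
    rfl
  obtain ⟨D, -, hD⟩ := desc h.prime T h2 A (by
      rintro _ ⟨a, ha, rfl⟩
      exact ⟨s a, ha.aut s h.aut.sx, funext fun v => congrArg log (hπ v a)⟩) (by
      rintro _ ⟨a, ha, rfl⟩
      obtain ⟨c, ψ, hc, hψ, e⟩ := H a ha
      refine ⟨_, ⟨ψ, hψ, rfl⟩, funext fun v => ?_⟩
      have e1 := congrArg (fun z => log (v.1 z)) e
      simp only [map_mul, plc_eq_one v hc, one_mul] at e1
      rw [log_mul (n0 v ha) (n0 v (hψ.aut s h.aut.sx)), ← hπ] at e1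
      exact eq_sub_of_add_eq e1) (log (v.1 φ)).natAbs _ ⟨φ, hφ, rfl⟩
  have h3 : log (v.1 φ) = 0 := Int.eq_zero_of_abs_lt_dvd ⟨D v, congrFun hD v⟩ (by
    rw [Int.abs_eq_natAbs]
    exact_mod_cast Nat.lt_pow_self h.prime.one_lt)
  rw [← exp_log (n0 v hφ), h3, exp_zero]

theorem Cy.normal (h : Cy ℓ ζ x y f s) {φ : E} (hφ : Un k x φ) (hN : nm s ℓ φ = 1) {κ : k}
    (hκ : κ ^ ℓ = 1) : κ ≠ 0 ∧ Un k x (algebraMap k E κ⁻¹ * φ) ∧
      nm s ℓ (algebraMap k E κ⁻¹ * φ) = 1 := by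
  have h0 : κ ≠ 0 := fun e => by simp [e, h.prime.ne_zero] at hκ
  exact ⟨h0, hφ.smul (inv_ne_zero h0), by rw [nm_smul h.aut, hN, inv_pow, hκ]; simp⟩

/-- The colouring. -/
theorem Cy.colours (h : Cy ℓ ζ x y f s) (hr : ∃ τ, f.IsRoot τ) {φ : E} (hφ : Un k x φ)
    (hn : ∃ v : Plc k E, v.1 φ ≠ 1) : ∃ G₀, Col ℓ ζ f G₀ ∧
      (∃ τ τ', f.IsRoot τ ∧ f.IsRoot τ' ∧ G₀.eval τ ≠ G₀.eval τ') ∧
      ∀ l, f.IsRoot l → (∀ τ τ', f.IsRoot τ → f.IsRoot τ' → τ ≠ l → τ' ≠ l →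
        G₀.eval τ = G₀.eval τ') → ∃ (ψ : E) (v : Plc k E), (∀ v : Plc k E, v.1 x ≤ 1 →
          ¬ v.1 (x - algebraMap k E l) < 1 → v.1 ψ = 1) ∧ v.1 (x - algebraMap k E l) < 1 ∧
          ¬ (ℓ : ℤ) ∣ log (v.1 ψ) := by
  have key : ∃ φ G₀, Un k x φ ∧ nm s ℓ φ = 1 ∧ Col ℓ ζ f G₀ ∧
      (∀ τ, f.IsRoot τ → Val x τ φ (G₀.eval τ)) ∧
      ∃ τ τ', f.IsRoot τ ∧ f.IsRoot τ' ∧ G₀.eval τ ≠ G₀.eval τ' := by
    by_contra H
    obtain ⟨v, hv⟩ := hn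
    refine hv (h.const (fun a ha => ?_) hφ v)
    obtain ⟨c, hc, h1⟩ := h.norm_one ha
    obtain ⟨G₀, h2, h3⟩ := h.col (ha.smul hc) h1
    obtain ⟨τ₀, h0⟩ := hr
    obtain ⟨h4, h5, h6⟩ := h.normal (ha.smul hc) h1 (h2.2 τ₀ h0)
    have h7 : ∀ τ, f.IsRoot τ →
        Val x τ (algebraMap k E (G₀.eval τ₀)⁻¹ * (algebraMap k E c * a)) 1 := fun τ hτ => by
      have := (Val.const x τ (G₀.eval τ₀)⁻¹).mul (h3 τ hτ)
      rwa [show G₀.eval τ = G₀.eval τ₀ from by_contra fun e =>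
        H ⟨_, G₀, ha.smul hc, h1, h2, h3, τ, τ₀, hτ, h0, e⟩, inv_mul_cancel₀ h4] at this
    obtain ⟨ψ, -, p1, p2⟩ := h.h90 h5 h6 (h7 τ₀ h0)
    exact ⟨(G₀.eval τ₀)⁻¹ * c, ψ, mul_ne_zero (inv_ne_zero h4) hc,
      fun v hv => p2 v hv fun τ hτ _ => h7 τ hτ, by rwa [map_mul, mul_assoc _ _ a]⟩
  obtain ⟨φ, G₀, h1, h2, h3, h4, τ, τ', t1, t2, t3⟩ := key
  refine ⟨G₀, h3, ⟨τ, τ', t1, t2, t3⟩, fun l hl H => ?_⟩
  obtain ⟨τ₀, h0, n1, n2⟩ : ∃ τ₀, f.IsRoot τ₀ ∧ τ₀ ≠ l ∧ G₀.eval l ≠ G₀.eval τ₀ := by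
    rcases eq_or_ne τ l with rfl | e1
    · exact ⟨τ', t2, fun e => t3 (e ▸ rfl), t3⟩
    rcases eq_or_ne τ' l with rfl | e2
    · exact ⟨τ, t1, e1, t3.symm⟩
    · exact absurd (H τ τ' t1 t2 e1 e2) t3
  obtain ⟨h5, h6, h7⟩ := h.normal h1 h2 (h3.2 τ₀ h0)
  have h8 := fun τ hτ => (Val.const x τ (G₀.eval τ₀)⁻¹).mul (h4 τ hτ)
  have h9 : ∀ τ, f.IsRoot τ → τ ≠ l → Val x τ (algebraMap k E (G₀.eval τ₀)⁻¹ * φ) 1 :=
    fun τ hτ e => by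
      have := h8 τ hτ
      rwa [H τ τ₀ hτ h0 e n1, inv_mul_cancel₀ h5] at this
  obtain ⟨ψ, p0, p1, p2⟩ := h.h90 h6 h7 (h9 τ₀ h0 n1)
  obtain ⟨v, hv⟩ := h.above l
  refine ⟨ψ, v, fun v c1 c2 => p2 v c1 fun τ hτ c3 => h9 τ hτ fun e => c2 (e ▸ c3), hv, ?_⟩
  rintro ⟨m, hm⟩
  have n3 : v.1 (x - algebraMap k E l) ≠ 0 := (_root_.map_ne_zero _).2 (h.sub_ne l)
  have n4 : v.1 ψ ≠ 0 := (_root_.map_ne_zero _).2 p0
  obtain ⟨c, c0, hc⟩ := h.exists_val (z := ψ * (x - algebraMap k E l) ^ m) hl v hv (by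
    rw [map_mul, map_zpow₀, ← exp_log n4, ← exp_log n3, hm,
      h.ram_e hl v.2.2 (v.2.1 _) hv, ← exp_zsmul, ← exp_add]
    simp [mul_comm])
  have q1 := (h8 l hl).mul (hc.aut s h.aut.sx)
  rw [map_mul s, map_zpow₀, map_sub, h.aut.sx, s.commutes, ← mul_assoc, p1] at q1
  have q2 := h.unique q1 hc
  rw [mul_eq_right₀ c0, inv_mul_eq_one₀ h5] at q2
  exact n2 q2.symm

end Pool.Agent.Lib.MP_07b2d0_nt.Tq
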