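import Pool.Agent.Lib.MP_07b2d0_nt.Tq.Un

/-!
The places above infinity.
-/

set_option autoImplicit false
set_option linter.unusedSectionVars false
set_option linter.unusedVariables false

namespace Pool.Agent.Lib.MP_07b2d0_nt.Tq

open Polynomial WithZero Finset Ks Fh Kh
open scoped Polynomial.Bivariate IntermediateField

variable {k E : Type} [Field k] [IsAlgClosed k] [CharZero k] [Field E] [Algebra k E]
  {ℓ : ℕ} {x y : E} {f : k[X]} {ζ : k} {s : E ≃ₐ[k] E}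

theorem plc_ext {v v' : Valuation E ℤᵐ⁰} {z z' : E} (h0 : z = 0 ↔ z' = 0)
    (h : z ≠ 0 → log (v z) = log (v' z')) : v z = v' z' := by
  rcases eq_or_ne z 0 with hz | hz
  · rw [hz, h0.1 hz, map_zero, map_zero]
  · rw [← exp_log ((_root_.map_ne_zero v).2 hz), h hz,
      exp_log ((_root_.map_ne_zero v').2 (mt h0.2 hz))]

theorem Cy.ram_unique (h : Cy ℓ ζ x y f s) {τ : k} (hτ : f.IsRoot τ) {v v' : Plc k E}
    (hv : v.1 (x - algebraMap k E τ) < 1) (hv' : v'.1 (x - algebraMap k E τ) < 1) : v = v' := by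
  refine Subtype.ext (Valuation.ext fun g => plc_ext Iff.rfl fun hg => ?_)
  obtain ⟨n, hn, -⟩ := h.ram_val hτ hg
  refine mul_left_cancel₀ (Nat.cast_ne_zero.2 h.prime.ne_zero : (ℓ : ℤ) ≠ 0) ?_
  rw [hn _ v.2.2 hv, hn _ v'.2.2 hv', h.ram_e hτ v.2.2 (v.2.1 _) hv,
    h.ram_e hτ v'.2.2 (v'.2.1 _) hv']

theorem Cy.exists_w (h : Cy ℓ ζ x y f s) (hd : ℓ ∣ f.natDegree) {P : Plc k E} (hP : 1 < P.1 x) :
    ∃ w : E, (∀ i : ℕ, (s ^ i) w = algebraMap k E (ζ ^ i) * w) ∧ Vl P w 1 ∧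
      ∀ v : Plc k E, 1 < v.1 x → ∃ j < ℓ, Vl v w (ζ ^ j) := by
  obtain ⟨S, hS⟩ := hd
  have hl := h.prime.pos
  have h0 := leadingCoeff_ne_zero.2 h.ne_zero
  have key : ∀ v : Plc k E, 1 < v.1 x → ∃ c, c ^ ℓ = f.leadingCoeff ∧ Vl v (y / x ^ S) c := by
    intro v hv
    obtain ⟨η, hη⟩ := IsAlgClosed.exists_pow_nat_eq f.leadingCoeff hl
    have hx : 0 < v.1 x ^ f.natDegree := pow_pos (zero_lt_one.trans hv) _
    have hx0 : x ^ f.natDegree ≠ 0 := fun e => by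
      rw [← map_pow, e, map_zero] at hx
      exact hx.false
    rw [← hη]
    refine Vl.root hl h.aut.prim ?_
    rw [Vl, hη, div_pow, h.eq, ← pow_mul, mul_comm S, ← hS, div_sub' hx0, map_div₀, map_pow,
      div_lt_one₀ hx, show aeval x f - x ^ f.natDegree * algebraMap k E f.leadingCoeff =
        aeval x f.eraseLead by
          rw [← self_sub_C_mul_X_pow, map_sub, map_mul, map_pow, aeval_C, aeval_X, mul_comm]]
    rcases eq_or_ne f.eraseLead 0 with e | e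
    · rwa [e, map_zero, map_zero]
    · rw [plc_aeval_inf v hv e]
      exact pow_lt_pow_right₀ hv ((eraseLead_natDegree_lt_or_eraseLead_eq_zero f).resolve_right e)
  obtain ⟨η, e1, e2⟩ := key P hP
  have hη : η ≠ 0 := fun e => h0 (by rw [← e1, e, zero_pow hl.ne'])
  refine ⟨y / x ^ S / algebraMap k E η, fun i => ?_, div_self hη ▸ e2.div (vl_const P η) hη,
    fun v hv => ?_⟩
  · rw [map_div₀, map_div₀, map_pow, h.aut.pow_x, h.aut.pow_y, AlgEquiv.commutes, mul_div_assoc,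
      mul_div_assoc]
  · obtain ⟨c, e3, e4⟩ := key v hv
    have := NeZero.mk hl.ne'
    obtain ⟨j, hj, e5⟩ := h.aut.prim.eq_pow_of_pow_eq_one (ξ := c / η) (by
      rw [div_pow, e1, e3, div_self h0])
    exact ⟨j, hj, e5 ▸ e4.div (vl_const v η) hη⟩

theorem Cy.inf_ne (h : Cy ℓ ζ x y f s) (hd : ℓ ∣ f.natDegree) {P : Plc k E} (hP : 1 < P.1 x)
    {j : ℕ} (h0 : 0 < j) (hj : j < ℓ) : ∃ z, P.1 ((s ^ j) z) ≠ P.1 z := by
  obtain ⟨w, w1, w2, -⟩ := h.exists_w hd hP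
  refine ⟨w - algebraMap k E 1, (LT.lt.trans_eq w2 ?_).ne'⟩
  rw [map_sub, w1, AlgEquiv.commutes]
  exact ((((vl_const P _).mul w2).sub (vl_const P 1)).eq_one (by
    rw [mul_one]
    exact sub_ne_zero.2 (h.aut.prim.pow_ne_one_of_pos_of_lt h0.ne' hj))).symm

theorem Cy.key (h : Cy ℓ ζ x y f s) (hd : ℓ ∣ f.natDegree) {P v : Plc k E} (hP : 1 < P.1 x)
    (hv : 1 < v.1 x) {g : E} {c : ℤᵐ⁰} (hg : ∀ j : ℕ, P.1 ((s ^ j) g) ≤ c) {m : ℕ}
    (hc : c * P.1 x ^ m < P.1 x) : v.1 g * v.1 x ^ m ≤ 1 := by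
  obtain ⟨S, hS⟩ := hd
  obtain ⟨G, B, hB, hG, e⟩ := h.repr g
  have hy : ∀ u : Plc k E, 1 < u.1 x → ∀ (A : k[X]) (n : ℕ), A ≠ 0 →
      u.1 (aeval x A * y ^ n) = u.1 x ^ (A.natDegree + S * n) := fun u hu A n hA => by
    have e1 : u.1 y = u.1 x ^ S := (pow_left_inj₀ zero_le zero_le h.prime.ne_zero).1 (by
      rw [← map_pow, h.eq, plc_aeval_inf u hu h.ne_zero, hS, ← pow_mul, mul_comm])
    rw [map_mul, map_pow, plc_aeval_inf u hu hA, e1, pow_add, pow_mul]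
  have h1 : v.1 (aevalAeval x y G * x ^ m) ≤ v.1 (aeval x B) := by
    conv_lhs => rw [G.as_sum_range_C_mul_X_pow' hG, map_sum, sum_mul]
    refine v.1.map_sum_le fun u _ => ?_
    rw [map_mul (aevalAeval x y), map_pow, aevalAeval_C, aevalAeval_Y]
    rcases eq_or_ne (G.coeff u) 0 with h0 | h0
    · simp [h0]
    have h2 := proj_le h.aut hG P.2.2 (c := c * P.1 x ^ B.natDegree) (fun j => by
      rw [← e, map_mul, map_mul, h.aut.pow_aeval, plc_aeval_inf P hP hB]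
      exact mul_le_mul_left (hg j) _) u
    rw [hy P hP _ _ h0] at h2
    have h3 := (mul_le_mul_left h2 (P.1 x ^ m)).trans_lt (mul_right_comm c _ _ ▸
      mul_lt_mul_of_pos_right hc (pow_pos (zero_lt_one.trans hP) B.natDegree))
    rw [← pow_add, ← pow_succ', pow_lt_pow_iff_right₀ hP] at h3
    rw [map_mul, hy v hv _ _ h0, map_pow, ← pow_add, plc_aeval_inf v hv hB]
    exact pow_le_pow_right₀ hv.le (by omega)
  rwa [← e, map_mul, map_mul, map_pow, mul_right_comm, mul_le_iff_le_one_left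
    (zero_lt_iff.2 ((_root_.map_ne_zero _).2 (h.aeval_ne hB)))] at h1

theorem Cy.key2 (h : Cy ℓ ζ x y f s) (hd : ℓ ∣ f.natDegree) {P v : Plc k E} (hP : 1 < P.1 x)
    (hv : 1 < v.1 x) {w : E} (w1 : ∀ i : ℕ, (s ^ i) w = algebraMap k E (ζ ^ i) * w)
    (w2 : Vl P w 1) (w3 : Vl v w 1) {g : E} {m : ℕ} (hc : P.1 g * P.1 x ^ m < P.1 x) :
    v.1 g * v.1 x ^ m ≤ 1 := by
  rcases eq_or_ne g 0 with rfl | hg
  · simp
  have hl := h.prime.pos
  obtain ⟨H, hH⟩ : ∃ H, H = ∑ j ∈ range ℓ, w ^ j := ⟨_, rfl⟩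
  have h1 : ∀ u : Plc k E, Vl u w 1 → u.1 H = 1 := fun u hu =>
    (hH ▸ Vl.sum (range ℓ) fun j _ => hu.pow j).eq_one (by simpa using hl.ne')
  have h2 : ∀ i, ∃ N, i < ℓ → ∀ M, N ≤ M → P.1 ((s ^ i) (g * H ^ M)) ≤ P.1 g := fun i => by
    rcases eq_or_ne i 0 with rfl | h0
    · exact ⟨0, fun _ M _ => by simp [h1 P w2]⟩
    by_cases hi : i < ℓ
    swap
    · exact ⟨0, fun h => absurd h hi⟩
    have h3 : P.1 ((s ^ i) H) < 1 := by
      have := Vl.sum (range ℓ) fun j _ => ((vl_const P (ζ ^ i)).mul w2).pow j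
      rw [mul_one, (h.aut.prim.pow_of_coprime i (Nat.coprime_of_lt_prime h0 hi h.prime).symm
        ).geom_sum_eq_zero h.prime.one_lt, vl_zero] at this
      simpa only [hH, map_sum, map_pow (s ^ i), w1] using this
    have h4 : 0 < P.1 ((s ^ i) g) :=
      zero_lt_iff.2 ((_root_.map_ne_zero _).2 ((_root_.map_ne_zero _).2 hg))
    obtain ⟨N, hN⟩ := exists_pow_lt₀ h3 (Units.mk0 (P.1 g / P.1 ((s ^ i) g))
      (div_ne_zero (by simpa using hg) h4.ne'))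
    refine ⟨N, fun _ M hM => ?_⟩
    rw [map_mul, map_mul, map_pow, map_pow, mul_comm, ← le_div_iff₀ h4]
    exact (pow_le_pow_right_of_le_one' h3.le hM).trans hN.le
  choose N hN using h2
  have := h.key hd hP hv (g := g * H ^ ∑ i ∈ range ℓ, N i) (fun j => by
    rw [pow_eq_pow_mod j h.pow_eq_one]
    exact hN _ (Nat.mod_lt _ hl) _ (single_le_sum (fun _ _ => Nat.zero_le _)
      (mem_range.2 (Nat.mod_lt _ hl)))) hc
  rwa [map_mul, map_pow, h1 v w3, one_pow, mul_one] at this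

theorem Cy.inf_e (h : Cy ℓ ζ x y f s) (hd : ℓ ∣ f.natDegree) {P : Plc k E} (hP : 1 < P.1 x) :
    log (P.1 x) = 1 := by
  obtain ⟨w, w1, w2, -⟩ := h.exists_w hd hP
  obtain ⟨g, hg⟩ := P.2.1 (exp (-1))
  have h0 := zero_lt_one.trans hP
  have := h.key2 hd hP hP w1 w2 w2 (g := g) (m := 1) (by
    rw [pow_one, mul_lt_iff_lt_one_left h0, hg, ← exp_zero, exp_lt_exp]
    omega)
  rw [hg, pow_one, ← exp_log h0.ne', ← exp_add] at this
  rw [← exp_log h0.ne'] at hP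
  have := (exp_le_exp (b := 0)).1 this
  have := (exp_lt_exp (a := 0)).1 hP
  omega

theorem Cy.inf_orbit (h : Cy ℓ ζ x y f s) (hd : ℓ ∣ f.natDegree) {P v : Plc k E}
    (hP : 1 < P.1 x) (hv : 1 < v.1 x) : ∃ j < ℓ, ∀ z, v.1 z = P.1 ((s ^ j) z) := by
  obtain ⟨w, w1, w2, w3⟩ := h.exists_w hd hP
  obtain ⟨j, hj, w4⟩ := w3 v hv
  obtain ⟨Q, hQ⟩ := plc_comap P (s ^ j)
  have h0 : ζ ^ j ≠ 0 := pow_ne_zero _ (h.aut.prim.ne_zero h.prime.ne_zero)
  have hx : 1 < Q.1 x := by rwa [hQ, h.aut.pow_x]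
  have x0 : x ≠ 0 := fun e => by simp [e] at hP
  have h1 : ∀ g, Q.1 g = 1 → v.1 g ≤ 1 := fun g hg => by
    simpa using h.key2 hd hx hv (w := w / algebraMap k E (ζ ^ j)) (g := g) (m := 0)
      (fun i => by rw [map_div₀, w1, AlgEquiv.commutes, mul_div_assoc])
      (by rwa [Vl, hQ, map_sub, map_div₀, w1, AlgEquiv.commutes, AlgEquiv.commutes,
        mul_div_cancel_left₀ _ ((_root_.map_ne_zero _).2 h0)])
      (div_self h0 ▸ w4.div (vl_const v _) h0) (by simpa [hg] using hx)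
  refine ⟨j, hj, fun z => hQ z ▸ plc_ext Iff.rfl fun hz => ?_⟩
  have e : ∀ u : Plc k E, 1 < u.1 x → ∀ n : ℤ, u.1 (z * x ^ (-n)) = exp (log (u.1 z) - n) :=
    fun u hu n => by
      rw [map_mul, map_zpow₀, ← exp_log (zero_lt_one.trans hu).ne', h.inf_e hd hu, ← exp_zsmul,
        sub_eq_add_neg, exp_add, exp_log ((_root_.map_ne_zero _).2 hz), smul_eq_mul, mul_one]
  have h2 := (e Q hx _).trans (congrArg exp (sub_self _))
  have h3 := h1 _ h2
  have h4 := h1 _ (by rw [map_inv₀, h2]; exact inv_one : Q.1 (z * x ^ (-log (Q.1 z)))⁻¹ = 1)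
  rw [map_inv₀, e v hv, ← exp_neg] at h4
  rw [e v hv] at h3
  have := (exp_le_exp (b := 0)).1 h3
  have := (exp_le_exp (b := 0)).1 h4
  omega

theorem circ {ℓ : ℕ} (hl : ℓ.Prime) (L : Submodule ℤ (ℕ → ℤ))
    (hL : ∀ a ∈ L, (fun j => a (j + 1)) ∈ L) {α : ℕ → ℤ} (hα : α ∈ L)
    (hp : ∀ j, α j = α (j % ℓ)) (hs : ¬ (ℓ : ℤ) ∣ ∑ j ∈ range ℓ, α j) :
    ∃ a ∈ L, ¬ (ℓ : ℤ) ∣ a 0 ∧ ∀ j, 0 < j → j < ℓ → a j = 0 := by
  have := Fact.mk hl
  let T : Module.End ℤ (ℕ → ℤ) := LinearMap.funLeft ℤ ℤ (· + 1)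
  have hT : ∀ (n : ℕ) (a : ℕ → ℤ) (j : ℕ), (T ^ n) a j = a (j + n) := fun n => by
    induction n with
    | zero => exact fun _ _ => rfl
    | succ n ih => exact fun a j => by rw [pow_succ, Module.End.mul_apply, ih]; rfl
  let e : ℕ → ℤ := fun j => if ℓ ∣ j then 1 else 0
  let A : ℤ[X] := ∑ i ∈ range ℓ, C (α i) * X ^ (ℓ - i)
  obtain ⟨p, q, -, -, hpq⟩ := exists_mul_add_mul_eq_C_resultant (X ^ ℓ - C 1) A
    natDegree_X_pow_sub_C.le le_rfl (.inl hl.ne_zero)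
  have h1 : aeval T A e = α := funext fun j => by
    simp only [A, map_sum, map_mul, aeval_C, map_pow, aeval_X, LinearMap.sum_apply, Finset.sum_apply,
      Module.End.mul_apply, Module.algebraMap_end_apply, Pi.smul_apply, hT, e, smul_eq_mul]
    have k1 := Nat.mod_lt j hl.pos
    have k2 := Nat.div_add_mod j ℓ
    rw [sum_eq_single (j % ℓ), if_pos ⟨j / ℓ + 1, by rw [mul_add]; omega⟩, mul_one, ← hp]
    · intro i hi hne
      rw [if_neg, mul_zero]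
      intro hd
      have k3 := mem_range.1 hi
      rw [show j + (ℓ - i) = ℓ * (j / ℓ) + (j % ℓ + ℓ - i) by omega,
        Nat.dvd_add_right (dvd_mul_right _ _)] at hd
      exact hne (by have := Nat.eq_of_dvd_of_lt_two_mul (by omega) hd (by omega); omega)
    · exact fun hn => absurd (mem_range.2 k1) hn
  have h2 : aeval T (X ^ ℓ - C 1 : ℤ[X]) e = 0 := funext fun j => by
    simp [hT, e]
  have h3 := congrArg (fun r => aeval T r e) hpq
  simp only [mul_comm _ p, mul_comm _ q, map_add, map_mul, LinearMap.add_apply,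
    Module.End.mul_apply, h1, h2, map_zero, zero_add, aeval_C, Module.algebraMap_end_apply] at h3
  refine ⟨_, h3 ▸ aeval_apply_smul_mem_of_le_comap hα q T fun a ha => hL a ha, fun hd => hs ?_,
    fun j h0 hj => by simp [e, Nat.not_dvd_of_pos_of_lt h0 hj]⟩
  simp only [e, Pi.smul_apply, dvd_zero, if_true, smul_eq_mul, mul_one] at hd
  rw [← ZMod.intCast_zmod_eq_zero_iff_dvd] at hd ⊢
  replace hd := (resultant_map_map _ _ _ _ (Int.castRingHom (ZMod ℓ))).trans hd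
  rw [Polynomial.map_sub, Polynomial.map_pow, map_X, map_C, map_one, ← one_pow ℓ, C_pow,
    ← sub_pow_char, resultant_X_sub_C_pow_left _ _ _ _ natDegree_map_le,
    pow_eq_zero_iff hl.ne_zero] at hd
  simpa [A, Polynomial.map_sum, eval_finsetSum] using hd

theorem Cy.single (h : Cy ℓ ζ x y f s) (hd : ℓ ∣ f.natDegree) {P W : Plc k E} (hP : 1 < P.1 x)
    {l : k} (hl : f.IsRoot l) (hW : W.1 (x - algebraMap k E l) < 1) {ψ : E}
    (h1 : ∀ v : Plc k E, v.1 x ≤ 1 → ¬ v.1 (x - algebraMap k E l) < 1 → v.1 ψ = 1)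
    (h2 : ¬ (ℓ : ℤ) ∣ log (W.1 ψ)) :
    ∃ χ : E, (∀ v : Plc k E, v ≠ P → v ≠ W → v.1 χ = 1) ∧ ¬ (ℓ : ℤ) ∣ log (P.1 χ) := by
  let U : E → Prop := fun χ => χ ≠ 0 ∧
    ∀ v : Plc k E, v.1 x ≤ 1 → ¬ v.1 (x - algebraMap k E l) < 1 → v.1 χ = 1
  have n0 : ∀ (v : Plc k E) (t : E ≃ₐ[k] E) {z : E}, z ≠ 0 → v.1 (t z) ≠ 0 := fun v t z hz => by
    simpa using hz
  have hU : ∀ χ, U χ → ∀ j : ℕ, U ((s ^ j) χ) := fun χ hχ j =>
    ⟨(_root_.map_ne_zero _).2 hχ.1, fun v c1 c2 => by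
      obtain ⟨v', h'⟩ := plc_comap v (s ^ j)
      rw [← h']
      exact hχ.2 v' (by rwa [h', h.aut.pow_x])
        (by rwa [h', map_sub, h.aut.pow_x, AlgEquiv.commutes])⟩
  let L : Submodule ℤ (ℕ → ℤ) := AddSubgroup.toIntSubmodule
    { carrier := {a | ∃ χ, U χ ∧ ∀ j, a j = log (P.1 ((s ^ j) χ))}
      add_mem' := by
        rintro a b ⟨u, u1, u2⟩ ⟨w, w1, w2⟩
        exact ⟨u * w, ⟨mul_ne_zero u1.1 w1.1, fun v c1 c2 => by
          rw [map_mul, u1.2 v c1 c2, w1.2 v c1 c2, mul_one]⟩, fun j => by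
          rw [map_mul, map_mul, log_mul (n0 _ _ u1.1) (n0 _ _ w1.1), ← u2, ← w2, Pi.add_apply]⟩
      zero_mem' := ⟨1, ⟨one_ne_zero, fun v _ _ => map_one _⟩, fun j => by simp⟩
      neg_mem' := by
        rintro a ⟨u, u1, u2⟩
        exact ⟨u⁻¹, ⟨inv_ne_zero u1.1, fun v c1 c2 => by rw [map_inv₀, u1.2 v c1 c2, inv_one]⟩,
          fun j => by rw [map_inv₀, map_inv₀, log_inv, ← u2, Pi.neg_apply]⟩ }
  have hψ : U ψ := ⟨fun e => h2 (by simp [e]), h1⟩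
  have t0 := h.sub_ne l
  have h3 : ∀ j : ℕ, W.1 ((s ^ j) ψ) = W.1 ψ := fun j => by
    obtain ⟨v', h'⟩ := plc_comap W (s ^ j)
    rw [← h', h.ram_unique hl (v := v') (by rwa [h', map_sub, h.aut.pow_x, AlgEquiv.commutes]) hW]
  have h4 : Un k x (nm s ℓ ψ * (x - algebraMap k E l) ^ log (W.1 ψ)) := fun v hv => by
    rw [map_mul, map_zpow₀, nm, map_prod]
    by_cases c : v.1 (x - algebraMap k E l) < 1
    · rw [h.ram_unique hl c hW, prod_congr rfl fun j _ => h3 j, prod_const, card_range,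
        ← exp_log ((_root_.map_ne_zero W.1).2 t0), h.ram_e hl W.2.2 (W.2.1 _) hW, ← exp_zsmul,
        ← exp_log ((_root_.map_ne_zero W.1).2 hψ.1), log_exp, ← exp_nsmul, ← exp_add]
      simp [mul_comm]
    · rw [prod_eq_one fun j _ => (hU ψ hψ j).2 v hv c, le_antisymm
        (v.1.map_sub_le hv (v.2.2 l)) (not_lt.1 c), one_zpow, mul_one]
  obtain ⟨c, c0, hc⟩ := h.norm_one h4
  obtain ⟨a, ⟨χ, u1, u2⟩, a1, a2⟩ := circ h.prime L
    (by rintro a ⟨u, u1, u2⟩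
        exact ⟨(s ^ 1) u, hU u u1 1, fun j => (u2 _).trans (by rw [pow_add, AlgEquiv.mul_apply])⟩)
    (α := fun j => log (P.1 ((s ^ j) ψ))) ⟨ψ, hψ, fun _ => rfl⟩
    (fun j => by rw [pow_eq_pow_mod j h.pow_eq_one]) fun hs => h2 (by
      have e1 : s (algebraMap k E c * (nm s ℓ ψ * (x - algebraMap k E l) ^ log (W.1 ψ))) =
          algebraMap k E c * (nm s ℓ ψ * (x - algebraMap k E l) ^ log (W.1 ψ)) := by
        rw [map_mul, map_mul, map_zpow₀, map_sub, h.s_nm, h.aut.sx, s.commutes, s.commutes]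
      have e2 := congrArg (fun z => log (P.1 z)) hc
      rw [nm, prod_congr rfl fun j _ => (congrFun (AlgEquiv.coe_pow s j) _).trans
        (Function.IsFixedPt.iterate e1 j), prod_const, card_range] at e2
      have e3 : P.1 (x - algebraMap k E l) = P.1 x :=
        P.1.map_sub_eq_of_lt_left ((P.2.2 l).trans_lt hP)
      simp only [map_pow, map_mul, map_zpow₀, plc_eq_one P c0, one_mul, map_one, log_one, log_pow,
        e3, smul_eq_zero_iff_right h.prime.ne_zero] at e2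
      rw [log_mul ((_root_.map_ne_zero _).2 (nm_ne_zero s ℓ hψ.1))
        (zpow_ne_zero _ (zero_lt_one.trans hP).ne'), log_zpow, h.inf_e hd hP,
        kb10_log_nm _ _ _ hψ.1, smul_eq_mul, mul_one, add_eq_zero_iff_eq_neg] at e2
      exact (dvd_neg).1 (e2 ▸ hs))
  refine ⟨χ, fun v c1 c2 => ?_, by simpa [u2] using a1⟩
  rcases le_or_gt (v.1 x) 1 with hv | hv
  · exact u1.2 v hv fun c => c2 (h.ram_unique hl c hW)
  obtain ⟨j, hj, e⟩ := h.inf_orbit hd hP hv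
  have j0 : 0 < j := Nat.pos_of_ne_zero fun j0 => c1 (Subtype.ext (Valuation.ext fun z => by
    rw [e, j0, pow_zero, AlgEquiv.one_apply]))
  rw [e, ← exp_log (n0 P _ u1.1), ← u2, a2 j j0 hj, exp_zero]

end Pool.Agent.Lib.MP_07b2d0_nt.Tq
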