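import Pool.Agent.Lib.MP_07b2d0_nt.Tq.Un
import Pool.Agent.Lib.MP_07b2d0_nt.KF4
import Pool.Agent.Lib.MP_07b2d0_nt.KG3

/-!
Branch points of different colours are as far apart as possible.
-/

set_option autoImplicit false
set_option linter.unusedSectionVars false
set_option linter.unusedVariables false

namespace Pool.Agent.Lib.MP_07b2d0_nt.Tq

open Polynomial Finset Ks
open scoped Polynomial.Bivariate

variable {k : Type} [Field k] [IsAlgClosed k] [CharZero k] {ν : AbsoluteValue k ℝ} {ℓ : ℕ}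
  {f G₀ : k[X]} {b : k} {R : ℝ} {G : k[X][Y]} {ζ : k}

theorem near_max (h : NA ν ℓ) (hℓ : ℓ.Prime) (hf : f ≠ 0) (hR : 0 < R) (hG0 : G ≠ 0)
    (hG : G.natDegree < ℓ) {up : Bool} (hc : ¬ ℓ ∣ cnt ν b R up f) :
    ∃ ε > 0, ∀ ρ, Near ν b R up ε ρ → ∃ i ∈ G.support, ∀ η, η ^ ℓ = f.eval ρ →
      G.evalEval ρ η ≠ 0 ∧ lg ν (G.evalEval ρ η) =
        (mu ν b R (G.coeff i) + i / ℓ * mu ν b R f) +
          (cnt ν b R up (G.coeff i) + i / ℓ * cnt ν b R up f) * hh ν b R ρ := by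
  classical
  obtain ⟨ε₁, h1, H⟩ := near_terms h hℓ.ne_zero hf hR G b up
  set s : ℕ → ℝ := fun i => cnt ν b R up (G.coeff i) + i / ℓ * cnt ν b R up f with hs
  set m : ℕ → ℝ := fun i => mu ν b R (G.coeff i) + i / ℓ * mu ν b R f with hm
  have hlt : ∀ i ∈ G.support, i < ℓ := fun i hi =>
    (le_natDegree_of_mem_supp i hi).trans_lt hG
  obtain ⟨ε₂, h2, H2⟩ := ke3_unif (ν := ν) (b := b) (R := R) (up := up) (G.support ×ˢ G.support)
    (fun p ρ => p.1 ≠ p.2 → m p.1 + s p.1 * hh ν b R ρ ≠ m p.2 + s p.2 * hh ν b R ρ)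
    (by
      rintro ⟨i, j⟩ hp
      obtain ⟨hi, hj⟩ := mem_product.1 hp
      by_cases hij : i = j
      · exact ⟨1, one_pos, fun ρ _ hne => (hne hij).elim⟩
      · obtain ⟨ε, hε, He⟩ := ke3_lines (m i) (m j)
          (ke3_slope hℓ hc (hlt i hi) (hlt j hj) hij (cnt ν b R up (G.coeff i))
            (cnt ν b R up (G.coeff j)))
        exact ⟨ε, hε, fun ρ hρ _ => He _ (ke3_hh hρ) hρ.2.1⟩)
  refine ⟨min ε₁ ε₂, lt_min h1 h2, fun ρ hρ => ?_⟩
  obtain ⟨i₀, hi₀, hmax⟩ := Finset.exists_max_image G.support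
    (fun i => m i + s i * hh ν b R ρ) (support_nonempty.2 hG0)
  refine ⟨i₀, hi₀, fun η hη => ?_⟩
  have H' := H ρ η (hρ.mono (min_le_left _ _)) hη
  have H2' := H2 ρ (hρ.mono (min_le_right _ _))
  obtain ⟨a1, a2⟩ := H' i₀ (mem_support_iff.1 hi₀)
  have hsmall : ν (∑ i ∈ G.support.erase i₀, (G.coeff i).eval ρ * η ^ i) <
      ν ((G.coeff i₀).eval ρ * η ^ i₀) := by
    refine h.sum_lt _ (ν.pos a1) fun i hi => ?_
    obtain ⟨hne, hi'⟩ := mem_erase.1 hi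
    obtain ⟨c1, c2⟩ := H' i (mem_support_iff.1 hi')
    rw [← Real.log_lt_log_iff (ν.pos c1) (ν.pos a1)]
    change lg ν _ < lg ν _
    rw [a2, c2]
    exact lt_of_le_of_ne (hmax i hi') (H2' (i, i₀) (mem_product.2 ⟨hi', hi₀⟩) hne)
  have hval : ν (G.evalEval ρ η) = ν ((G.coeff i₀).eval ρ * η ^ i₀) := by
    refine h.eq_of_lt ?_
    rw [ke3_sum, ← Finset.add_sum_erase _ _ hi₀, add_sub_cancel_left]
    exact hsmall
  refine ⟨fun h0 => ?_, by rw [lg, hval]; exact a2⟩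
  rw [h0, map_zero] at hval
  exact (ν.pos a1).ne hval

/-- The trace of a unit has no zero in a ramified disc. -/
theorem Col.cnt (hC : Col ℓ ζ f G₀) (h : NA ν ℓ) (hℓ : ℓ.Prime) (hζ : IsPrimitiveRoot ζ ℓ)
    (hf : f ≠ 0) (hR : 0 < R) (hc : ¬ ℓ ∣ cnt ν b R false f) :
    G₀ ≠ 0 ∧ cnt ν b R false G₀ = 0 := by
  obtain ⟨⟨G, B, hB, hG, hN, h0⟩, -⟩ := hC
  have hl : (ℓ : ℝ) ≠ 0 := Nat.cast_ne_zero.2 hℓ.ne_zero
  obtain ⟨ε₁, p1, H1⟩ := poly_near h hR hB b false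
  have hG0 : G ≠ 0 := by
    rintro rfl
    obtain ⟨ρ, hρ⟩ := h.near_exists b R false p1
    obtain ⟨η, hη⟩ := IsAlgClosed.exists_pow_nat_eq (f.eval ρ) hℓ.pos
    have := hN.eval_eq hη
    rw [eval_pow, prod_eq_zero (mem_range.2 hℓ.pos) (by simp)] at this
    exact pow_ne_zero _ (H1 ρ hρ).1 this
  obtain ⟨ε₂, p2, H2⟩ := near_max h hℓ hf hR hG0 hG hc
  obtain ⟨ε₃, p3, H3⟩ := ke3_unif (ν := ν) (b := b) (R := R) (up := false) G.support
    (fun i ρ => i ≠ 0 → (mu ν b R (G.coeff i) + i / ℓ * mu ν b R f) +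
      (Ks.cnt ν b R false (G.coeff i) + i / ℓ * Ks.cnt ν b R false f) * hh ν b R ρ ≠
        mu ν b R B + Ks.cnt ν b R false B * hh ν b R ρ) fun i hi => by
      by_cases hi0 : i = 0
      · exact ⟨1, one_pos, fun ρ _ hne => (hne hi0).elim⟩
      · obtain ⟨ε, hε, He⟩ := ke3_lines (mu ν b R (G.coeff i) + i / ℓ * mu ν b R f) (mu ν b R B)
          (s' := Ks.cnt ν b R false B) (by
            simpa using ke3_slope hℓ hc ((le_natDegree_of_mem_supp i hi).trans_lt hG) hℓ.pos hi0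
              (Ks.cnt ν b R false (G.coeff i)) (Ks.cnt ν b R false B))
        exact ⟨ε, hε, fun ρ hρ _ => He _ (ke3_hh hρ) hρ.2.1⟩
  have key : ∀ ρ, Near ν b R false (min ε₁ (min ε₂ ε₃)) ρ → G.coeff 0 ≠ 0 ∧
      mu ν b R (G.coeff 0) + Ks.cnt ν b R false (G.coeff 0) * hh ν b R ρ =
        mu ν b R B + Ks.cnt ν b R false B * hh ν b R ρ := fun ρ hρ => by
    obtain ⟨a1, a2⟩ := H1 ρ (hρ.mono (min_le_left _ _))
    obtain ⟨i, hi, a3⟩ := H2 ρ (hρ.mono ((min_le_right _ _).trans (min_le_left _ _)))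
    have a4 := H3 ρ (hρ.mono ((min_le_right _ _).trans (min_le_right _ _))) i hi
    obtain ⟨η, hη⟩ := IsAlgClosed.exists_pow_nat_eq (f.eval ρ) hℓ.pos
    have a5 : ∀ j, (ζ ^ j * η) ^ ℓ = f.eval ρ := fun j => by
      rw [mul_pow, ← pow_mul, mul_comm j, pow_mul, hζ.pow_eq_one, one_pow, one_mul, hη]
    have a6 := congrArg (lg ν) (hN.eval_eq hη)
    rw [eval_pow, lg_pow, lg_prod _ fun j _ => (a3 _ (a5 j)).1,
      sum_congr rfl fun j _ => (a3 _ (a5 j)).2, sum_const, card_range, nsmul_eq_mul, a2] at a6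
    have a7 := (mul_left_cancel₀ hl a6).symm
    obtain rfl : i = 0 := by_contra fun e => a4 e a7
    exact ⟨mem_support_iff.1 hi, by simpa using a7⟩
  have p := lt_min p1 (lt_min p2 p3)
  obtain ⟨ρ, hρ⟩ := h.near_exists b R false p
  have n0 : G₀ ≠ 0 := left_ne_zero_of_mul (h0 ▸ (key ρ hρ).1)
  have e := (h.near_eq p fun ρ hρ => (key ρ hρ).2).2
  rw [h0, cnt_mul n0 hB, Nat.cast_add, add_eq_right, Nat.cast_eq_zero] at e
  exact ⟨n0, e⟩

theorem Col.mono (hC : Col ℓ ζ f G₀) (h : NA ν ℓ) (hℓ : ℓ.Prime) (hζ : IsPrimitiveRoot ζ ℓ)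
    (hf : f ≠ 0) (hc : ¬ ℓ ∣ Ks.cnt ν b R false f) {τ τ' : k} (h1 : f.IsRoot τ)
    (h2 : f.IsRoot τ') (h3 : ν (τ - b) < R) (h4 : ν (τ' - b) < R) : G₀.eval τ = G₀.eval τ' := by
  classical
  have hR : 0 < R := (ν.nonneg _).trans_lt h3
  obtain ⟨n0, e⟩ := hC.cnt h hℓ hζ hf hR hc
  unfold Ks.cnt at e
  rw [Multiset.card_eq_zero, Multiset.filter_eq_nil] at e
  have h5 : ∀ r ∈ G₀.roots, R ≤ ν (τ' - r) := fun r hr => by
    have h6 : R ≤ ν (b - r) := by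
      rw [ν.map_sub]
      exact not_lt.1 fun h6 => e r hr (.inl h6)
    rwa [h.iso (h4.trans_le h6)]
  have h6 : ν (τ - τ') < R := (h.tri _ b _).trans_lt (max_lt h3 (by rwa [ν.map_sub]))
  have h7 := h.prod_sub_one (t := ν (τ - τ') / R) (by positivity) ((div_lt_one hR).2 h6).le
    (G₀.roots.map fun r => (τ - r) / (τ' - r)) fun z hz => by
      obtain ⟨r, hr, rfl⟩ := Multiset.mem_map.1 hz
      have h8 : τ' - r ≠ 0 := fun e0 => by simpa [e0, hR.not_ge] using h5 r hr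
      rw [div_sub_one h8, sub_sub_sub_cancel_right, map_div₀]
      exact div_le_div_of_nonneg_left (ν.nonneg _) hR (h5 r hr)
  have h8 : G₀.eval τ' ≠ 0 := fun e0 => by simpa [e0, hℓ.ne_zero] using hC.2 τ' h2
  have h9 : (G₀.roots.map fun r => (τ - r) / (τ' - r)).prod = G₀.eval τ / G₀.eval τ' := by
    rw [(IsAlgClosed.splits G₀).eval_eq_prod_roots τ, (IsAlgClosed.splits G₀).eval_eq_prod_roots τ',
      mul_div_mul_left _ _ (leadingCoeff_ne_zero.2 n0), Multiset.prod_map_div]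
  rw [h9] at h7
  exact (div_eq_one_iff_eq h8).1 (root_eq_of_lt h.na h.one
    (by rw [div_pow, hC.2 τ h1, hC.2 τ' h2, div_one]) (one_pow ℓ)
    (h7.trans_lt ((div_lt_one hR).2 h6)))

variable {ι : Type} [Fintype ι] {a : ι → k} {w : ι → ℕ} {c : k}

theorem Col.far (hC : Col ℓ ζ (C c * ∏ i, (X - C (a i)) ^ w i) G₀) (h : NA ν ℓ) (hℓ : ℓ.Prime)
    (hζ : IsPrimitiveRoot ζ ℓ) (hc : c ≠ 0) (hw : ∀ i, ¬ ℓ ∣ w i) (hL : Loc1 ν ℓ a w) {i j : ι}
    (hij : G₀.eval (a i) ≠ G₀.eval (a j)) (h1 : ν (a i - b) < R) (h2 : ν (a j - b) < R)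
    (l : ι) : ν (a l - b) < R := by
  classical
  by_contra hl
  have hR : 0 < R := (ν.nonneg _).trans_lt h1
  have hr := fun i => kf4_root c a w (i := i) fun e => hw i (e ▸ dvd_zero ℓ)
  have c2 : ℓ ∣ Ks.cnt ν b R false (C c * ∏ i, (X - C (a i)) ^ w i) := by_contra fun e =>
    hij (hC.mono h hℓ hζ (mul_ne_zero (C_ne_zero.2 hc) (kf3_monic a w).ne_zero) e (hr i) (hr j)
      h1 h2)
  rw [cnt_prod hc] at c2
  refine hL (univ.filter fun i => ν (a i - b) < R) (univ.filter fun i => ¬ ν (a i - b) < R)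
    (disjoint_filter_filter_not _ _ _) (fun m => ?_) ⟨i, by simpa using h1⟩ ⟨l, by simpa using hl⟩
    c2 ?_
  · simp only [mem_filter, mem_univ, true_and, em, iff_true]
    exact hw m
  · intro p hp p' hp' q hq q' hq'
    simp only [mem_filter, mem_univ, true_and, not_lt] at hp hp' hq hq'
    have f1 : ν (a p - a q) = ν (a q - b) := by
      rw [ν.map_sub (a q) b]
      exact h.iso (by rw [ν.map_sub b]; exact hp.trans_le hq)
    have f2 : ν (a p' - a q') = ν (a q' - b) := by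
      rw [ν.map_sub (a q') b]
      exact h.iso (by rw [ν.map_sub b]; exact hp'.trans_le hq')
    have f3 : ν (a p - a p') < R :=
      (h.tri _ b _).trans_lt (max_lt hp (by rwa [ν.map_sub]))
    have f4 : ν (a q - a q') ≤ max (ν (a q - b)) (ν (a q' - b)) := by
      have := h.tri (a q) b (a q')
      rwa [ν.map_sub b] at this
    rw [f1, f2]
    have f5 := ν.nonneg (a p - a p')
    rcases le_max_iff.1 f4 with f6 | f6
    · calc ν (a p - a p') * ν (a q - a q') ≤ ν (a p - a p') * ν (a q - b) :=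
            mul_le_mul_of_nonneg_left f6 f5
        _ < ν (a q' - b) * ν (a q - b) :=
            mul_lt_mul_of_pos_right (f3.trans_le hq') (hR.trans_le hq)
        _ = _ := mul_comm _ _
    · calc ν (a p - a p') * ν (a q - a q') ≤ ν (a p - a p') * ν (a q' - b) :=
            mul_le_mul_of_nonneg_left f6 f5
        _ < ν (a q - b) * ν (a q' - b) :=
            mul_lt_mul_of_pos_right (f3.trans_le hq) (hR.trans_le hq')

theorem Col.diam (hC : Col ℓ ζ (C c * ∏ i, (X - C (a i)) ^ w i) G₀) (h : NA ν ℓ) (hℓ : ℓ.Prime)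
    (hζ : IsPrimitiveRoot ζ ℓ) (hc : c ≠ 0) (hw : ∀ i, ¬ ℓ ∣ w i) (hL : Loc1 ν ℓ a w) {i j : ι}
    (hij : G₀.eval (a i) ≠ G₀.eval (a j)) (p q : ι) : ν (a p - a q) ≤ ν (a i - a j) := by
  have key : ∀ l, ν (a l - a j) ≤ ν (a i - a j) := fun l => by
    by_contra hl
    have h1 := not_le.1 hl
    exact lt_irrefl _ (hC.far h hℓ hζ hc hw hL hij h1
      (by rw [sub_self, map_zero]; exact (ν.nonneg _).trans_lt h1) l)
  exact (h.tri _ (a j) _).trans (max_le (key p) (by rw [ν.map_sub]; exact key q))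

end Pool.Agent.Lib.MP_07b2d0_nt.Tq
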