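import Pool.Agent.Lib.MP_07b2d0_nt.Tq.Mob
import Pool.Agent.Lib.MP_07b2d0_nt.Tq.Cl
import Pool.Agent.Lib.MP_07b2d0_nt.Tq.Loc
import Pool.Agent.Lib.MP_07b2d0_nt.Tq.Inf
import Pool.Agent.Lib.MP_07b2d0_nt.Tq.Rf
import Pool.Agent.Lib.MP_07b2d0_nt.Tq.St

/-!
The colouring attached to a torsion point.
-/

set_option autoImplicit false
set_option linter.unusedSectionVars false
set_option linter.unusedVariables false

namespace Pool.Agent.Lib.MP_07b2d0_nt.Tq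

open Polynomial WithZero Finset Ks Fh Kh

variable {ℓ r : ℕ} {e : Fin r → ℕ}

theorem col_core {Ω F : Type} [Field Ω] [IsAlgClosed Ω] [CharZero Ω] [Field F] [Algebra Ω F]
    {c : Ω} {a : Fin r → Ω} (hℓ : ℓ.Prime) (hr : 0 < r) (hc : c ≠ 0) (ha : Function.Injective a)
    (he : ∀ i, ¬ ℓ ∣ e i) (hs : ℓ ∣ ∑ i, e i) {x y φ : F} (hx : Transcendental Ω x)
    (ht : IntermediateField.adjoin Ω {x, y} = ⊤)
    (hy : y ^ ℓ = aeval x (C c * ∏ i, (X - C (a i)) ^ e i)) {P W : Plc Ω F} (hP : ¬ P.1 y < 1)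
    (hW : W.1 y < 1) (hS : ∀ v : Plc Ω F, v ≠ P → v ≠ W → v.1 φ = 1) (hφ : P.1 φ ≠ 1) :
    ∃ (t : Option Ω) (κ : Fin r → Ω), (∀ i, some (a i) ≠ t) ∧ (∃ i j, κ i ≠ κ j) ∧
      (∀ ν : AbsoluteValue Ω ℝ, NA ν ℓ → Loc1 ν ℓ a e → ∀ i j, κ i ≠ κ j → ∀ p q,
        ν (mo t (a p) - mo t (a q)) ≤ ν (mo t (a i) - mo t (a j))) ∧
      ((t = none ∧ 1 < P.1 x) ∨ ∃ τ, t = some τ ∧ Vl P x τ) ∧
      ∀ l, (∀ i j, i ≠ l → j ≠ l → κ i = κ j) → ∃ (W' : Plc Ω F) (ψ : F), W'.1 y < 1 ∧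
        (∀ v : Plc Ω F, v ≠ P → v ≠ W' → v.1 ψ = 1) ∧ ¬ (ℓ : ℤ) ∣ log (P.1 ψ) := by
  have he0 : ∀ i, e i ≠ 0 := fun i h => he i (h ▸ dvd_zero ℓ)
  obtain ⟨ζ₀, s₀, h₀⟩ := exists_cy hℓ hr hc ha he hs hx ht hy
  have hG : Gen ℓ x y c a e := ⟨hℓ, hx, h₀.fd, by simp [hy, map_prod], hc, ha, hs⟩
  have y0 : ∀ v : Plc Ω F, v.1 y < 1 ↔ ∃ i, Vl v x (a i) := fun v => by
    rw [← pow_lt_one_iff hℓ.ne_zero, ← map_pow]
    refine ⟨fun h => by_contra fun H => h.not_ge ?_, fun ⟨i, h⟩ => ?_⟩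
    · rw [hG.eq, map_mul, plc_eq_one v hc, one_mul, map_prod]
      refine one_le_prod' fun i _ => ?_
      rw [map_pow]
      exact one_le_pow_of_one_le' (not_lt.1 fun h => H ⟨i, h⟩) _
    · have := h.aeval (C c * ∏ i, (X - C (a i)) ^ e i)
      rwa [(kf4_root c a e (he0 i)).eq_zero, vl_zero, ← hy] at this
  obtain ⟨t, t1⟩ : ∃ t : Option Ω, (t = none ∧ 1 < P.1 x) ∨ ∃ τ, t = some τ ∧ Vl P x τ := by
    rcases lt_or_ge 1 (P.1 x) with h | h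
    · exact ⟨none, .inl ⟨rfl, h⟩⟩
    · obtain ⟨τ, h⟩ := h₀.centre P h
      exact ⟨some τ, .inr ⟨τ, rfl, h⟩⟩
  have t2 : ∀ i, some (a i) ≠ t := fun i h => by
    rcases t1 with ⟨rfl, -⟩ | ⟨τ, rfl, h1⟩
    · exact Option.some_ne_none _ h
    · exact hP ((y0 P).2 ⟨i, Option.some.inj h ▸ h1⟩)
  have t3 : 1 < P.1 (mo (t.map (algebraMap Ω F)) x) := by
    rcases t1 with ⟨rfl, h⟩ | ⟨τ, rfl, h⟩
    · exact h
    · change 1 < P.1 (x - algebraMap Ω F τ)⁻¹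
      rw [map_inv₀]
      exact (one_lt_inv₀ (zero_lt_iff.2 ((_root_.map_ne_zero _).2 (kf3_ne hx τ)))).2 h
  have hG' := gen_mo hG t2
  simp only [← fun v i => vl_mo (x := x) v (t2 i)] at y0
  have ht' := top_mo hx ht t ((∑ i, e i) / ℓ)
  generalize mo (t.map (algebraMap Ω F)) x = x' at *
  generalize my (t.map (algebraMap Ω F)) x y _ = y' at *
  obtain ⟨ζ, s, h⟩ := exists_cy hℓ hr hG'.ne hG'.inj he hs hG'.trans ht'
    (by simp [hG'.eq, map_prod])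
  have hd : ℓ ∣ _ := (kf3_deg hG'.ne (fun i => mo t (a i)) e).symm ▸ hs
  have hr' := fun i => kf4_root (mc t c a e) (fun i => mo t (a i)) e (he0 i)
  obtain ⟨m, hm⟩ := (y0 W).1 hW
  have hsx : ∀ τ, s (x' - algebraMap Ω F τ) = x' - algebraMap Ω F τ := fun τ => by
    rw [map_sub, h.aut.sx, s.commutes]
  have h0 : φ ≠ 0 := fun h0 => by
    obtain ⟨τ, hτ⟩ := Infinite.exists_notMem_finset {mo t (a m)}
    obtain ⟨v, hv⟩ := h.above τ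
    have := hS v (fun e => (Vl.le_one hv).not_gt (e ▸ t3)) fun e =>
      hτ (mem_singleton.2 (Vl.unique hv (e ▸ hm)))
    simp [h0] at this
  obtain ⟨G₀, c1, ⟨τ, τ', q1, q2, q3⟩, c3⟩ := h.colours ⟨_, hr' m⟩ (φ := φ / s φ) (fun v hv => by
      obtain ⟨v', h'⟩ := plc_comap v s
      rw [map_div₀, ← h', div_eq_one_iff_eq ((_root_.map_ne_zero _).2 h0)]
      by_cases hv' : Vl v x' (mo t (a m))
      · rw [h.ram_unique (hr' m) hv' (v' := v') (by rwa [h', hsx])]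
      · rw [hS v (fun e => hv.not_gt (e ▸ t3)) fun e => hv' (e ▸ hm),
          hS v' (fun e => hv.not_gt (by rw [← h.aut.sx, ← h', e]; exact t3)) fun e => hv' (by
            rw [Vl, ← hsx, ← h', e]; exact hm)]) ⟨P, by
      obtain ⟨v', h'⟩ := plc_comap P s
      obtain ⟨z, hz⟩ := h.inf_ne hd t3 one_pos hℓ.one_lt
      rwa [map_div₀, ← h', hS v' (fun e => hz (by rw [pow_one, ← h', e])) fun e =>
        hm.le_one.not_gt (by rwa [← e, h', h.aut.sx]), div_one]⟩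
  obtain ⟨i, rfl, -⟩ := kf3_root hG'.ne _ e q1
  obtain ⟨j, rfl, -⟩ := kf3_root hG'.ne _ e q2
  refine ⟨t, fun i => G₀.eval (mo t (a i)), t2, ⟨i, j, q3⟩, fun ν h1 h2 i j h3 =>
    c1.diam h1 hℓ h.aut.prim hG'.ne he (fun I J b1 b2 b3 b4 b5 b6 =>
      h2 I J b1 b2 b3 b4 b5 ((sep_mo ν t2 I J).1 b6)) h3, t1, fun l hl => ?_⟩
  obtain ⟨ψ, v, p1, p2, p3⟩ := c3 _ (hr' l) fun τ τ' b1 b2 b3 b4 => by
    obtain ⟨i, rfl, -⟩ := kf3_root hG'.ne _ e b1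
    obtain ⟨j, rfl, -⟩ := kf3_root hG'.ne _ e b2
    exact hl i j (fun e => b3 (e ▸ rfl)) fun e => b4 (e ▸ rfl)
  obtain ⟨χ, p4⟩ := h.single hd t3 (hr' l) p2 p1 p3
  exact ⟨v, χ, (y0 v).2 ⟨l, p2⟩, p4⟩

theorem tor_col {k : Type} [Field k] [CharZero k] {f : k[X]} {c : AlgebraicClosure k}
    {a : Fin r → AlgebraicClosure k} (hℓ : ℓ.Prime) (hr : 0 < r)
    (hf : f.map (algebraMap k _) = C c * ∏ i, (X - C (a i)) ^ e i) (hc : c ≠ 0)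
    (ha : Function.Injective a) (he : ∀ i, ¬ ℓ ∣ e i) (hs : ℓ ∣ ∑ i, e i) (h : St.Tor ℓ f) :
    ∃ (t : Option (AlgebraicClosure k)) (κ : Fin r → AlgebraicClosure k),
      (∀ i, some (a i) ≠ t) ∧ (∃ i j, κ i ≠ κ j) ∧
      (∀ ν : AbsoluteValue (AlgebraicClosure k) ℝ, NA ν ℓ → Loc1 ν ℓ a e → ∀ i j, κ i ≠ κ j →
        ∀ p q, ν (mo t (a p) - mo t (a q)) ≤ ν (mo t (a i) - mo t (a j))) ∧
      ∀ l, (∀ i j, i ≠ l → j ≠ l → κ i = κ j) → ∃ (t₀ : Option k) (η : k),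
        t = t₀.map (algebraMap k _) ∧ algebraMap k _ (η ^ ℓ) = mc t c a e := by
  obtain ⟨F, _, _, x, y, φ, P, W, hx, ht, hy, hP, hW, hS, hφ, H⟩ := h
  have hd : f.natDegree = ∑ i, e i := by
    rw [← natDegree_map (algebraMap k (AlgebraicClosure k)), hf, kf3_deg hc]
  rw [hf] at hy
  obtain ⟨t, κ, h1, h2, h3, h4, h5⟩ := col_core hℓ hr hc ha he hs hx ht hy (P := P) (W := W)
    hP hW hS hφ
  refine ⟨t, κ, h1, h2, h3, fun l hl => ?_⟩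
  obtain ⟨W', ψ, p1, p2, p3⟩ := h5 l hl
  obtain ⟨t₀, η, ⟨q1, q2⟩ | ⟨q1, q2⟩⟩ := H W' ψ p1 p2 p3
  · rcases h4 with ⟨-, h4⟩ | ⟨τ, rfl, h4⟩
    · exact absurd (Vl.le_one (v := P) q1) h4.not_ge
    refine ⟨some t₀, η, congrArg some (h4.unique q1), ?_⟩
    have := (Vl.pow (v := P) q2 ℓ).unique (hy ▸ h4.aeval _)
    simpa [mc, eval_prod] using this
  · rcases h4 with ⟨rfl, -⟩ | ⟨τ, -, h4⟩
    swap
    · exact absurd h4.le_one q1.not_ge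
    have x0 : x ≠ 0 := by simpa using kf3_ne hx 0
    have x1 : Vl (L := AlgebraicClosure k) P x⁻¹ 0 := by
      rw [vl_zero, map_inv₀]
      exact inv_lt_one_of_one_lt₀ q1
    have x2 := (vl_const P c).mul (Vl.prod univ fun i _ =>
      ((vl_const P 1).sub ((vl_const P (a i)).mul x1)).pow (e i))
    refine ⟨none, η, rfl, ?_⟩
    rw [map_pow, (Vl.pow (v := P) q2 ℓ).unique (c' := _) (by
      convert x2 using 1
      rw [div_pow, hy, ← pow_mul, hd, Nat.div_mul_cancel hs, ← prod_pow_eq_pow_sum]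
      simp only [map_mul, map_prod, map_pow, map_sub, aeval_C, aeval_X, mul_div_assoc,
        ← prod_div_distrib, ← div_pow, sub_div, div_self x0, map_one, ← div_eq_mul_inv])]
    simp [mc]

end Pool.Agent.Lib.MP_07b2d0_nt.Tq
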