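import Pool.Agent.Lib.MP_07b2d0_nt.KC3
import Pool.Agent.Lib.MP_07b2d0_nt.KF3
import Pool.Agent.Lib.MP_07b2d0_nt.Kh.GAut
import Pool.Agent.Lib.MP_07b2d0_nt.Kh.VPlc

/-!
The function field of `y ^ ℓ = f(x)` without a condition at infinity.
-/

set_option autoImplicit false
set_option linter.unusedSectionVars false
set_option linter.unusedVariables false

namespace Pool.Agent.Lib.MP_07b2d0_nt.Tq

open Polynomial WithZero Finset Ks
open scoped Polynomial.Bivariate IntermediateField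

variable {k E : Type} [Field k] [IsAlgClosed k] [CharZero k] [Field E] [Algebra k E]
  {ℓ : ℕ} {x y : E} {f : k[X]} {ζ : k} {s : E ≃ₐ[k] E}

/-- `E` is the function field of `y ^ ℓ = f(x)` with deck transformation `s`. -/
structure Cy (ℓ : ℕ) (ζ : k) (x y : E) (f : k[X]) (s : E ≃ₐ[k] E) : Prop where
  prime : ℓ.Prime
  root : ∀ τ, f.IsRoot τ → ¬ ℓ ∣ f.rootMultiplicity τ
  trans : Transcendental k x
  gen : IntermediateField.adjoin k {x, y} = ⊤
  eq : y ^ ℓ = aeval x f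
  aut : Aut ℓ ζ x y s

theorem Cy.ne_zero (h : Cy ℓ ζ x y f s) : f ≠ 0 := by
  rintro rfl
  exact h.root 0 (by simp) (by simp)

theorem Cy.aeval_ne (h : Cy ℓ ζ x y f s) {A : k[X]} (hA : A ≠ 0) : aeval x A ≠ 0 := fun h0 =>
  h.trans ⟨A, hA, h0⟩

theorem Cy.sub_ne (h : Cy ℓ ζ x y f s) (τ : k) : x - algebraMap k E τ ≠ 0 := kf3_ne h.trans τ

theorem Cy.y_ne (h : Cy ℓ ζ x y f s) : y ≠ 0 := by
  rintro rfl
  have := h.eq
  rw [zero_pow h.prime.ne_zero] at this
  exact h.aeval_ne h.ne_zero this.symm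

theorem Cy.top (h : Cy ℓ ζ x y f s) : k⟮x⟯⟮y⟯ = ⊤ := by
  have h1 := IntermediateField.adjoin_simple_adjoin_simple k x y
  rw [h.gen] at h1
  rw [eq_top_iff]
  intro z _
  have h2 : z ∈ (k⟮x⟯⟮y⟯).restrictScalars k := by
    rw [h1]
    exact IntermediateField.mem_top
  exact h2

theorem Cy.repr (h : Cy ℓ ζ x y f s) (φ : E) : ∃ (G : k[X][Y]) (B : k[X]),
    B ≠ 0 ∧ G.natDegree < ℓ ∧ φ * aeval x B = aevalAeval x y G := by
  have hℓ := h.prime.ne_zero
  have hint := ka1_integral hℓ h.eq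
  have hmem : φ ∈ Algebra.adjoin k⟮x⟯ {y} := by
    rw [← IntermediateField.adjoin_simple_toSubalgebra_of_isAlgebraic hint.isAlgebraic, h.top]
    exact IntermediateField.mem_top
  have key : ∃ (G : k[X][Y]) (B : k[X]), B ≠ 0 ∧ φ * aeval x B = aevalAeval x y G := by
    induction hmem using Algebra.adjoin_induction with
    | mem z hz =>
      rw [Set.mem_singleton_iff] at hz
      subst hz
      exact ⟨Y, 1, one_ne_zero, by rw [map_one, mul_one, aevalAeval_Y]⟩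
    | algebraMap c =>
      obtain ⟨r, s, hrs⟩ := (IntermediateField.mem_adjoin_simple_iff k (c : E)).mp c.2
      have hc : algebraMap k⟮x⟯ E c = (c : E) := rfl
      by_cases hs : aeval x s = 0
      · refine ⟨0, 1, one_ne_zero, ?_⟩
        rw [hc, hrs, hs, div_zero, zero_mul, map_zero]
      · refine ⟨C r, s, ?_, ?_⟩
        · rintro rfl
          exact hs (map_zero _)
        · rw [hc, hrs, div_mul_cancel₀ _ hs, aevalAeval_C]
    | add a b _ _ ha hb =>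
      obtain ⟨G₁, B₁, h1, e1⟩ := ha
      obtain ⟨G₂, B₂, h2, e2⟩ := hb
      refine ⟨G₁ * C B₂ + G₂ * C B₁, B₁ * B₂, mul_ne_zero h1 h2, ?_⟩
      rw [map_add, map_mul, map_mul, map_mul, aevalAeval_C, aevalAeval_C, ← e1, ← e2]
      ring
    | mul a b _ _ ha hb =>
      obtain ⟨G₁, B₁, h1, e1⟩ := ha
      obtain ⟨G₂, B₂, h2, e2⟩ := hb
      refine ⟨G₁ * G₂, B₁ * B₂, mul_ne_zero h1 h2, ?_⟩
      rw [map_mul, map_mul, ← e1, ← e2]
      ring
  obtain ⟨G, B, hB, e⟩ := key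
  obtain ⟨h1, h2⟩ := ka1_mod hℓ h.eq G
  exact ⟨G %ₘ kum ℓ f, B, hB, h1, by rw [h2, e]⟩

theorem Cy.fd (h : Cy ℓ ζ x y f s) : FiniteDimensional k⟮x⟯ E := by
  have h1 := IntermediateField.adjoin.finiteDimensional (ka1_integral h.prime.ne_zero h.eq)
  rw [h.top] at h1
  exact (IntermediateField.topEquiv (F := k⟮x⟯) (E := E)).toLinearEquiv.finiteDimensional

theorem Cy.pow_eq_one (h : Cy ℓ ζ x y f s) : s ^ ℓ = 1 := by
  ext φ
  obtain ⟨G, B, hB, -, e⟩ := h.repr φ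
  have e2 := congrArg (s ^ ℓ) e
  rw [map_mul, h.aut.pow_aeval, h.aut.pow_aevalAeval, h.aut.prim.pow_eq_one] at e2
  simp only [map_one, one_mul, comp_X] at e2
  rw [← e] at e2
  exact mul_right_cancel₀ (h.aeval_ne hB) e2

/-- The projection to an eigenspace. -/
theorem proj (hs : Aut ℓ ζ x y s) {G : k[X][Y]} (hG : G.natDegree < ℓ) {u : ℕ} (hu : u < ℓ) :
    ∑ j ∈ range ℓ, algebraMap k E (ζ ^ (ℓ - u)) ^ j * (s ^ j) (aevalAeval x y G) =
      ℓ * (aeval x (G.coeff u) * y ^ u) := by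
  have e : aevalAeval x y G = ∑ i ∈ range ℓ, aeval x (G.coeff i) * y ^ i := by
    conv_lhs => rw [G.as_sum_range_C_mul_X_pow' hG]
    rw [map_sum]
    refine sum_congr rfl fun i _ => ?_
    rw [map_mul, map_pow, aevalAeval_C, aevalAeval_Y]
  have e2 : ∀ i j : ℕ, algebraMap k E (ζ ^ (ℓ - u)) ^ j * (s ^ j) (aeval x (G.coeff i) * y ^ i) =
      algebraMap k E ((ζ ^ (ℓ - u + i)) ^ j) * (aeval x (G.coeff i) * y ^ i) := fun i j => by
    rw [map_mul, map_pow (s ^ j), hs.pow_aeval, hs.pow_y, mul_pow]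
    simp only [map_pow, map_mul, pow_add, mul_pow, ← pow_mul, mul_comm i j]
    ring
  simp only [e, map_sum, mul_sum, e2]
  rw [sum_comm, sum_eq_single u]
  · rw [Nat.sub_add_cancel hu.le, hs.prim.pow_eq_one]
    simp
  · intro i hi hiu
    rw [← sum_mul, ← map_sum]
    have h1 : ζ ^ (ℓ - u + i) - 1 ≠ 0 := fun h0 => by
      have h2 := (hs.prim.pow_eq_one_iff_dvd _).1 (sub_eq_zero.1 h0)
      have h3 := mem_range.1 hi
      obtain ⟨c, hc⟩ := h2
      rcases c with _ | _ | c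
      · omega
      · omega
      · have : ℓ * (c + 1 + 1) = ℓ * c + ℓ + ℓ := by ring
        omega
    have h2 := geom_sum_mul (ζ ^ (ℓ - u + i)) ℓ
    rw [← pow_mul, mul_comm _ ℓ, pow_mul, hs.prim.pow_eq_one, one_pow, sub_self] at h2
    rw [(mul_eq_zero.1 h2).resolve_right h1, map_zero, zero_mul]
  · intro h
    exact absurd (mem_range.2 hu) h

theorem proj_zero (hs : Aut ℓ ζ x y s) {G : k[X][Y]} (hG : G.natDegree < ℓ) :
    ∑ j ∈ range ℓ, (s ^ j) (aevalAeval x y G) = ℓ * aeval x (G.coeff 0) := by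
  have := proj hs hG (u := 0) (by omega)
  simpa [hs.prim.pow_eq_one] using this

theorem proj_le (hs : Aut ℓ ζ x y s) {G : k[X][Y]} (hG : G.natDegree < ℓ) {v : Valuation E ℤᵐ⁰}
    (hv : Triv k v) {c : ℤᵐ⁰} (h : ∀ j : ℕ, v ((s ^ j) (aevalAeval x y G)) ≤ c) (u : ℕ) :
    v (aeval x (G.coeff u) * y ^ u) ≤ c := by
  rcases lt_or_ge u ℓ with hu | hu
  · have h1 : v (ℓ : E) = 1 := by
      rw [← map_natCast (algebraMap k E)]
      exact hv.eq_one (Nat.cast_ne_zero.2 (by omega))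
    rw [← one_mul (v _), ← h1, ← map_mul, ← proj hs hG hu]
    refine v.map_sum_le fun j _ => ?_
    rw [map_mul, ← map_pow]
    exact (mul_le_of_le_one_left' (hv _)).trans (h j)
  · rw [coeff_eq_zero_of_natDegree_lt (hG.trans_le hu), map_zero, zero_mul, map_zero]
    exact zero_le

theorem Cy.fixed (h : Cy ℓ ζ x y f s) {φ : E} (hφ : s φ = φ) :
    ∃ A B : k[X], B ≠ 0 ∧ φ * aeval x B = aeval x A := by
  obtain ⟨G, B, hB, hG, e⟩ := h.repr φ
  have : CharZero E := charZero_of_injective_algebraMap (algebraMap k E).injective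
  have h1 : ∀ j : ℕ, (s ^ j) φ = φ := fun j => by
    induction j with
    | zero => rfl
    | succ j ih => rw [pow_succ, AlgEquiv.mul_apply, hφ, ih]
  have h2 := proj_zero h.aut hG
  simp only [← e, map_mul, h1, h.aut.pow_aeval, sum_const, card_range, nsmul_eq_mul] at h2
  exact ⟨_, B, hB, mul_left_cancel₀ (Nat.cast_ne_zero.2 h.prime.ne_zero) h2⟩

theorem Cy.s_nm (h : Cy ℓ ζ x y f s) (z : E) : s (nm s ℓ z) = nm s ℓ z := by
  unfold nm
  rw [map_prod]
  have e1 : ∀ i, s ((s ^ i) z) = (s ^ (i + 1)) z := fun i => by rw [pow_succ', AlgEquiv.mul_apply]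
  simp only [e1]
  rcases eq_or_ne z 0 with rfl | hz
  · simp
  have e2 := prod_range_succ (fun i => (s ^ i) z) ℓ
  rw [prod_range_succ', h.pow_eq_one, pow_zero] at e2
  exact mul_right_cancel₀ ((_root_.map_ne_zero _).2 hz) e2

theorem Cy.log_neg (h : Cy ℓ ζ x y f s) {τ : k} {v : Valuation E ℤᵐ⁰}
    (hc : v (x - algebraMap k E τ) < 1) : log (v (x - algebraMap k E τ)) < 0 := by
  have h1 := (log_lt_log ((Valuation.ne_zero_iff v).2 (h.sub_ne τ)) one_ne_zero).2 hc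
  rwa [log_one] at h1

theorem Cy.logy (h : Cy ℓ ζ x y f s) {v : Valuation E ℤᵐ⁰} {t : ℤᵐ⁰} {w : ℕ}
    (hw : v (aeval x f) = t ^ w) : (ℓ : ℤ) * log (v y) = w * log t := by
  have h1 : v y ^ ℓ = t ^ w := by rw [← hw, ← h.eq, map_pow]
  have h2 := congrArg log h1
  rwa [log_pow, log_pow, nsmul_eq_mul, nsmul_eq_mul] at h2

theorem Cy.ram_dvd (h : Cy ℓ ζ x y f s) {τ : k} (hτ : f.IsRoot τ) {v : Valuation E ℤᵐ⁰}
    (hv : Triv k v) (hc : v (x - algebraMap k E τ) < 1) :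
    (ℓ : ℤ) ∣ log (v (x - algebraMap k E τ)) := by
  have hp : Prime (ℓ : ℤ) := Nat.prime_iff_prime_int.1 h.prime
  rcases hp.dvd_or_dvd ⟨_, (h.logy (hv.aeval_eq_pow hc h.ne_zero)).symm⟩ with h2 | h2
  · exact absurd (Int.natCast_dvd_natCast.1 h2) (h.root τ hτ)
  · exact h2

theorem Cy.core {σ : E ≃ₐ[k] E} (h : Cy ℓ ζ x y f σ) (P : Valuation E ℤᵐ⁰ → Prop) (t : E)
    (o : k[X] → ℕ) (s : ℤ)
    (hs : s * s = 1)
    (hP : ∀ v, P v → 0 < s * log (v t) ∧ ∀ A : k[X], A ≠ 0 → v (aeval x A) = v t ^ o A)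
    (hf : ¬ ℓ ∣ o f)
    (hc : ∀ A B : k[X], A ≠ 0 → B ≠ 0 → o A = o B →
      ∃ c : k, c ≠ 0 ∧ (A - C c * B = 0 ∨ s * (o (A - C c * B) : ℕ) < s * (o B : ℕ)))
    {g : E} (hg : g ≠ 0) :
    ∃ n : ℤ, (∀ v, P v → ℓ * log (v g) = n * log (v t)) ∧
      (n = 0 → ∃ c : k, c ≠ 0 ∧ ∀ v, P v → v (g - algebraMap k E c) < 1) := by
  obtain ⟨G, B, hB, hG, hr⟩ := h.repr g
  have hp : Prime (ℓ : ℤ) := Nat.prime_iff_prime_int.1 h.prime
  have hl : 0 < ℓ := h.prime.pos
  have hBx : aeval x B ≠ 0 := h.aeval_ne hB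
  have hy : y ≠ 0 := by
    rintro rfl
    have := h.eq
    rw [zero_pow hl.ne'] at this
    exact h.aeval_ne h.ne_zero this.symm
  have hG0 : G ≠ 0 := by
    rintro rfl
    rw [map_zero] at hr
    exact mul_ne_zero hg hBx hr
  set u : ℕ → E := fun i => aeval x (G.coeff i) * y ^ i with hu
  have hsum : aevalAeval x y G = ∑ i ∈ G.support, u i := by
    conv_lhs => rw [G.as_sum_support_C_mul_X_pow]
    rw [map_sum]
    refine Finset.sum_congr rfl fun i _ => ?_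
    rw [map_mul, map_pow, aevalAeval_C, aevalAeval_Y]
  set e : ℕ → ℤ := fun i => ℓ * (o (G.coeff i) : ℕ) + i * (o f : ℕ) with he
  have hlt : ∀ i ∈ G.support, i < ℓ := fun i hi => (le_natDegree_of_mem_supp i hi).trans_lt hG
  have hdiv : ∀ i j : ℕ, i < ℓ → j < ℓ → (ℓ : ℤ) ∣ ((i : ℤ) - j) * (o f : ℕ) → i = j := by
    intro i j hi hj hd
    rcases hp.dvd_or_dvd hd with h2 | h2
    · have := Int.eq_zero_of_abs_lt_dvd h2 (abs_lt.2 ⟨by omega, by omega⟩)
      omega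
    · exact absurd (Int.natCast_dvd_natCast.1 h2) hf
  obtain ⟨i₀, hi₀, hmax⟩ := Finset.exists_max_image G.support (fun i => s * e i)
    (nonempty_support_iff.2 hG0)
  have hu0 : ∀ i ∈ G.support, u i ≠ 0 := fun i hi =>
    mul_ne_zero (h.aeval_ne (mem_support_iff.1 hi)) (pow_ne_zero _ hy)
  have hlogA : ∀ v, P v → ∀ A : k[X], A ≠ 0 → log (v (aeval x A)) = o A * log (v t) := by
    intro v hv A hA
    rw [(hP v hv).2 A hA, log_pow, nsmul_eq_mul]
  have hlogu : ∀ v, P v → ∀ i ∈ G.support, ℓ * log (v (u i)) = e i * log (v t) := by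
    intro v hv i hi
    have h1 := h.logy ((hP v hv).2 f h.ne_zero)
    have h2 := hlogA v hv _ (mem_support_iff.1 hi)
    simp only [hu, he]
    rw [map_mul, map_pow, log_mul
      ((Valuation.ne_zero_iff v).2 (h.aeval_ne (mem_support_iff.1 hi)))
      (pow_ne_zero _ ((Valuation.ne_zero_iff v).2 hy)), log_pow, nsmul_eq_mul, h2]
    linear_combination (i : ℤ) * h1
  have hkey : ∀ v, P v → ∀ i ∈ G.support, i ≠ i₀ → v (u i) < v (u i₀) := by
    intro v hv i hi hne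
    refine kb4_lt (hu0 i hi) (hu0 i₀ hi₀) hl hs (hP v hv).1 ?_ (hlogu v hv i hi)
      (hlogu v hv i₀ hi₀)
    refine lt_of_le_of_ne (hmax i hi) fun heq => hne ?_
    have h1 : e i = e i₀ := by
      calc e i = s * (s * e i) := by rw [← mul_assoc, hs, one_mul]
        _ = s * (s * e i₀) := by rw [heq]
        _ = e i₀ := by rw [← mul_assoc, hs, one_mul]
    refine hdiv i i₀ (hlt i hi) (hlt i₀ hi₀) ⟨(o (G.coeff i₀) : ℕ) - (o (G.coeff i) : ℕ), ?_⟩
    simp only [he] at h1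
    linear_combination h1
  refine ⟨e i₀ - ℓ * (o B : ℕ), fun v hv => ?_, fun hn => ?_⟩
  · have h1 := (val_sum_eq hi₀ (hkey v hv)).1
    rw [← hsum, ← hr, map_mul] at h1
    have h2 := congrArg log h1
    rw [log_mul ((Valuation.ne_zero_iff v).2 hg) ((Valuation.ne_zero_iff v).2 hBx),
      hlogA v hv B hB] at h2
    have h3 := hlogu v hv i₀ hi₀
    linear_combination (ℓ : ℤ) * h2 + h3
  · have h0 : i₀ = 0 := by
      refine hdiv i₀ 0 (hlt i₀ hi₀) hl ⟨(o B : ℕ) - (o (G.coeff i₀) : ℕ), ?_⟩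
      simp only [he] at hn
      push_cast
      linear_combination hn
    subst h0
    have hA0 : G.coeff 0 ≠ 0 := mem_support_iff.1 hi₀
    have hoo : o (G.coeff 0) = o B := by
      simp only [he] at hn
      have hl' : (ℓ : ℤ) ≠ 0 := by exact_mod_cast hl.ne'
      have : (ℓ : ℤ) * (o (G.coeff 0) : ℕ) = ℓ * (o B : ℕ) := by
        push_cast at hn
        linear_combination hn
      exact_mod_cast mul_left_cancel₀ hl' this
    obtain ⟨c, hc0, hc1⟩ := hc _ _ hA0 hB hoo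
    refine ⟨c, hc0, fun v hv => ?_⟩
    have hu00 : u 0 = aeval x (G.coeff 0) := by simp [hu]
    have hvB : v (u 0) = v (aeval x B) := by
      rw [hu00, (hP v hv).2 _ hA0, (hP v hv).2 _ hB, hoo]
    have hvB0 : 0 < v (aeval x B) := zero_lt_iff.2 ((Valuation.ne_zero_iff v).2 hBx)
    have h1 := (val_sum_eq hi₀ (hkey v hv)).2 (hu0 0 hi₀)
    rw [hvB] at h1
    have h2 : v (aeval x (G.coeff 0 - C c * B)) < v (aeval x B) := by
      by_cases hz : G.coeff 0 - C c * B = 0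
      · rw [hz, map_zero, map_zero]
        exact hvB0
      · refine kb4_lt (h.aeval_ne hz) hBx one_pos hs (hP v hv).1 (hc1.resolve_left hz) ?_ ?_
        · rw [hlogA v hv _ hz]
          simp
        · rw [hlogA v hv _ hB]
          simp
    have h3 : (g - algebraMap k E c) * aeval x B =
        (∑ i ∈ G.support, u i - u 0) + aeval x (G.coeff 0 - C c * B) := by
      rw [← hsum, ← hr, hu00, map_sub, map_mul, aeval_C]
      ring
    have h4 := v.map_add_lt h1 h2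
    rw [← h3, map_mul] at h4
    exact (mul_lt_iff_lt_one_left hvB0).1 h4

theorem Cy.ram_val (h : Cy ℓ ζ x y f s) {τ : k} (hτ : f.IsRoot τ) {g : E} (hg : g ≠ 0) :
    ∃ n : ℤ, (∀ v : Valuation E ℤᵐ⁰, Triv k v → v (x - algebraMap k E τ) < 1 →
        ℓ * log (v g) = n * log (v (x - algebraMap k E τ))) ∧
      (n = 0 → ∃ c : k, c ≠ 0 ∧ ∀ v : Valuation E ℤᵐ⁰, Triv k v →
        v (x - algebraMap k E τ) < 1 → v (g - algebraMap k E c) < 1) := by
  refine h.core (fun v => Triv k v ∧ v (x - algebraMap k E τ) < 1) (x - algebraMap k E τ)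
    (rootMultiplicity τ) (-1) (by norm_num) (fun v hv => ⟨?_, fun A hA => hv.1.aeval_eq_pow hv.2 hA⟩)
    (h.root τ hτ) (kb4_lead_ram τ) hg |>.imp fun n hn =>
      ⟨fun v h1 h2 => hn.1 v ⟨h1, h2⟩, fun h0 => (hn.2 h0).imp fun c hc =>
        ⟨hc.1, fun v h1 h2 => hc.2 v ⟨h1, h2⟩⟩⟩
  have := h.log_neg hv.2
  linarith

theorem Cy.ram_e (h : Cy ℓ ζ x y f s) {τ : k} (hτ : f.IsRoot τ) {v : Valuation E ℤᵐ⁰}
    (hv : Triv k v) (hs : Srj v) (hc : v (x - algebraMap k E τ) < 1) :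
    log (v (x - algebraMap k E τ)) = -ℓ := by
  obtain ⟨π, hπ⟩ := hs
  have hπ0 : π ≠ 0 := by
    rintro rfl
    rw [map_zero] at hπ
    exact exp_ne_zero hπ.symm
  obtain ⟨n, hn, -⟩ := h.ram_val hτ hπ0
  have h1 := hn v hv hc
  obtain ⟨m, hm⟩ := h.ram_dvd hτ hv hc
  have h2 := h.log_neg hc
  have hl : (0 : ℤ) < ℓ := by exact_mod_cast h.prime.pos
  rw [hπ, log_exp, hm] at h1
  have h3 : n * m = -1 := by
    apply mul_left_cancel₀ hl.ne'
    linarith
  have h4 : m < 0 := by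
    rw [hm] at h2
    by_contra h5
    have := mul_nonneg hl.le (not_lt.1 h5)
    linarith
  have h6 : m = 1 ∨ m = -1 := Int.eq_one_or_neg_one_of_mul_eq_neg_one (by rw [mul_comm]; exact h3)
  rcases h6 with h6 | h6
  · omega
  · rw [hm, h6]
    ring

end Pool.Agent.Lib.MP_07b2d0_nt.Tq
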