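import Mathlib
import Pool.Agent.Lib.MP_07b2d0_nt.KT4

/-!
Global height bounds for coloured configurations of branch points.
-/

set_option autoImplicit false
set_option linter.unusedSectionVars false
set_option linter.unusedVariables false

namespace Pool.Agent.Lib.MP_07b2d0_nt.Ks

open Finset Real NumberField Height Module

/-- One side of every edge of the tree is monochromatic. -/
def Mono {K ι κ : Type} [Field K] [NumberField K] [Fintype ι] [DecidableEq ι] (N : ℕ) (a : ι → K)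
    (cl : ι → κ) : Prop :=
  ∀ v : FinitePlace K, v (N : K) = 1 → ∀ I : Finset ι, Sep (fun z => v z) a I Iᶜ →
    (∀ i ∈ I, ∀ j ∈ I, cl i = cl j) ∨ ∀ i ∉ I, ∀ j ∉ I, cl i = cl j

theorem Mono.no_edge {K ι κ : Type} [Field K] [NumberField K] [Fintype ι] [DecidableEq ι] {N : ℕ}
    {a : ι → K} {cl : ι → κ} (hM : Mono N a cl) (ha : Function.Injective a) {i j p l : ι}
    (hq : [i, j, p, l].Nodup) (h1 : cl i ≠ cl j) (h2 : cl p ≠ cl l) {v : FinitePlace K}
    (hv : v (N : K) = 1) : 1 ≤ v (cr a i j p l) := by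
  by_contra hlt
  obtain ⟨I, hi, hj, hp, hl, hS⟩ := edge ha v hq (not_le.mp hlt)
  rcases hM v hv I hS with h | h
  · exact h1 (h i hi j hj)
  · exact h2 (h p hp l hl)

/-- No colour class is everything or the complement of a point. -/
theorem global_mono : ∃ c : ℕ → ℕ, Primrec c ∧ ∀ (K ι κ : Type) [Field K] [NumberField K]
    [Fintype ι] [DecidableEq ι] (n N ℓ : ℕ) (a : ι → K) (cl : ι → κ),
    Small K n N → ℓ.Prime → ℓ ∣ N → Function.Injective a → Mono N a cl →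
    (∀ v : FinitePlace K, v (N : K) = 1 → ∀ i j p q, [i, j, p, q].Nodup →
      (ℓ : ℤ) ∣ ord v (cr a i j p q)) →
    (∀ m, ∃ i j, i ≠ m ∧ j ≠ m ∧ cl i ≠ cl j) →
    ∀ p q r s, [p, q, r, s].Nodup → logHeight₁ (cr a p q r s) ≤ c n := by
  obtain ⟨c, hc, H⟩ := kum_unit
  refine ⟨fun n => 4 * n + 8 * (4 * n + 9 * c n), pr_add (pr_mul (.const _) .id)
    (pr_mul (.const _) (pr_add (pr_mul (.const _) .id) (pr_mul (.const _) hc))), ?_⟩
  intro K ι κ _ _ _ _ n N ℓ a cl s hℓ hN ha hM hD hm p q r t hq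
  have c0 : (0 : ℝ) ≤ c n := Nat.cast_nonneg _
  have c2 : (0 : ℝ) ≤ n := Nat.cast_nonneg _
  have ne : ∀ {x y : ι}, cl x ≠ cl y → x ≠ y := fun h hxy => h (hxy ▸ rfl)
  have key : ∀ {i j p l : ι}, i ≠ j → p ≠ l → cl i ≠ cl p → cl i ≠ cl l → cl j ≠ cl p →
      cl j ≠ cl l → logHeight₁ (cr a i j p l) ≤ c n := by
    intro i j p l h1 h2 h3 h4 h5 h6
    have nd : [i, j, p, l].Nodup := nodup4.2 ⟨h1, ne h3, ne h4, ne h5, ne h6, h2⟩
    have e1 : cr a i j p l ∈ RN K N :=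
      kt3_int fun v hv => hM.no_edge ha (nodup_swap' nd) h3 h6 hv
    exact H K n N ℓ _ s hℓ hN e1 (kt3_one ha nd e1 fun v hv =>
      hM.no_edge ha (nodup_swap nd) h4 h5.symm hv) fun v hv => hD v hv i j p l nd
  push_cast
  by_cases hp : ∃ i₀ i₁, i₀ ≠ i₁ ∧ cl i₁ = cl i₀
  swap
  · push Not at hp
    obtain ⟨n1, n2, n3, n4, n5, n6⟩ := nodup4.1 hq
    have := key n1 n6 (hp _ _ n2.symm) (hp _ _ n3.symm) (hp _ _ n4.symm) (hp _ _ n5.symm)
    linarith
  obtain ⟨i₀, i₁, hi, hp⟩ := hp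
  have hout : ∀ m, ∃ x, x ≠ m ∧ cl x ≠ cl i₀ := fun m => by
    obtain ⟨i, j, h1, h2, h3⟩ := hm m
    by_cases h : cl i = cl i₀
    · exact ⟨j, h2, fun h' => h3 (h.trans h'.symm)⟩
    · exact ⟨i, h1, h⟩
  obtain ⟨x, -, hx⟩ := hout i₀
  obtain ⟨y, hyx, hy⟩ := hout x
  have hx1 : cl x ≠ cl i₁ := hp ▸ hx
  refine cr_of_ref s.hD ha (fun _ => True) (ne hx) (ne hx1) hi (by positivity)
    (fun z _ z1 z2 z3 => ?_) hq trivial trivial trivial trivial
  by_cases hz : cl z = cl i₀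
  · have := cr_of_ref s.hD ha (fun w => w = x ∨ cl w = cl i₀) (ne hx.symm) (ne hy.symm) hyx.symm c0
      (fun w hw w1 w2 _ => key w1.symm hyx.symm hx.symm hy.symm
        (hw.resolve_left w2 ▸ hx.symm) (hw.resolve_left w2 ▸ hy.symm))
      (nodup4.2 ⟨z1.symm, ne hx, ne hx1, z2, z3, hi⟩) (.inl rfl) (.inr hz) (.inr rfl) (.inr hp)
    linarith
  · have := key z1.symm hi hx hx1 hz (hp ▸ hz)
    linarith

/-- One point `m` is at maximal distance from all the others. -/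
theorem global_odd : ∃ c : ℕ → ℕ, Primrec c ∧ ∀ (K ι : Type) [Field K] [NumberField K]
    (n N ℓ : ℕ) (a : ι → K) (m : ι), Small K n N → ℓ.Prime → ℓ ∣ N → Function.Injective a →
    (∀ v : FinitePlace K, v (N : K) = 1 → ∀ i, i ≠ m → ∀ p q, v (a p - a q) ≤ v (a i - a m)) →
    (∀ v : FinitePlace K, v (N : K) = 1 → ∀ p q, p ≠ m → q ≠ m → p ≠ q →
      (ℓ : ℤ) ∣ ord v ((a p - a q) / (a p - a m))) →
    ∀ p q r s, [p, q, r, s].Nodup → logHeight₁ (cr a p q r s) ≤ c n := by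
  obtain ⟨c, hc, H⟩ := kum_unit
  refine ⟨fun n => 4 * n + 8 * c n, pr_add (pr_mul (.const _) .id) (pr_mul (.const _) hc), ?_⟩
  intro K ι _ _ n N ℓ a m s hℓ hN ha h1 h2 p q r t hq
  obtain ⟨n1, n2, n3, n4, n5, n6⟩ := nodup4.1 hq
  obtain ⟨u, hu⟩ : ∃ u, u ≠ m := by
    by_cases h : p = m
    · exact ⟨q, h ▸ n1.symm⟩
    · exact ⟨p, h⟩
  have e0 := sub_ne ha hu
  have p0 : ∀ v : FinitePlace K, 0 < v (a u - a m) := fun v => FinitePlace.pos_iff.2 e0
  have hb : ∀ x, logHeight₁ ((a u - a x) / (a u - a m)) ≤ c n := fun x => by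
    by_cases x1 : x = u
    · rw [x1, sub_self, zero_div, logHeight₁_zero]
      exact Nat.cast_nonneg _
    by_cases x2 : x = m
    · rw [x2, div_self e0, logHeight₁_one]
      exact Nat.cast_nonneg _
    have e1 : a m - a x ≠ 0 := sub_ne ha (Ne.symm x2)
    refine H K n N ℓ _ s hℓ hN (fun v hv => ?_) ?_ fun v hv => h2 v hv u x hu x2 (Ne.symm x1)
    · rw [map_div₀, div_le_one (p0 v)]
      exact h1 v hv u hu u x
    · rw [div_sub_one e0, sub_sub_sub_cancel_left]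
      refine ⟨div_ne_zero e1 e0, fun v hv => ?_, fun v hv => ?_⟩
      · rw [map_div₀, div_le_one (p0 v)]
        exact h1 v hv u hu m x
      · rw [inv_div, map_div₀, div_le_one (FinitePlace.pos_iff.2 e1), kt1_comm v (a m)]
        exact h1 v hv x x2 u m
  have hd : ∀ x y, logHeight₁ ((a x - a y) / (a u - a m)) ≤ n + 2 * c n := fun x y => by
    have h3 := h_sub_le s.hD ((a u - a y) / (a u - a m)) ((a u - a x) / (a u - a m))
    rw [← sub_div, sub_sub_sub_cancel_left] at h3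
    linarith [hb x, hb y]
  have e : cr a p q r t = (a p - a q) / (a u - a m) * ((a r - a t) / (a u - a m)) /
      ((a p - a r) / (a u - a m) * ((a q - a t) / (a u - a m))) := by
    have e2 := sub_ne ha n2
    have e3 := sub_ne ha n5
    rw [cr]
    field_simp
  have h4 := h_div_le ((a p - a q) / (a u - a m) * ((a r - a t) / (a u - a m)))
    ((a p - a r) / (a u - a m) * ((a q - a t) / (a u - a m)))
  have h5 := logHeight₁_mul_le ((a p - a q) / (a u - a m)) ((a r - a t) / (a u - a m))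
  have h6 := logHeight₁_mul_le ((a p - a r) / (a u - a m)) ((a q - a t) / (a u - a m))
  rw [e]
  push_cast
  linarith [hd p q, hd r t, hd p r, hd q t]

end Pool.Agent.Lib.MP_07b2d0_nt.Ks
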