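import Pool.Agent.Lib.MP_07b2d0_nt.Tq.Un
import Pool.Agent.Lib.MP_07b2d0_nt.PA3
import Pool.Agent.Lib.MP_07b2d0_nt.KG6
import Pool.Agent.Lib.MP_07b2d0_nt.KH5

/-!
The `ℓ ^ 2`-torsion sees the twist.
-/

set_option autoImplicit false
set_option linter.unusedSectionVars false
set_option linter.unusedVariables false

namespace Pool.Agent.Lib.MP_07b2d0_nt.Tq

open Polynomial WithZero Finset Ks NumberField

variable {k E : Type} [Field k] [IsAlgClosed k] [CharZero k] [Field E] [Algebra k E]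
  {ℓ : ℕ} {x y : E} {f : k[X]}
variable {Γ : Type} [Group Γ] {α : Γ →* (k ≃+* k)} {β : Γ →* (E ≃+* E)}

theorem cyc_l3 (h : Cyc ℓ x y f) (hA : Act α β x y) (hF : Fix α f)
    (hz : ∀ g (z : k), z ^ ℓ = 1 → α g z = z) (hT : Tors k β ℓ) {a b : k} {e : ℕ} {f₁ : k[X]}
    (hf : f = (X - C a) ^ e * f₁) (h1 : f₁.eval a ≠ 0) (he : e ≠ 0) (hb : f.IsRoot b)
    (hab : b ≠ a) :
    ∃ γ ξ : k, (∀ g, α g γ = γ) ∧ ξ ^ ℓ = 1 ∧ γ ^ ℓ * ξ = (b - a) ^ e * f₁.eval a := by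
  have hℓ := h.ram.prime.ne_zero
  have : NeZero ℓ := ⟨hℓ⟩
  have ha : f.IsRoot a := by simp [hf, he]
  obtain ⟨ζ, hζ⟩ := HasEnoughRootsOfUnity.exists_primitiveRoot k ℓ
  obtain ⟨s, hs⟩ := h.aut hζ
  have hC : Cy ℓ ζ x y f s := ⟨h.ram.prime, h.ram.root, h.trans, h.gen, h.eq, hs⟩
  obtain ⟨θ, Q₁, Q₂, hθ, hQ, hd, hθe, hq⟩ := hs.package h hA hT ha (fun g => hF.root g a ha) 1
  have hQ' := hC.aeval_ne hQ
  obtain ⟨q, hqd⟩ : ∃ q, q = aeval x Q₁ / aeval x Q₂ := ⟨_, rfl⟩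
  have hq' : (x - algebraMap k E a) * nm s ℓ θ = q ^ ℓ := by
    rw [hqd, div_pow, ← hq, mul_div_cancel_right₀ _ (pow_ne_zero _ hQ')]
  have hxa := hC.sub_ne a
  have hn := nm_ne_zero s ℓ hθ
  have hq0 : q ≠ 0 := fun h0 => by
    rw [h0, zero_pow hℓ] at hq'
    exact mul_ne_zero hxa hn hq'
  have hfx : ∀ g (τ : k), f.IsRoot τ → β g (x - algebraMap k E τ) = x - algebraMap k E τ :=
    fun g τ hτ => by rw [map_sub, hA.fx, hA.compat, hF.root g τ hτ]
  have key : ∀ g, ∃ u : k, β g (q / θ) = algebraMap k E u * (q / θ) := fun g => by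
    obtain ⟨e, he⟩ := hθe g
    have e1 : β g (nm s ℓ θ) = algebraMap k E (e ^ ℓ) * nm s ℓ θ := by
      rw [hs.map_nm h (α g) (β g) (hA.compat g) (hA.fx g) (hA.fy g) (hz g ζ hζ.pow_eq_one), he,
        nm_smul hs]
    have e2 : (β g q / q) ^ ℓ = algebraMap k E (e ^ ℓ) := by
      rw [div_pow, ← map_pow, ← hq', map_mul, hfx g a ha, e1]
      field_simp
    obtain ⟨e', he'⟩ := exists_const_of_pow hℓ e2
    refine ⟨e' / e, ?_⟩
    rw [map_div₀, he, map_div₀, ← he']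
    field_simp
  choose u hu using key
  have main : ∀ (τ γ c : k) (z : E) g, f.IsRoot τ → β g z = algebraMap k E c * z →
      Val x τ z γ → α g γ = c * γ := by
    intro τ γ c z g hτ hz h2
    obtain ⟨v, hc⟩ := hC.above τ
    have e1 := h2 (v.1.comap (β g).toRingHom) (Triv.comap v.2.2 (α g) (β g) (hA.compat g))
      ((congrArg v.1 (hfx g τ hτ)).trans_lt hc)
    have e2 : v.1 (algebraMap k E c * z - algebraMap k E (α g γ)) < 1 := by
      rw [← hz, ← hA.compat, ← map_sub]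
      exact e1
    exact Triv.cen_unique v.2.2 e2 ((Val.const x τ c).mul h2 _ v.2.2 hc)
  obtain ⟨γ₁, g1, g2⟩ := hs.branch_value h hb hab hθ hd hq'
  have e1 : ((q / θ) ^ e / y) ^ ℓ * aeval x f₁ * (θ ^ ℓ) ^ e = nm s ℓ θ ^ e := by
    have e2 := h.eq
    rw [hf, map_mul, map_pow, map_sub, aeval_X, aeval_C] at e2
    have e3 : aeval x f₁ ≠ 0 := hC.aeval_ne fun h0 => h1 (by simp [h0])
    rw [div_pow, ← pow_mul, mul_comm e, pow_mul, div_pow, div_pow, ← hq', e2, mul_pow]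
    field_simp
  obtain ⟨v, hv⟩ := hC.above a
  have e2 : v.1 (nm s ℓ θ) = v.1 θ ^ ℓ := by
    obtain ⟨n, hn, -⟩ := hC.ram_val ha hθ
    rw [nm, map_prod, ← card_range ℓ, ← prod_const, card_range]
    refine prod_congr rfl fun i _ => ?_
    have e3 : v.1 ((s ^ i) (x - algebraMap k E a)) = v.1 (x - algebraMap k E a) := by
      rw [map_sub, hs.pow_x, AlgEquiv.commutes]
    have e4 : ℓ * log (v.1 ((s ^ i) θ)) = n * log (v.1 ((s ^ i) (x - algebraMap k E a))) :=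
      hn (v.1.comap ((s ^ i : E ≃ₐ[k] E) : E →+* E)) (kb10_triv v.2.2 _) (e3.trans_lt hv)
    rw [e3, ← hn _ v.2.2 hv] at e4
    rw [← exp_log (x := v.1 θ) (by simpa using hθ), ← mul_left_cancel₀ (by simpa using hℓ) e4,
      exp_log ((_root_.map_ne_zero _).2 ((_root_.map_ne_zero _).2 hθ))]
  obtain ⟨γ₂, g3, g4⟩ := hC.exists_val (z := (q / θ) ^ e / y) ha v hv (by
    have e3 := congrArg v.1 e1
    rw [map_mul, map_mul, map_pow, map_pow, map_pow, map_pow, e2,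
      (Val.aeval x a f₁).eq_one h1 v.2.2 hv, mul_one,
      mul_eq_right₀ (by simp [hθ]), pow_eq_one_iff_left hℓ] at e3
    exact e3)
  have hu0 : ∀ g, u g ≠ 0 := fun g h0 => by
    have := hu g
    rw [h0, map_zero, zero_mul, _root_.map_eq_zero] at this
    exact div_ne_zero hq0 hθ this
  refine ⟨γ₁ ^ e / γ₂, γ₂ ^ ℓ * f₁.eval a, fun g => ?_, ?_, ?_⟩
  · rw [map_div₀, map_pow, main b γ₁ _ _ g hb (hu g) g2, main a γ₂ (u g ^ e) _ g ha (by
      rw [map_div₀, map_pow, hu, hA.fy, mul_pow, map_pow, mul_div_assoc]) g4, mul_pow,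
      mul_div_mul_left _ _ (pow_ne_zero _ (hu0 g))]
  · have e3 := congrArg (nm s ℓ) e1
    have e4 : nm s ℓ (nm s ℓ θ) = nm s ℓ θ ^ ℓ := by
      have e5 : ∀ i : ℕ, (s ^ i) (nm s ℓ θ) = nm s ℓ θ := fun i => by
        induction i with
        | zero => rfl
        | succ i ih => rw [pow_succ, AlgEquiv.mul_apply, hC.s_nm, ih]
      rw [nm, prod_congr rfl fun i _ => e5 i, prod_const, card_range]
    rw [nm_mul, nm_pow, nm_pow, nm_pow, e4, mul_eq_right₀ (by simp [hn])] at e3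
    exact hC.unique (e3 ▸ ((g4.pow ℓ).mul (Val.aeval x a f₁)).nm hs ℓ)
      (by simpa using Val.const x a 1)
  · rw [div_pow, ← pow_mul, mul_comm e, pow_mul, g1, ← mul_assoc,
      div_mul_cancel₀ _ (pow_ne_zero _ g3)]

open Classical in
theorem gen_l3 {ι : Type} [Fintype ι] {c : k} {a : ι → k} {w : ι → ℕ}
    (h : Gen ℓ x y c a w) (hw : ∀ i, ¬ ℓ ∣ w i) (hA : Act α β x y) (hc : ∀ g, α g c = c)
    (ha : ∀ g i, α g (a i) = a i) (hz : ∀ g (z : k), z ^ ℓ = 1 → α g z = z) (hT : Tors k β ℓ)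
    {m p q : ι} (hp : p ≠ m) (hq : q ≠ m) (hpq : p ≠ q) :
    ∃ γ ξ : k, (∀ g, α g γ = γ) ∧ ξ ^ ℓ = 1 ∧ γ ^ ℓ * ξ = c * ((a p - a m) / (a p - a q)) ^ w m *
      ∏ i ∈ univ.erase m, ((a m - a i) / (a m - a q)) ^ w i := by
  obtain ⟨x₁, y₁, c', h0, h1, h2, h3, h4⟩ := h.mobius' hA hc ha (hw q)
  obtain ⟨L, i1, i2, x', y', β', h5, h6, h7⟩ := h2.exists_cyc h3 hT
  have hb : ∀ {m n : ι}, m ≠ n → (a m - a q)⁻¹ - (a n - a q)⁻¹ ≠ 0 := fun hm h7 =>
    hm (h.inj (sub_left_injective (inv_injective (sub_eq_zero.1 h7))))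
  have w0 : ∀ i, w i ≠ 0 := fun i e => hw i (e ▸ dvd_zero ℓ)
  obtain ⟨γ, ξ, g1, g2, g3⟩ := cyc_l3 h5 h6 h4 hz h7 (a := (a m - a q)⁻¹) (b := (a p - a q)⁻¹)
    (e := w m) (f₁ := C c' * ∏ i ∈ univ.erase m, (X - C (a i - a q)⁻¹) ^ if i = q then 0 else w i)
    (by
      rw [← mul_prod_erase _ _ (mem_univ m), if_pos ⟨hq.symm, hw m⟩, mul_left_comm]
      simp [hw])
    (by
      rw [eval_mul, eval_C, eval_prod]
      refine mul_ne_zero h1 (prod_ne_zero_iff.2 fun i hi => ?_)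
      rw [eval_pow, eval_sub, eval_X, eval_C]
      exact pow_ne_zero _ (hb (mem_erase.1 hi).1.symm))
    (w0 m) (kf4_root _ _ _ (i := p) (by simp [hpq, hw, w0])) (sub_ne_zero.1 (hb hp))
  refine ⟨γ, ξ, g1, g2, ?_⟩
  have n1 := sub_ne h.inj hpq
  have n2 := sub_ne h.inj hq.symm
  have e1 : ∏ i ∈ univ.erase m, ((a m - a i) / (a m - a q)) ^ w i =
      ∏ i ∈ univ.erase m, ((if i = q then 1 else (a q - a i) ^ w i) *
        eval (a m - a q)⁻¹ ((X - C (a i - a q)⁻¹) ^ if i = q then 0 else w i)) := by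
    refine prod_congr rfl fun i _ => ?_
    by_cases hi : i = q
    · simp [hi, n2]
    have n3 := sub_ne h.inj hi
    rw [if_neg hi, if_neg hi, eval_pow, eval_sub, eval_X, eval_C, ← mul_pow]
    congr 1
    field_simp
    ring
  rw [g3, eval_mul, eval_C, eval_prod, h0, ← mul_prod_erase _ _ (mem_univ m), if_neg hq.symm, e1,
    show (a p - a m) / (a p - a q) = ((a p - a q)⁻¹ - (a m - a q)⁻¹) * (a q - a m) by
      field_simp
      ring, mul_pow, prod_mul_distrib]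
  ring

theorem local_T {K F ι : Type} [Field K] [NumberField K] [Field F]
    [Algebra (AlgebraicClosure K) F] [Fintype ι]
    (act : (AlgebraicClosure K ≃ₐ[K] AlgebraicClosure K) →* (F ≃+* F)) {ℓ N : ℕ} {x y : F} {η : K}
    {a : ι → K} {w : ι → ℕ}
    (hG : Gen ℓ x y (algebraMap K (AlgebraicClosure K) (η ^ ℓ))
      (fun i => algebraMap K (AlgebraicClosure K) (a i)) w) (hw : ∀ i, ¬ ℓ ∣ w i)
    (hc : ∀ σ z, act σ (algebraMap _ F z) = algebraMap _ F (σ z)) (hx : ∀ σ, act σ x = x)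
    (hy : ∀ σ, act σ y = y) (hN : ℓ ∣ N) (hT : TateHom K act ℓ N) {m : ι} (v : FinitePlace K)
    (hv : v (N : K) = 1) (hd : ∀ i j, i ≠ m → j ≠ m → v (a i - a m) = v (a j - a m)) {p q : ι}
    (hp : p ≠ m) (hq : q ≠ m) (hpq : p ≠ q) : (ℓ : ℤ) ∣ ord v ((a p - a q) / (a p - a m)) := by
  classical
  obtain ⟨ν, Γ, hna, hext, hiso, hin, hfix⟩ := exists_loc K v
  obtain ⟨A, hA, hAσ⟩ := exists_valuationSubring (K := K) hna
  let α : Γ →* (AlgebraicClosure K ≃+* AlgebraicClosure K) :=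
    { toFun := fun g => (g : AlgebraicClosure K ≃ₐ[K] AlgebraicClosure K).toRingEquiv
      map_one' := rfl
      map_mul' := fun g h => rfl }
  have hK : ∀ (g : Γ) (u : K), α g (algebraMap K _ u) = algebraMap K _ u := fun g u =>
    AlgEquiv.commutes g.1 u
  have hnat : ∀ m : ℕ, ν (m : AlgebraicClosure K) = v (m : K) := fun m => by
    rw [← hext, map_natCast (algebraMap K (AlgebraicClosure K))]
  have hℓ := hG.prime.ne_zero
  obtain ⟨γ, ξ, g1, g2, g3⟩ := gen_l3 (α := α) (β := act.comp Γ.subtype) hG hw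
    ⟨fun g z => hc g z, fun g => hx g, fun g => hy g⟩ (fun g => hK g _) (fun g i => hK g _)
    (fun g z hz => root_eq_of_lt hna (by rw [hnat]; exact fp_eq_one_of_dvd hN hv)
      (by rw [← map_pow, hz, map_one]) hz (hin g g.2 z (abs_root_one hℓ hz).le))
    (fun n => ⟨n, fun φ hφ hd g => by
      obtain ⟨τ, hτ, hτg⟩ := hAσ g (hiso g g.2) (hin g g.2)
      obtain ⟨ψ, hψ⟩ := hT A (by rw [hA, map_inv₀, hnat, hv, inv_one]) τ hτ n φ hφ hd
      exact ⟨ψ, (congrArg (fun σ => act σ φ) hτg).symm.trans hψ⟩⟩) hp hq hpq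
  obtain ⟨t, ht⟩ := hfix γ fun σ hσ => g1 ⟨σ, hσ⟩
  have ha : Function.Injective a := fun i j e => hG.inj (congrArg _ e)
  have hη : η ≠ 0 := fun e => hG.ne (by simp [e, hℓ])
  have hs : ∀ z t : K, v (z - t) = v (t - z) := v.1.map_sub
  have h2 := congrArg ν g3
  rw [map_mul, map_pow, abs_root_one hℓ g2, mul_one, ht, map_mul, map_prod,
    prod_eq_one fun i hi => ?_, mul_one] at h2
  · have h3 : v ((η / t) ^ ℓ) = v (((a p - a q) / (a p - a m)) ^ w m) := by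
      have n1 : v (a p - a q) ≠ 0 := (v.pos_iff.2 (sub_ne ha hpq)).ne'
      have n2 : v (a p - a m) ≠ 0 := (v.pos_iff.2 (sub_ne ha hp)).ne'
      have n3 : v η ≠ 0 := (v.pos_iff.2 hη).ne'
      simp only [← map_sub, map_mul, map_pow, map_div₀, hext] at h2
      simp only [map_pow, map_div₀, div_pow, h2]
      field_simp
    have h4 := congrArg Real.log h3
    rw [log_fp, log_fp, neg_inj, mul_left_inj' (log_qv_pos v).ne', ord_pow, ord_pow] at h4
    exact ((Nat.prime_iff_prime_int.1 hG.prime).dvd_or_dvd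
      ⟨ord v (η / t), by exact_mod_cast h4.symm⟩).resolve_left
        fun e => hw m (Int.natCast_dvd_natCast.1 e)
  · rw [map_pow, map_div₀, ← map_sub, ← map_sub, hext, hext, hs (a m), hs (a m),
      hd i q (mem_erase.1 hi).1 hq, div_self (v.pos_iff.2 (sub_ne ha hq)).ne', one_pow]

end Pool.Agent.Lib.MP_07b2d0_nt.Tq
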