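import Pool.Agent.Lib.MP_07b2d0_nt.Tq.Un
import Pool.Agent.Lib.MP_07b2d0_nt.CR

/-!
Moving a point of the projective line to infinity.
-/

set_option autoImplicit false
set_option linter.unusedSectionVars false
set_option linter.unusedVariables false

namespace Pool.Agent.Lib.MP_07b2d0_nt.Tq

open Polynomial WithZero Finset Ks Fh Kh

section

variable {k k' ι : Type} [Field k] [Field k'] [Fintype ι] {t : Option k} {a : ι → k} {c : k}
  {w : ι → ℕ}

/-- The coordinate in which `t` is at infinity. -/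
def mo (t : Option k) (z : k) : k := t.elim z fun τ => (z - τ)⁻¹

/-- The new leading coefficient. -/
def mc (t : Option k) (c : k) (a : ι → k) (w : ι → ℕ) : k :=
  t.elim c fun τ => c * ∏ i, (τ - a i) ^ w i

/-- The new second coordinate. -/
def my (t : Option k) (x y : k) (S : ℕ) : k := t.elim y fun τ => y * (x - τ)⁻¹ ^ S

theorem map_mo (φ : k →+* k') (t : Option k) (z : k) : φ (mo t z) = mo (t.map φ) (φ z) := by
  cases t <;> simp [mo]

theorem map_mc (φ : k →+* k') (t : Option k) (c : k) (a : ι → k) (w : ι → ℕ) :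
    φ (mc t c a w) = mc (t.map φ) (φ c) (fun i => φ (a i)) w := by
  cases t <;> simp [mc]

theorem map_my (φ : k →+* k') (t : Option k) (x y : k) (S : ℕ) :
    φ (my t x y S) = my (t.map φ) (φ x) (φ y) S := by
  cases t <;> simp [my]

theorem mo_sub (h : ∀ i, some (a i) ≠ t) : ∃ (s : k) (u : ι → k), s ≠ 0 ∧ (∀ i, u i ≠ 0) ∧
    ∀ i j, a i - a j = s * u i * u j * (mo t (a i) - mo t (a j)) := by
  cases t with
  | none => exact ⟨1, fun _ => 1, one_ne_zero, fun _ => one_ne_zero, fun i j => by simp [mo]⟩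
  | some τ =>
    have h1 : ∀ i, a i - τ ≠ 0 := fun i => sub_ne_zero.2 fun e => h i (congrArg some e)
    refine ⟨-1, fun i => a i - τ, by simp, h1, fun i j => ?_⟩
    have := h1 i
    have := h1 j
    simp only [mo, Option.elim]
    field_simp
    ring

theorem mo_inj (h : ∀ i, some (a i) ≠ t) (ha : Function.Injective a) :
    Function.Injective fun i => mo t (a i) := fun i j e => by
  obtain ⟨s, u, -, -, H⟩ := mo_sub h
  exact ha (sub_eq_zero.1 (by rw [H, show mo t (a i) = mo t (a j) from e, sub_self, mul_zero]))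

theorem mc_ne (h : ∀ i, some (a i) ≠ t) (hc : c ≠ 0) : mc t c a w ≠ 0 := by
  cases t with
  | none => exact hc
  | some τ => exact mul_ne_zero hc (prod_ne_zero_iff.2 fun i _ => pow_ne_zero _
      (sub_ne_zero.2 fun e => h i (congrArg some e.symm)))

theorem cr_mo (h : ∀ i, some (a i) ≠ t) (i j p q : ι) :
    cr (fun i => mo t (a i)) i j p q = cr a i j p q := by
  obtain ⟨s, u, hs, hu, H⟩ := mo_sub h
  have h0 : s * s * (u i * u j * u p * u q) ≠ 0 := by simp [hs, hu]
  simp only [cr, H]
  rw [← mul_div_mul_left _ _ h0]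
  congr 1 <;> ring

theorem sep_mo (ν : AbsoluteValue k ℝ) (h : ∀ i, some (a i) ≠ t) (I J : Finset ι) :
    Sep ν (fun i => mo t (a i)) I J ↔ Sep ν a I J := by
  obtain ⟨s, u, hs, hu, H⟩ := mo_sub h
  refine forall₂_congr fun i _ => forall₂_congr fun i' _ => forall₂_congr fun j _ =>
    forall₂_congr fun j' _ => ?_
  have h0 : 0 < ν (s * s * (u i * u i' * u j * u j')) := ν.pos (by simp [hs, hu])
  rw [← mul_lt_mul_iff_right₀ h0]
  simp only [H, map_mul]
  congr! 1 <;> ring

end

variable {k E ι : Type} [Field k] [IsAlgClosed k] [CharZero k] [Field E] [Algebra k E]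
  [Fintype ι] {ℓ : ℕ} {x y : E} {t : Option k} {a : ι → k} {c : k} {w : ι → ℕ}

theorem gen_mo (h : Gen ℓ x y c a w) (ht : ∀ i, some (a i) ≠ t) :
    Gen ℓ (mo (t.map (algebraMap k E)) x) (my (t.map (algebraMap k E)) x y ((∑ i, w i) / ℓ))
      (mc t c a w) (fun i => mo t (a i)) w := by
  have h1 := mo_inj ht h.inj
  have h2 := mc_ne (w := w) ht h.ne
  cases t with
  | none => exact h
  | some τ =>
    refine ⟨h.prime, kf3_trans h.trans τ, (kf3_adjoin x τ).symm ▸ h.fin, ?_, h2, h1, h.sum⟩
    have h3 := kf3_ne h.trans τ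
    simp only [mo, my, mc, Option.map, Option.elim]
    rw [mul_pow, h.eq, ← pow_mul, Nat.div_mul_cancel h.sum, ← prod_pow_eq_pow_sum, map_mul,
      map_prod, mul_assoc, mul_assoc, ← prod_mul_distrib, ← prod_mul_distrib]
    refine congrArg _ (prod_congr rfl fun i _ => ?_)
    have h4 : algebraMap k E (a i) - algebraMap k E τ ≠ 0 := by
      rw [← map_sub, _root_.map_ne_zero, sub_ne_zero]
      exact fun e => ht i (congrArg some e)
    rw [map_pow, ← mul_pow, ← mul_pow, map_inv₀, map_sub, map_sub]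
    congr 1
    field_simp
    ring

theorem top_mo (hx : Transcendental k x) (h : IntermediateField.adjoin k {x, y} = ⊤)
    (t : Option k) (S : ℕ) : IntermediateField.adjoin k
      {mo (t.map (algebraMap k E)) x, my (t.map (algebraMap k E)) x y S} = ⊤ := by
  cases t with
  | none => exact h
  | some τ =>
    simp only [mo, my, Option.map, Option.elim]
    have h1 := IntermediateField.subset_adjoin k _
      (Set.mem_insert (x - algebraMap k E τ)⁻¹ {y * (x - algebraMap k E τ)⁻¹ ^ S})
    have h2 := IntermediateField.subset_adjoin k _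
      (Set.mem_insert_of_mem (x - algebraMap k E τ)⁻¹
        (Set.mem_singleton (y * (x - algebraMap k E τ)⁻¹ ^ S)))
    rw [eq_top_iff, ← h, IntermediateField.adjoin_le_iff]
    rintro _ (rfl | rfl)
    · simpa using add_mem (inv_mem h1) (IntermediateField.algebraMap_mem _ τ)
    · have := div_mem h2 (pow_mem h1 S)
      rwa [mul_div_cancel_right₀ _ (pow_ne_zero _ (inv_ne_zero (kf3_ne hx τ)))] at this

theorem vl_mo (v : Plc k E) {z : k} (h : some z ≠ t) :
    Vl v (mo (t.map (algebraMap k E)) x) (mo t z) ↔ Vl v x z := by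
  cases t with
  | none => rfl
  | some τ =>
    have h1 : z - τ ≠ 0 := sub_ne_zero.2 fun e => h (congrArg some e)
    refine ⟨fun h2 => ?_, fun h2 => (h2.sub (vl_const v τ)).inv h1⟩
    simpa [mo] using (Vl.inv h2 (inv_ne_zero h1)).add (vl_const v τ)

theorem Cy.centre {f : k[X]} {ζ : k} {s : E ≃ₐ[k] E} (h : Cy ℓ ζ x y f s) (v : Plc k E)
    (hx : v.1 x ≤ 1) : ∃ τ, Vl v x τ := by
  by_contra H
  obtain ⟨π, hπ⟩ := v.2.1 (exp 1)
  obtain ⟨G, B, hB, -, e⟩ := h.repr π
  have h1 := Triv.aevalAeval_le_one v.2.2 hx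
    (Triv.y_le_one v.2.2 hx h.prime.ne_zero h.eq) G
  rw [← e, map_mul, Triv.aeval_eq_one v.2.2 hx (not_exists.1 H) hB, mul_one, hπ, ← exp_zero,
    exp_le_exp] at h1
  omega

end Pool.Agent.Lib.MP_07b2d0_nt.Tq
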