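import Pool.Agent.Lib.MP_07b2d0_nt.Tq.Rf

/-!
The field generated by the branch points.
-/

set_option autoImplicit false
set_option linter.unusedSectionVars false
set_option linter.unusedVariables false

namespace Pool.Agent.Lib.MP_07b2d0_nt.Tq

open CategoryTheory AlgebraicGeometry Polynomial WithZero NumberField Height Fh Kh

section

variable {B k K R : Type} [CommRing B] [Field k] [Field K] [Algebra k K] [CommRing R] [Algebra k R]
  {b : B →+* k} {A : Over (Spec (.of B))}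

/-- Base change. -/
theorem isJ_bc [GrpObj A] [IsCommMonObj A] {j : Fh.sp ((algebraMap k R).comp b) ⟶ A} {ℓ m : ℕ}
    {f : Fin m → k[X]} {X₀ : R} {Y : Fin m → R} (hP : Pres ℓ f X₀ Y) (hJ : IsJ b X₀ A j) :
    ∃ (R' : Type) (_ : CommRing R') (_ : Algebra K R') (X₁ : R') (Y₁ : Fin m → R')
      (j' : Fh.sp ((algebraMap K R').comp ((algebraMap k K).comp b)) ⟶ A),
      Pres ℓ (fun n => (f n).map (algebraMap k K)) X₁ Y₁ ∧ IsJ ((algebraMap k K).comp b) X₁ A j' := by
  obtain ⟨R', _, _, X₁, Y₁, hP'⟩ : ∃ (R' : Type) (_ : CommRing R') (_ : Algebra K R') (X₁ : R')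
      (Y₁ : Fin m → R'), Pres ℓ (fun n => (f n).map (algebraMap k K)) X₁ Y₁ :=
    ⟨_, _, _, _, _, pres_quot ℓ _⟩
  obtain ⟨μ, m0, m1, m2⟩ := hP.lift R' ((algebraMap K R').comp (algebraMap k K)) X₁ Y₁ fun n => by
    rw [← eval₂_map, ← aeval_def]
    exact hP'.eq n
  refine ⟨R', _, _, X₁, Y₁, spm μ (by rw [← RingHom.comp_assoc, m0]; rfl) ≫ j, hP',
    fun Ω F _ _ _ _ _ ρ h2 h3 h4 => ?_⟩
  let _ : Algebra k Ω := ((algebraMap K Ω).comp (algebraMap k K)).toAlgebra
  obtain ⟨val, h5, h6⟩ := hJ Ω F (ρ.comp μ)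
    (fun c => (congrArg ρ (DFunLike.congr_fun m0 c)).trans (h2 _))
    (by rwa [RingHom.comp_apply, m1]) (top_le_iff.1 (h4.ge.trans
      (IntermediateField.adjoin_le_iff.2 (by
        rintro _ ⟨z, rfl⟩
        refine hP'.mem ρ (IntermediateField.adjoin Ω (Set.range (ρ.comp μ))).toSubring
          (fun c => ?_) ?_ (fun n => ?_) z
        · rw [h2]
          exact IntermediateField.algebraMap_mem _ _
        · exact IntermediateField.subset_adjoin _ _ ⟨X₀, congrArg ρ m1⟩
        · exact IntermediateField.subset_adjoin _ _ ⟨Y n, congrArg ρ (m2 n)⟩))))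
  refine ⟨val, fun v => ?_, h6⟩
  rw [spm_left, ← Category.assoc, ← spec_comp]
  exact h5 v

theorem hLe_bc {g H : ℕ} (h : HLe g ((algebraMap k K).comp b) A H) : HLe g b A H := by
  obtain ⟨K', _, _, i, h⟩ := h
  exact ⟨K', _, inferInstance, i.comp (algebraMap k K), h⟩

end

variable {k R : Type} [Field k] [NumberField k] [CommRing R] [Algebra k R] {N N' ℓ r : ℕ}
  {A : Over (Spec (.of (ON k N)))} [GrpObj A] [IsCommMonObj A] [IsProper A.hom]
  {j : Fh.sp ((algebraMap k R).comp (algebraMap (ON k N) k)) ⟶ A} {X₀ : R} {Y : Fin 1 → R}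
  {f : k[X]} {e : Fin r → ℕ}

/-- As `IsJ.exists_tate` (Kh/TTate); the data `od (fun _ => c) a` live over the algebraic closure,
and only `F e` is fixed by the Galois group. -/
theorem exists_tate' (hJ : IsJ (algebraMap (ON k N) k) X₀ A j) (hP : Pres ℓ (fun _ => f) X₀ Y)
    (K : Type) [Field K] [Algebra k K] {c : AlgebraicClosure K} {a : Fin r → AlgebraicClosure K}
    (hf : f.map (algebraMap k _) = C c * ∏ i, (X - C (a i)) ^ e i) (hℓ : ℓ.Prime) (hr : 0 < r)
    (hc : c ≠ 0) (ha : Function.Injective a) (he : ∀ i, ¬ ℓ ∣ e i) (hs : ℓ ∣ ∑ i, e i)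
    (hN : N ∣ N') (hℓN : ℓ ∣ N') (h0 : N' ≠ 0) :
    ∃ (F : Type) (_ : Field F) (_ : Algebra (AlgebraicClosure K) F)
      (_ : MulSemiringAction (AlgebraicClosure K ≃ₐ[K] AlgebraicClosure K) F) (x y : F),
      Ks.Curve K (AlgebraicClosure K) x ∧
      (∀ σ : AlgebraicClosure K ≃ₐ[K] AlgebraicClosure K, σ • y = y) ∧
      IntermediateField.adjoin (AlgebraicClosure K) {x, y} = ⊤ ∧
      y ^ ℓ = aeval x (C c * ∏ i, (X - C (a i)) ^ e i) ∧
      Ks.TateUnramified K (AlgebraicClosure K) F ℓ N' := by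
  have : CharZero (AlgebraicClosure K) :=
    charZero_of_injective_algebraMap (algebraMap k _).injective
  have : NeZero ℓ := ⟨hℓ.ne_zero⟩
  have hD : (od (fun _ : Fin 1 => c) a).Ok ℓ fun _ => e :=
    ⟨cmb_one hℓ hr he hs, fun _ => hc, fun _ => one_ne_zero, by rwa [od_a]⟩
  have hk : ∀ (σ : AlgebraicClosure K ≃ₐ[K] AlgebraicClosure K) (z : k),
      σ (algebraMap k _ z) = algebraMap k _ z := fun σ z => by
    rw [IsScalarTower.algebraMap_apply k K (AlgebraicClosure K)]
    exact σ.commutes _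
  obtain ⟨F, _, _, x, w, h⟩ := exists_KG Unit hD
    (HasEnoughRootsOfUnity.exists_primitiveRoot _ ℓ)
  choose s h₁ h₂ h₃ using fun σ : AlgebraicClosure K ≃ₐ[K] AlgebraicClosure K =>
    h.lift' (σ : AlgebraicClosure K →+* AlgebraicClosure K) (x' := x) (w' := w)
      ⟨hD.map _, h.zeta, h.ind, fun l n => by
        rw [h.eq, Dat.map_F, od_F, ← hf, Polynomial.map_map,
          show RingHom.comp _ _ = algebraMap k _ from RingHom.ext (hk σ)]⟩
  let act : (AlgebraicClosure K ≃ₐ[K] AlgebraicClosure K) →* (F →+* F) :=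
    { toFun := s
      map_one' := h.ext (h₁ 1) (h₂ 1) (h₃ 1)
      map_mul' := fun σ τ => h.ext (fun c => (h₁ _ c).trans ((h₁ σ _).symm.trans
        (congrArg (s σ) (h₁ τ c).symm))) (fun l => (h₂ _ l).trans ((h₂ σ l).symm.trans
        (congrArg (s σ) (h₂ τ l).symm))) fun l n => (h₃ _ l n).trans ((h₃ σ l n).symm.trans
        (congrArg (s σ) (h₃ τ l n).symm)) }
  let _ := MulSemiringAction.compHom F act
  have h1 : K1 ℓ (fun _ => e) _ (x ()) (w ()) := h
  have hy : w () 0 ^ ℓ = aeval (x ()) (C c * ∏ i, (X - C (a i)) ^ e i) := by rw [h.eq, od_F]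
  obtain ⟨ρ, r0, r1, r2⟩ := hP.lift F ((algebraMap (AlgebraicClosure K) F).comp (algebraMap k _))
    (x ()) (fun _ => (w () 0)⁻¹) fun _ => by
      rw [← eval₂_map, ← aeval_def, hf, ← hy, inv_pow,
        mul_inv_cancel₀ (pow_ne_zero _ (h.w_ne () 0))]
  have ht : ∀ T : IntermediateField (AlgebraicClosure K) F, x () ∈ T → w () 0 ∈ T → T = ⊤ :=
    fun T p q => h.eq_top (fun _ => p) fun _ n => Subsingleton.elim 0 n ▸ q
  refine ⟨F, _, _, _, x (), w () 0, ⟨h₁, fun σ => h₂ σ (), h.ind.transcendental (), h1.fd⟩,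
    fun σ => h₃ σ () 0, ht _ (IntermediateField.subset_adjoin _ _ (by simp))
      (IntermediateField.subset_adjoin _ _ (by simp)), hy, fun σ hi n φ hφ hd => ?_⟩
  have hs : (MulSemiringAction.toRingHom _ F σ).comp ρ = ρ := hP.ext _ _ _
    (by rw [RingHom.comp_assoc, r0]
        exact RingHom.ext fun c => (h₁ σ _).trans (congrArg _ (hk σ c)))
    (by rw [RingHom.comp_apply, r1]; exact h₂ σ ())
    fun n => by rw [RingHom.comp_apply, r2, map_inv₀]; exact congrArg _ (h₃ σ () 0)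
  exact tate_core' hJ ρ (DFunLike.congr_fun r0) (r1 ▸ (h.ind.transcendental ()))
    (ht _ (IntermediateField.subset_adjoin _ _ ⟨X₀, r1⟩)
      (inv_inv (w () 0) ▸ inv_mem (IntermediateField.subset_adjoin _ _ ⟨Y 0, r2 0⟩)))
    (r1 ▸ h1.fd) σ.toRingEquiv (MulSemiringAction.toRingEquiv _ F σ) (h₁ σ)
    (DFunLike.congr_fun hs) (RingHom.ext fun c => hk σ _)
    (pow_ne_zero n hℓ.ne_zero) (nos_inertial hN h0 ⟨n, pow_dvd_pow_of_dvd hℓN n⟩ hi _) hφ hd

/-- `exists_tate'` with `K = k`, `exists_cy`, `Cy.root_fix`; `exists_field_of_fix` (Fh/Kl) for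
`radical f`, or `K = adjoin k (range a)` with `unram_of_inertia`; `IsAlgClosed.lift`. -/
theorem exists_split (hJ : IsJ (algebraMap (ON k N) k) X₀ A j) (hP : Pres ℓ (fun _ => f) X₀ Y)
    {c : AlgebraicClosure k} {a : Fin r → AlgebraicClosure k}
    (hf : f.map (algebraMap k _) = C c * ∏ i, (X - C (a i)) ^ e i) (hℓ : ℓ.Prime) (hr : 5 ≤ r)
    (hc : c ≠ 0) (ha : Function.Injective a) (he : ∀ i, ¬ ℓ ∣ e i) (hs : ℓ ∣ ∑ i, e i)
    (hN : N ∣ N') (hℓN : ℓ ∣ N') (h0 : N' ≠ 0)
    (hk : ∀ p : ℕ, p.Prime → (p : ℤ) ∣ discr k → p ∣ N') :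
    ∃ (K : Type) (_ : Field K) (_ : NumberField K) (_ : Algebra k K) (c' : K) (a' : Fin r → K)
      (ψ : AlgebraicClosure k →ₐ[k] AlgebraicClosure K),
      Module.finrank ℚ K ≤ r ^ r * Module.finrank ℚ k ∧
      (∀ p : ℕ, p.Prime → (p : ℤ) ∣ discr K → p ∣ N') ∧
      f.map (algebraMap k K) = C c' * ∏ i, (X - C (a' i)) ^ e i ∧
      algebraMap K _ c' = ψ c ∧ ∀ i, algebraMap K _ (a' i) = ψ (a i) := by
  classical
  have : CharZero (AlgebraicClosure k) :=
    charZero_of_injective_algebraMap (algebraMap k _).injective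
  have hr0 : 0 < r := by omega
  obtain ⟨F, _, _, _, x, y, hC, -, ht, hy, hT⟩ :=
    exists_tate' hJ hP k hf hℓ hr0 hc ha he hs hN hℓN h0
  obtain ⟨ζ, s, hy⟩ := exists_cy hℓ hr0 hc ha he hs hC.2.2.1 ht hy
  have hm : (∏ i, (X - C (a i)) ^ e i).Monic :=
    monic_prod_of_monic _ _ fun i _ => (monic_X_sub_C _).pow _
  have hroot : ∀ i, (C c * ∏ i, (X - C (a i)) ^ e i).IsRoot (a i) := fun i => by
    rw [IsRoot, eval_mul, eval_prod, Finset.prod_eq_zero (Finset.mem_univ i), mul_zero]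
    rw [eval_pow, eval_sub, eval_X, eval_C, sub_self,
      zero_pow fun h : e i = 0 => he i (h ▸ dvd_zero _)]
  have hf0 : f ≠ 0 := fun h => mul_ne_zero (C_ne_zero.2 hc) hm.ne_zero
    (by rw [← hf, h, Polynomial.map_zero])
  have hsep : (UniqueFactorizationMonoid.radical f).Separable :=
    PerfectField.separable_iff_squarefree.2 UniqueFactorizationMonoid.squarefree_radical
  have hra : ∀ z : AlgebraicClosure k, aeval z (UniqueFactorizationMonoid.radical f) = 0 →
      ∃ i, a i = z := fun z hz => by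
    have h1 := aeval_eq_zero_of_dvd_aeval_eq_zero UniqueFactorizationMonoid.radical_dvd_self hz
    rw [← eval_map_algebraMap, hf, eval_mul, eval_C, mul_eq_zero, or_iff_right hc, eval_prod,
      Finset.prod_eq_zero_iff] at h1
    obtain ⟨i, -, h1⟩ := h1
    rw [eval_pow, eval_sub, eval_X, eval_C] at h1
    exact ⟨i, (sub_eq_zero.1 (pow_eq_zero_iff'.1 h1).1).symm⟩
  have hdeg : (UniqueFactorizationMonoid.radical f).natDegree ≤ r := by
    rw [← card_rootSet_eq_natDegree (K := AlgebraicClosure k) hsep (IsAlgClosed.splits _)]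
    choose φ hφ using fun z : (UniqueFactorizationMonoid.radical f).rootSet (AlgebraicClosure k) =>
      hra z (mem_rootSet.1 z.2).2
    exact (Fintype.card_le_of_injective φ fun z z' h =>
      Subtype.ext (by rw [← hφ, ← hφ, h])).trans (Fintype.card_fin r).le
  obtain ⟨K, _, _, _, hD, hK, hsp⟩ := exists_field_of_fix (M := N') hk hsep fun σ hσ z hz => by
    obtain ⟨i, rfl⟩ := hra z hz
    exact hy.root_fix ha hr hroot σ.toRingEquiv (MulSemiringAction.toRingHom _ F σ) (hC.1 σ)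
      (hC.2.1 σ) (fun φ h1 h2 => by
        have h3 := hT σ hσ 1 φ h1 (by rwa [pow_one])
        rwa [pow_one] at h3) i
  let ψ : AlgebraicClosure k →ₐ[k] AlgebraicClosure K := IsAlgClosed.lift
  obtain ⟨n, hn⟩ := UniqueFactorizationMonoid.exists_dvd_radical_self_pow hf0
  choose a' ha' using fun i => hsp.mem_range_of_isRoot (hsep.map (f := algebraMap k K)).ne_zero
    (i := algebraMap K (AlgebraicClosure K)) (x := ψ (a i)) (by
      have h1 : aeval (a i) f = 0 := by
        rw [← eval_map_algebraMap, hf]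
        exact hroot i
      have h2 := aeval_eq_zero_of_dvd_aeval_eq_zero hn h1
      rw [map_pow] at h2
      rw [Polynomial.map_map, ← IsScalarTower.algebraMap_eq, IsRoot, eval_map_algebraMap,
        aeval_algHom_apply, (pow_eq_zero_iff'.1 h2).1, map_zero])
  have hc' : algebraMap K (AlgebraicClosure K) (algebraMap k K f.leadingCoeff) = ψ c := by
    have h1 := congrArg leadingCoeff hf
    rw [leadingCoeff_map, leadingCoeff_mul, leadingCoeff_C, hm.leadingCoeff, mul_one] at h1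
    rw [← h1, ψ.commutes, ← IsScalarTower.algebraMap_apply]
  refine ⟨K, _, inferInstance, _, _, a', ψ, hD.trans (Nat.mul_le_mul_right _
    ((Nat.factorial_le hdeg).trans (Nat.factorial_le_pow r))), hK,
    Polynomial.map_injective _ (algebraMap K (AlgebraicClosure K)).injective ?_, hc', ha'⟩
  have h1 := congrArg (Polynomial.map (ψ : AlgebraicClosure k →+* AlgebraicClosure K)) hf
  rw [Polynomial.map_map, ψ.comp_algebraMap] at h1
  rw [Polynomial.map_map, ← IsScalarTower.algebraMap_eq, h1]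
  simp only [Polynomial.map_mul, Polynomial.map_prod, Polynomial.map_pow, Polynomial.map_sub, map_X,
    map_C, hc', ha', RingHom.coe_coe]

end Pool.Agent.Lib.MP_07b2d0_nt.Tq
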