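import Pool.Agent.Lib.MP_07b2d0_nt.Tq.Ns
import Pool.Agent.Lib.MP_07b2d0_nt.Tq.Col
import Pool.Agent.Lib.MP_07b2d0_nt.Tq.L3
import Pool.Agent.Lib.MP_07b2d0_nt.Tq.Glob

/-!
The effective bound for the Faltings height.
-/

set_option autoImplicit false

namespace Pool.Agent.Lib.MP_07b2d0_nt.Tq

open CategoryTheory AlgebraicGeometry Polynomial NumberField Height Fh Kh

open Ks in
theorem tor_bound : ∃ c : ℕ × ℕ → ℕ, Primrec c ∧
    ∀ (ℓ N D r : ℕ) (K F Ω : Type) [Field K] [NumberField K] [Field F]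
      [Algebra (AlgebraicClosure K) F]
      [MulSemiringAction (AlgebraicClosure K ≃ₐ[K] AlgebraicClosure K) F] (x y : F) (c₀ : K)
      (a : Fin r → K) (e : Fin r → ℕ) (t : Option (AlgebraicClosure K)) (κ : Fin r → Ω),
      ℓ ∣ N → 0 < N → (∀ p : ℕ, p.Prime → (p : ℤ) ∣ discr K → p ∣ N) → Module.finrank ℚ K ≤ D →
      Gen ℓ x y (algebraMap K (AlgebraicClosure K) c₀)
        (fun i => algebraMap K (AlgebraicClosure K) (a i)) e → (∀ i, ¬ ℓ ∣ e i) →
      Curve K (AlgebraicClosure K) x →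
      (∀ σ : AlgebraicClosure K ≃ₐ[K] AlgebraicClosure K, σ • y = y) →
      TateUnramified K (AlgebraicClosure K) F ℓ N →
      (∀ i, some (algebraMap K _ (a i)) ≠ t) → (∃ i j, κ i ≠ κ j) →
      (∀ ν : AbsoluteValue (AlgebraicClosure K) ℝ, IsNonarchimedean ν → ν ℓ = 1 →
        (∃ n : ℕ, 1 < ν (n : AlgebraicClosure K)⁻¹) → Loc1 ν ℓ (fun i => algebraMap K _ (a i)) e → ∀ i j, κ i ≠ κ j → ∀ p q,
          ν (mo t (algebraMap K _ (a p)) - mo t (algebraMap K _ (a q))) ≤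
            ν (mo t (algebraMap K _ (a i)) - mo t (algebraMap K _ (a j)))) →
      (∀ l, (∀ i j, i ≠ l → j ≠ l → κ i = κ j) → ∃ (t₀ : Option K) (η : K),
        t = t₀.map (algebraMap K _) ∧ algebraMap K _ (η ^ ℓ) =
          mc t (algebraMap K _ c₀) (fun i => algebraMap K _ (a i)) e) →
      ∀ p q s u, [p, q, s, u].Nodup → logHeight₁ (cr a p q s u) ≤ c (N, D) := by
  obtain ⟨c, hc, H⟩ := global_mono
  obtain ⟨c', hc', H'⟩ := global_odd
  refine ⟨fun z => c (par z.1 z.2) + c' (par z.1 z.2),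
    pr_add (hc.comp pr_par) (hc'.comp pr_par), ?_⟩
  intro ℓ N D r K F Ω _ _ _ _ _ x y c₀ a e t κ hN h0 hd hD hG he hC hy hT h1 h2 h3 h4 p q s u hq
  have hs := small_of_le h0.ne' hd hD
  have ha : Function.Injective a := Function.Injective.of_comp hG.inj
  have hL := (local_K' hG hC hy hN hT).mono (dvd_mul_left N 2)
  have loc : ∀ v : FinitePlace K, v ((2 * N : ℕ) : K) = 1 →
      ∃ ν : AbsoluteValue (AlgebraicClosure K) ℝ, (∀ z : K, ν (algebraMap K _ z) = v z) ∧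
        ∀ i j, κ i ≠ κ j → ∀ p q,
          ν (mo t (algebraMap K _ (a p)) - mo t (algebraMap K _ (a q))) ≤
            ν (mo t (algebraMap K _ (a i)) - mo t (algebraMap K _ (a j))) := fun v hv => by
    obtain ⟨ν, -, hna, hext, -⟩ := exists_loc K v
    have hnat : ∀ m : ℕ, ν (m : AlgebraicClosure K) = v (m : K) := fun m => by
      rw [← hext, map_natCast (algebraMap K (AlgebraicClosure K))]
    have hq0 : (qv v : K) ≠ 0 := by
      have := two_le_qv v
      exact_mod_cast (by omega : qv v ≠ 0)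
    refine ⟨ν, hext, h3 ν hna ((hnat ℓ).trans (fp_eq_one_of_dvd (hN.mul_left 2) hv))
      ⟨qv v, ?_⟩ fun I J b1 b2 b3 b4 b5 b6 =>
        (hL v hv).1 I J b1 b2 b3 b4 b5 fun i hi i' hi' j hj j' hj' => ?_⟩
    · rw [map_inv₀, hnat]
      exact (one_lt_inv₀ (v.pos_iff.mpr hq0)).mpr (fp_qv_lt_one v)
    · simpa only [← map_sub, hext] using b6 i hi i' hi' j hj j' hj'
  push_cast
  by_cases hm : ∃ m, ∀ i j, i ≠ m → j ≠ m → κ i = κ j
  · obtain ⟨m, hm⟩ := hm
    have hκ : ∀ i, i ≠ m → κ i ≠ κ m := fun i hi e => by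
      obtain ⟨j, l, h⟩ := h2
      have : ∀ n, κ n = κ m := fun n => (eq_or_ne n m).elim (congrArg κ) fun hn =>
        (hm n i hn hi).trans e
      exact h ((this j).trans (this l).symm)
    obtain ⟨t₀, η, rfl, hη⟩ := h4 m hm
    have h5 : ∀ i, some (a i) ≠ t₀ := fun i e => h1 i (e ▸ rfl)
    have hG' := gen_mo hG h1
    simp only [← map_mo, ← map_sub] at loc
    simp only [← hη, ← map_mo] at hG'
    have h6 : ∀ v : FinitePlace K, v ((2 * N : ℕ) : K) = 1 → ∀ i, i ≠ m → ∀ p q,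
        v (mo t₀ (a p) - mo t₀ (a q)) ≤ v (mo t₀ (a i) - mo t₀ (a m)) := fun v hv i hi p q => by
      obtain ⟨ν, b1, b2⟩ := loc v hv
      simpa only [b1] using b2 i m (hκ i hi) p q
    have h7 : ∀ σ : AlgebraicClosure K ≃ₐ[K] AlgebraicClosure K,
        ((t₀.map (algebraMap K (AlgebraicClosure K))).map (algebraMap _ F)).map
          (MulSemiringAction.toRingHom _ F σ) = (t₀.map (algebraMap K _)).map (algebraMap _ F) :=
      fun σ => by
        cases t₀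
        exacts [rfl, congrArg some ((hC.1 σ _).trans (congrArg _ (σ.commutes _)))]
    have := H' K _ _ _ ℓ _ m hs hG.prime (hN.mul_left 2) (mo_inj h5 ha) h6
      (fun v hv p q hp hq hpq => local_T (MulSemiringAction.toRingAut _ F) hG' he hC.1
        (fun σ => (map_mo (MulSemiringAction.toRingHom _ F σ) _ _).trans
          (congrArg₂ mo (h7 σ) (hC.2.1 σ)))
        (fun σ => (map_my (MulSemiringAction.toRingHom _ F σ) _ _ _ _).trans (by
          rw [h7]; exact congrArg₂ (my _ · · _) (hC.2.1 σ) (hy σ)))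
        hN (fun A hA σ hσ => hT σ ⟨A, hA, σ, hσ, rfl⟩) v (fp_eq_one_of_dvd (dvd_mul_left N 2) hv)
        (fun i j hi hj => (h6 v hv j hj i m).antisymm (h6 v hv i hi j m)) hp hq hpq) p q s u hq
    rw [cr_mo h5] at this
    exact this.trans (le_add_of_nonneg_left (Nat.cast_nonneg _))
  · push Not at hm
    refine (H K _ Ω _ _ ℓ a κ hs hG.prime (hN.mul_left 2) ha (fun v hv I hI => ?_)
      (fun v hv i j p q h => (hL v hv).2 i j p q h (he _) (he _) (he _) (he _)) hm p q s u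
      hq).trans (le_add_of_nonneg_right (Nat.cast_nonneg _))
    by_contra! h
    obtain ⟨⟨i, hi, i', hi', b1⟩, j, hj, j', hj', b2⟩ := h
    obtain ⟨ν, b3, b4⟩ := loc v hv
    exact ((sep_mo ν h1 I Iᶜ).2 (fun i hi i' hi' j hj j' hj' => by
      simpa only [← map_sub, b3] using hI i hi i' hi' j hj j' hj') i hi i' hi' j
      (Finset.mem_compl.2 hj) j' (Finset.mem_compl.2 hj')).not_ge
      (mul_le_mul (b4 i i' b1 i j) (b4 j j' b2 i' j') (ν.nonneg _) (ν.nonneg _))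

theorem tor_main : ∃ c : ℕ × ℕ × ℕ → ℕ, Computable c ∧
    ∀ (ℓ N g r : ℕ) (k : Type) [Field k] [NumberField k] (A : Over (Spec (.of (ON k N))))
      (f : k[X]) (c₀ : AlgebraicClosure k) (a : Fin r → AlgebraicClosure k) (e : Fin r → ℕ),
      ℓ.Prime → 0 < N → (∀ p : ℕ, p.Prime → (p : ℤ) ∣ discr k → p ∣ N) →
      f.map (algebraMap k (AlgebraicClosure k)) = C c₀ * ∏ i, (X - C (a i)) ^ e i → c₀ ≠ 0 →
      Function.Injective a → (∀ i, ¬ ℓ ∣ e i) → ℓ ∣ ∑ i, e i → 5 ≤ r →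
      2 * g + 2 * ℓ = 2 + r * (ℓ - 1) → St.Tor ℓ f →
      St.KumJac g ℓ (algebraMap (ON k N) k) (fun _ : Fin 1 => f) A →
      HLe g (algebraMap (ON k N) k) A (c (N, g, Module.finrank ℚ k)) := by
  obtain ⟨c, hc, H⟩ := tor_bound
  have p1 : Primrec fun z : ℕ × ℕ × ℕ => z.2.1 := Primrec.fst.comp .snd
  refine ⟨fun z => fin5 c (z.1, z.2.1, (6 * z.2.1) ^ (6 * z.2.1) * z.2.2),
    ((pr_fin5 hc).comp (.pair .fst (.pair p1 (pr_mul (pr_pow (pr_mul (.const _) p1)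
      (pr_mul (.const _) p1)) (Primrec.snd.comp .snd))))).to_comp, ?_⟩
  intro ℓ N g r k _ _ A f c₀ a e hℓ hN hk hf hc₀ ha he hs hr hG hT hA
  obtain ⟨R, _, _, X₀, Y, _, _, _, j, hP, hJ⟩ := of_kumJac hA
  obtain ⟨n1, n2, n4⟩ : ℓ ≤ 2 * g ∧ ℓ ≤ 4 * g ^ 2 ∧ r ≤ 6 * g := by
    obtain ⟨s, rfl⟩ := Nat.exists_eq_add_of_le' hℓ.two_le
    obtain ⟨u, rfl⟩ := Nat.exists_eq_add_of_le' hr
    have h1 : 2 * g = (u + 3) * (s + 1) := by
      rw [show s + 2 - 1 = s + 1 from rfl] at hG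
      linarith
    have h2 : s + 2 ≤ 2 * g := by nlinarith
    exact ⟨h2, by nlinarith, by nlinarith⟩
  have hℓN : ℓ ∣ N * (2 * g).factorial := (Nat.dvd_factorial hℓ.pos n1).mul_left _
  have h0 : 0 < N * (2 * g).factorial := Nat.mul_pos hN (Nat.factorial_pos _)
  obtain ⟨K, _, _, _, c', a', ψ, k1, k2, k3, k4, k5⟩ := exists_split hJ hP hf hℓ hr hc₀ ha he hs
    (dvd_mul_right _ _) hℓN h0.ne' fun p hp h => (hk p hp h).mul_right _
  have k6 : Module.finrank ℚ K ≤ (6 * g) ^ (6 * g) * Module.finrank ℚ k :=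
    k1.trans (by gcongr; omega)
  have b1 : algebraMap K (AlgebraicClosure K) c' ≠ 0 := k4 ▸ (map_ne_zero ψ).2 hc₀
  have b2 : Function.Injective fun i => algebraMap K (AlgebraicClosure K) (a' i) :=
    funext k5 ▸ ψ.injective.comp ha
  obtain ⟨F, _, _, _, x, y, f1, f2, -, f4, f5⟩ := exists_tate' hJ hP K (by
    rw [IsScalarTower.algebraMap_eq k K, ← Polynomial.map_map, k3]
    simp [Polynomial.map_prod]) hℓ (by omega) b1 b2 he hs (dvd_mul_right _ _) hℓN h0.ne'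
  obtain ⟨t, κ, t1, t2, t3, t4⟩ := tor_col hℓ (by omega) hf hc₀ ha he hs hT
  have hD : (od (fun _ : Fin 1 => c') a').Ok ℓ fun _ => e := ⟨cmb_one hℓ (by omega) he hs,
    fun _ => (_root_.map_ne_zero _).1 b1, fun _ => one_ne_zero, (od_a _ a').symm ▸ .of_comp b2⟩
  obtain ⟨R', _, _, X₁, Y₁, j', hP', hJ'⟩ := isJ_bc (K := K) hP hJ
  rw [k3, ← funext (od_F (fun _ : Fin 1 => c') a' fun _ => e)] at hP'
  refine (hLe_bc (hJ'.hLe hP' hD (by omega) (Fintype.equivFinOfCardEq (hD.cmb.card one_pos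
    (by simpa using hG))).symm (H ℓ _ _ r K F _ x y c' a' e (t.map ψ) κ hℓN h0 k2 k6
      ⟨hℓ, f1.2.2.1, f1.2.2.2, by simp [f4, map_prod], b1, b2, hs⟩ he f1 f2 f5
      (fun i h => ?_) t2 (fun ν h1 h1' ⟨n, hn⟩ h2 i j h3 p q => ?_) fun l hl => ?_))).mono ?_
  · rw [k5] at h
    exact t1 i (Option.map_injective ψ.injective h)
  · have := t3 (ν.comp (f := (ψ : _ →+* _)) ψ.injective) ⟨fun z z' => ?_, ?_, (n : AlgebraicClosure k)⁻¹, ?_⟩
      (fun I J b1 b2 b3 b4 b5 b6 => h2 I J b1 b2 b3 b4 b5 fun i hi i' hi' j hj j' hj' => ?_)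
      i j h3 p q
    · simp only [k5, ← ψ.coe_toRingHom, ← map_mo, ← map_sub]
      exact this
    · exact (congrArg ν (map_add ψ z z')).trans_le (h1 _ _)
    · exact (congrArg ν (map_natCast ψ ℓ)).trans h1'
    · exact hn.trans_eq (congrArg ν (by simp))
    · simp only [k5, ← map_sub]
      exact b6 i hi i' hi' j hj j' hj'
  · obtain ⟨t₀, η, rfl, h⟩ := t4 l hl
    refine ⟨t₀.map (algebraMap k K), algebraMap k K η, ?_, ?_⟩
    · cases t₀
      exacts [rfl, congrArg some ((ψ.commutes _).trans (IsScalarTower.algebraMap_apply k K _ _))]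
    · simp only [k4, k5, ← ψ.coe_toRingHom, ← map_mc, ← h, ← map_pow]
      exact ((ψ.commutes _).trans (IsScalarTower.algebraMap_apply k K _ _)).symm
  rw [bd, one_mul]
  unfold fin5 h1
  dsimp only
  gcongr

end Pool.Agent.Lib.MP_07b2d0_nt.Tq
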