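import Pool.Agent.Lib.MP_07b2d0_nt.Tq.Cy
import Pool.Agent.Lib.MP_07b2d0_nt.KA3

/-!
Units of the affine curve and their values at the branch points.
-/

set_option autoImplicit false
set_option linter.unusedSectionVars false
set_option linter.unusedVariables false

namespace Pool.Agent.Lib.MP_07b2d0_nt.Tq

open Polynomial WithZero Finset Ks Fh Kh
open scoped Polynomial.Bivariate IntermediateField

variable {k E : Type} [Field k] [IsAlgClosed k] [CharZero k] [Field E] [Algebra k E]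
  {ℓ : ℕ} {x y : E} {f : k[X]} {ζ : k} {s : E ≃ₐ[k] E}

/-- `z` has the value `c` at all places above `τ`. -/
def Val (x : E) (τ : k) (z : E) (c : k) : Prop :=
  ∀ v : Valuation E ℤᵐ⁰, Triv k v → v (x - algebraMap k E τ) < 1 → v (z - algebraMap k E c) < 1

section Val

variable {τ c c' : k} {z z' : E}

theorem Val.const (x : E) (τ c : k) : Val x τ (algebraMap k E c) c := fun v _ _ => by simp

theorem Val.mul (h : Val x τ z c) (h' : Val x τ z' c') : Val x τ (z * z') (c * c') :=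
  fun v hv hc => kc3_mul hv (h v hv hc) (h' v hv hc)

theorem Val.add (h : Val x τ z c) (h' : Val x τ z' c') : Val x τ (z + z') (c + c') :=
  fun v hv hc => by
    rw [map_add, add_sub_add_comm]
    exact v.map_add_lt (h v hv hc) (h' v hv hc)

theorem Val.pow (h : Val x τ z c) (n : ℕ) : Val x τ (z ^ n) (c ^ n) := by
  induction n with
  | zero => simpa using Val.const x τ 1
  | succ n ih =>
    rw [pow_succ, pow_succ]
    exact ih.mul h

theorem Val.aeval (x : E) (τ : k) (A : k[X]) : Val x τ (aeval x A) (A.eval τ) :=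
  fun v hv hc => hv.aeval_sub_lt hc A

theorem Val.aut (h : Val x τ z c) (t : E ≃ₐ[k] E) (ht : t x = x) : Val x τ (t z) c :=
  fun v hv hc => by
    have := h (v.comap (t : E →+* E)) (kb10_triv hv t) (by
      change v (t (x - algebraMap k E τ)) < 1
      rwa [map_sub, ht, t.commutes])
    change v (t (z - algebraMap k E c)) < 1 at this
    rwa [map_sub, t.commutes] at this

theorem Val.nm (h : Val x τ z c) (hs : Aut ℓ ζ x y s) (n : ℕ) : Val x τ (nm s n z) (c ^ n) := by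
  induction n with
  | zero => simpa [Ks.nm] using Val.const x τ 1
  | succ n ih =>
    rw [Ks.nm, prod_range_succ, pow_succ]
    exact ih.mul (h.aut _ (hs.pow_x n))

theorem Val.sum {g : ℕ → E} (n : ℕ) (h : ∀ i, Val x τ (g i) c) :
    Val x τ (∑ i ∈ range n, g i) (n * c) := by
  induction n with
  | zero => simpa using Val.const x τ 0
  | succ n ih =>
    rw [sum_range_succ, Nat.cast_succ, add_mul, one_mul]
    exact ih.add (h n)

theorem Val.eq_one (h : Val x τ z c) (hc : c ≠ 0) {v : Valuation E ℤᵐ⁰} (hv : Triv k v)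
    (hx : v (x - algebraMap k E τ) < 1) : v z = 1 := by
  have := h v hv hx
  rw [← hv.eq_one hc] at this ⊢
  exact v.map_eq_of_sub_lt this

theorem Cy.above (h : Cy ℓ ζ x y f s) (τ : k) :
    ∃ v : Plc k E, v.1 (x - algebraMap k E τ) < 1 :=
  exists_plc_lt h.trans h.fd fun h0 => h.trans (by
    simpa using h0.add (isAlgebraic_algebraMap (A := E) τ))

theorem Cy.unique (h : Cy ℓ ζ x y f s) (h1 : Val x τ z c) (h2 : Val x τ z c') : c = c' := by
  obtain ⟨v, hv⟩ := h.above τ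
  exact Triv.cen_unique v.2.2 (h1 _ v.2.2 hv) (h2 _ v.2.2 hv)

theorem Cy.exists_val (h : Cy ℓ ζ x y f s) (hτ : f.IsRoot τ) (v : Plc k E)
    (hv : v.1 (x - algebraMap k E τ) < 1) (hz : v.1 z = 1) : ∃ c, c ≠ 0 ∧ Val x τ z c := by
  obtain ⟨n, h1, h2⟩ := h.ram_val hτ (g := z) fun h0 => by simp [h0] at hz
  have h3 := h1 _ v.2.2 hv
  rw [hz, log_one, mul_zero, eq_comm, mul_eq_zero] at h3
  exact h2 (h3.resolve_right (h.log_neg hv).ne)

end Val

theorem Cy.poly (h : Cy ℓ ζ x y f s) {z : E} {A B : k[X]} (hB : B ≠ 0)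
    (e : z * aeval x B = aeval x A) (hv : ∀ v : Plc k E, v.1 x ≤ 1 → v.1 z ≤ 1) :
    ∃ N : k[X], aeval x N = z :=
  poly_of_val (n := 0) h.trans h.fd separable_one (by
    rw [eq_div_of_mul_eq (h.aeval_ne hB) e]
    exact div_mem (gaut_aeval x A) (gaut_aeval x B)) fun v hx => by simpa using hv v hx

/-- Functions without zeros and poles on the affine curve. -/
def Un (k : Type) {E : Type} [Field k] [Field E] [Algebra k E] (x φ : E) : Prop :=
  ∀ v : Plc k E, v.1 x ≤ 1 → v.1 φ = 1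

theorem Un.aut {φ : E} (h : Un k x φ) (t : E ≃ₐ[k] E) (ht : t x = x) : Un k x (t φ) :=
  fun v hv => by
    obtain ⟨v', h'⟩ := plc_comap v t
    rw [← h']
    exact h v' (by rwa [h', ht])

theorem Un.nm {φ : E} (h : Un k x φ) (hs : Aut ℓ ζ x y s) (n : ℕ) : Un k x (nm s n φ) :=
  fun v hv => by
    rw [Ks.nm, map_prod]
    exact prod_eq_one fun i _ => h.aut _ (hs.pow_x i) v hv

theorem Un.smul {φ : E} (h : Un k x φ) {c : k} (hc : c ≠ 0) : Un k x (algebraMap k E c * φ) :=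
  fun v hv => by rw [map_mul, plc_eq_one v hc, h v hv, mul_one]

theorem Cy.un_ne (h : Cy ℓ ζ x y f s) {φ : E} (hφ : Un k x φ) : φ ≠ 0 := fun h0 => by
  obtain ⟨v, hv⟩ := h.above 0
  simpa [h0] using hφ v (Triv.le_one_of_cen v.2.2 hv)

theorem nm_smul (hs : Aut ℓ ζ x y s) (c : k) (φ : E) :
    nm s ℓ (algebraMap k E c * φ) = algebraMap k E (c ^ ℓ) * nm s ℓ φ := by
  have := hs.nm_aeval (C c)
  rw [aeval_C] at this
  rw [nm_mul, this, map_pow]

theorem Cy.norm_one (h : Cy ℓ ζ x y f s) {φ : E} (hφ : Un k x φ) :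
    ∃ c : k, c ≠ 0 ∧ nm s ℓ (algebraMap k E c * φ) = 1 := by
  obtain ⟨A, B, hB, e⟩ := h.fixed (h.s_nm φ)
  obtain ⟨N, hN⟩ := h.poly hB e fun v hv => (hφ.nm h.aut ℓ v hv).le
  have h1 : ∀ τ, N.eval τ ≠ 0 := fun τ h0 => by
    obtain ⟨v, hv⟩ := h.above τ
    have := Val.aeval x τ N _ v.2.2 hv
    rw [h0, map_zero, sub_zero, hN, hφ.nm h.aut ℓ v (Triv.le_one_of_cen v.2.2 hv)] at this
    exact lt_irrefl _ this
  have h2 : N = C (N.coeff 0) := eq_C_of_degree_eq_zero (by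
    by_contra h0
    obtain ⟨τ, hτ⟩ := IsAlgClosed.exists_root N h0
    exact h1 τ hτ)
  have h3 : N.coeff 0 ≠ 0 := by simpa [coeff_zero_eq_eval_zero] using h1 0
  obtain ⟨c, hc⟩ := IsAlgClosed.exists_pow_nat_eq (N.coeff 0)⁻¹ h.prime.pos
  refine ⟨c, fun h0 => ?_, ?_⟩
  · rw [h0, zero_pow h.prime.ne_zero] at hc
    exact inv_ne_zero h3 hc.symm
  · rw [nm_smul h.aut, hc, ← hN]
    conv_lhs => rw [h2]
    rw [aeval_C, coeff_C_zero, ← map_mul, inv_mul_cancel₀ h3, map_one]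

/-- `G₀` is the normalised trace of a unit of norm one. -/
def Col (ℓ : ℕ) (ζ : k) (f G₀ : k[X]) : Prop :=
  (∃ (G : k[X][Y]) (B : k[X]), B ≠ 0 ∧ G.natDegree < ℓ ∧ IsNrm ℓ ζ f G (B ^ ℓ) ∧
    G.coeff 0 = G₀ * B) ∧ ∀ τ, f.IsRoot τ → G₀.eval τ ^ ℓ = 1

theorem Cy.col (h : Cy ℓ ζ x y f s) {φ : E} (hφ : Un k x φ) (hN : nm s ℓ φ = 1) :
    ∃ G₀, Col ℓ ζ f G₀ ∧ ∀ τ, f.IsRoot τ → Val x τ φ (G₀.eval τ) := by
  have : CharZero E := charZero_of_injective_algebraMap (algebraMap k E).injective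
  have hℓ : (ℓ : k) ≠ 0 := Nat.cast_ne_zero.2 h.prime.ne_zero
  obtain ⟨G, B, hB, hG, e⟩ := h.repr φ
  have h1 := proj_zero h.aut hG
  simp only [← e, map_mul, h.aut.pow_aeval, ← sum_mul] at h1
  obtain ⟨G₀, h0⟩ := h.poly (z := algebraMap k E (ℓ : k)⁻¹ * ∑ j ∈ range ℓ, (s ^ j) φ) hB
    (A := G.coeff 0) (by
      rw [mul_assoc, h1, ← mul_assoc, ← map_natCast (algebraMap k E), ← map_mul,
        inv_mul_cancel₀ hℓ, map_one, one_mul]) fun v hv => by
      rw [map_mul]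
      exact mul_le_one' (v.2.2 _) (v.1.map_sum_le fun j _ => (hφ.aut _ (h.aut.pow_x j) v hv).le)
  have key : ∀ τ, f.IsRoot τ → Val x τ φ (G₀.eval τ) := fun τ hτ => by
    obtain ⟨v, hv⟩ := h.above τ
    obtain ⟨c, -, hc⟩ := h.exists_val hτ v hv (hφ v (Triv.le_one_of_cen v.2.2 hv))
    have h2 := (Val.const x τ (ℓ : k)⁻¹).mul (Val.sum ℓ fun j => hc.aut _ (h.aut.pow_x j))
    rw [← h0, inv_mul_cancel_left₀ hℓ] at h2
    rwa [h.unique (Val.aeval x τ G₀) h2]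
  refine ⟨G₀, ⟨⟨G, B, hB, hG, ?_, ?_⟩, fun τ hτ => ?_⟩, key⟩
  · obtain ⟨M, hM⟩ := exists_nrm h.aut.prim h.prime.ne_zero f G
    have h2 := hM.aeval_eq h.aut h.eq
    rw [← e, nm_mul, hN, one_mul, h.aut.nm_aeval, ← map_pow] at h2
    rwa [transcendental_iff_injective.1 h.trans h2] at hM
  · apply transcendental_iff_injective.1 h.trans
    rw [map_mul, h0, mul_assoc, h1, ← mul_assoc, ← map_natCast (algebraMap k E), ← map_mul,
      inv_mul_cancel₀ hℓ, map_one, one_mul]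
  · have h2 := (key τ hτ).nm h.aut ℓ
    rw [hN] at h2
    exact h.unique h2 (by simpa using Val.const x τ 1)

theorem cases_v (hf : f ≠ 0) {v : Valuation E ℤᵐ⁰} (hv : Triv k v) (hx : v x ≤ 1) :
    v (aeval x f) = 1 ∨ ∃ τ, f.IsRoot τ ∧ v (x - algebraMap k E τ) < 1 := by
  by_cases h : ∃ τ, v (x - algebraMap k E τ) < 1
  · obtain ⟨τ, hτ⟩ := h
    by_cases h1 : f.IsRoot τ
    · exact .inr ⟨τ, h1, hτ⟩
    · exact .inl ((Val.aeval x τ f).eq_one h1 hv hτ)
  · exact .inl (hv.aeval_eq_one hx (not_exists.1 h) hf)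

/-- Removing the common roots with `f`. -/
theorem strip (x : E) (f : k[X]) (n : ℕ) : ∀ P : k[X], P ≠ 0 → P.natDegree = n →
    ∃ P' : k[X], (∀ τ, f.IsRoot τ → P'.eval τ ≠ 0) ∧ P' ≠ 0 ∧ ∀ v : Valuation E ℤᵐ⁰, Triv k v →
      v x ≤ 1 → v (aeval x f) = 1 → v (aeval x P') = v (aeval x P) := by
  induction n using Nat.strong_induction_on with
  | _ n ih =>
  intro P hP hn
  by_cases h : ∃ τ, f.IsRoot τ ∧ P.IsRoot τ
  · obtain ⟨τ, h1, h2⟩ := h
    obtain ⟨Q, rfl⟩ := dvd_iff_isRoot.2 h2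
    obtain ⟨g, rfl⟩ := dvd_iff_isRoot.2 h1
    have hQ := right_ne_zero_of_mul hP
    rw [natDegree_mul (X_sub_C_ne_zero τ) hQ, natDegree_X_sub_C] at hn
    obtain ⟨P', h3, h4, h5⟩ := ih _ (by omega) Q hQ rfl
    refine ⟨P', h3, h4, fun v hv hx h6 => ?_⟩
    rw [h5 v hv hx h6]
    rw [map_mul, map_mul] at h6 ⊢
    rw [le_antisymm (hv.aeval_le_one hx _)
      (h6.ge.trans (mul_le_of_le_one_right' (hv.aeval_le_one hx _))), one_mul]
  · exact ⟨P, fun τ h1 h2 => h ⟨τ, h1, h2⟩, hP, fun _ _ _ _ => rfl⟩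

/-- Hilbert's theorem 90 with control of the divisor. -/
theorem Cy.h90 (h : Cy ℓ ζ x y f s) {φ : E} (hφ : Un k x φ) (hN : nm s ℓ φ = 1) {τ₀ : k}
    (h0 : Val x τ₀ φ 1) : ∃ ψ : E, ψ ≠ 0 ∧ φ * s ψ = ψ ∧ ∀ v : Plc k E, v.1 x ≤ 1 →
      (∀ τ, f.IsRoot τ → v.1 (x - algebraMap k E τ) < 1 → Val x τ φ 1) → v.1 ψ = 1 := by
  have hℓ : (ℓ : k) ≠ 0 := Nat.cast_ne_zero.2 h.prime.ne_zero
  obtain ⟨θ, hθ⟩ : ∃ θ, θ = ∑ j ∈ range ℓ, nm s j φ := ⟨_, rfl⟩
  have h1 : φ * s θ = θ := by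
    have e1 : ∀ j, φ * s (nm s j φ) = nm s (j + 1) φ := fun j => by
      rw [nm, nm, prod_range_succ', map_prod, mul_comm]
      simp only [pow_succ', AlgEquiv.mul_apply, pow_zero, AlgEquiv.one_apply]
    have e2 := sum_range_succ (fun j => nm s j φ) ℓ
    rw [sum_range_succ', hN] at e2
    rw [hθ, map_sum, mul_sum]
    simp only [e1]
    simpa only [nm, range_zero, prod_empty, add_left_inj] using e2
  have h2 : ∀ τ, Val x τ φ 1 → ∀ v : Plc k E, v.1 (x - algebraMap k E τ) < 1 → v.1 θ = 1 :=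
    fun τ hτ v hv => (hθ ▸ Val.sum (c := 1) ℓ fun j => by simpa using hτ.nm h.aut j).eq_one
      (by simpa using hℓ) v.2.2 hv
  have h3 : θ ≠ 0 := fun e => by
    obtain ⟨v, hv⟩ := h.above τ₀
    simpa [e] using h2 τ₀ h0 v hv
  have h4 : ∀ (v : Plc k E) (j : ℕ), v.1 x ≤ 1 → v.1 ((s ^ j) θ) = v.1 θ := fun v j hv => by
    induction j with
    | zero => rfl
    | succ j ih =>
      rw [← ih]
      conv_rhs => rw [← h1]
      rw [map_mul, map_mul, hφ.aut _ (h.aut.pow_x j) v hv, one_mul, pow_succ, AlgEquiv.mul_apply]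
  obtain ⟨G, B, hB, hG, e⟩ := h.repr θ
  let I : Ideal k[X] :=
    { carrier := {P | ∀ v : Plc k E, v.1 x ≤ 1 → v.1 (aeval x f) = 1 →
        v.1 (aeval x P) ≤ v.1 (θ * aeval x B)}
      add_mem' := fun {a b} ha hb v c1 c2 => by
        rw [map_add]
        exact v.1.map_add_le (ha v c1 c2) (hb v c1 c2)
      zero_mem' := fun v _ _ => by simp
      smul_mem' := fun c a ha v c1 c2 => by
        rw [smul_eq_mul, map_mul, map_mul]
        exact (mul_le_of_le_one_left' (plc_aeval_le v c1 c)).trans (ha v c1 c2) }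
  have hy : ∀ v : Plc k E, v.1 (aeval x f) = 1 → v.1 y = 1 := fun v hv => by
    rwa [← h.eq, map_pow, pow_eq_one_iff_left h.prime.ne_zero] at hv
  obtain ⟨D, hD⟩ := (IsPrincipalIdealRing.principal I).principal
  have h5 : C D ∣ G := (C_dvd_iff_dvd_coeff D G).2 fun u => by
    rw [← Ideal.mem_span_singleton, ← Ideal.submodule_span_eq, ← hD]
    intro v c1 c2
    have := proj_le h.aut hG v.2.2 (c := v.1 (θ * aeval x B)) (fun j => by
      rw [← e, map_mul, map_mul, h4 v j c1, h.aut.pow_aeval, map_mul]) u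
    rwa [map_mul, map_pow, hy v c2, one_pow, mul_one] at this
  obtain ⟨G', rfl⟩ := h5
  rw [map_mul, aevalAeval_C] at e
  have hD0 : D ≠ 0 := fun e0 => by
    rw [e0, map_zero, zero_mul] at e
    exact mul_ne_zero h3 (h.aeval_ne hB) e
  have h6 : ∀ v : Plc k E, v.1 x ≤ 1 → v.1 (aeval x f) = 1 →
      v.1 (θ * aeval x B) = v.1 (aeval x D) := fun v c1 c2 => by
    refine le_antisymm ?_ ((hD.ge (Submodule.mem_span_singleton_self D) : D ∈ I) v c1 c2)
    rw [e, map_mul]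
    exact mul_le_of_le_one_right' (Triv.aevalAeval_le_one v.2.2 c1 (hy v c2).le _)
  obtain ⟨D', d1, d2, d3⟩ := strip x f _ D hD0 rfl
  obtain ⟨B', b1, b2, b3⟩ := strip x f _ B hB rfl
  have hs : ∀ A : k[X], s (aeval x A) = aeval x A := fun A => by
    simpa using h.aut.pow_aeval 1 A
  refine ⟨θ * aeval x B' / aeval x D', div_ne_zero (mul_ne_zero h3 (h.aeval_ne b2)) (h.aeval_ne d2),
    by rw [map_div₀, map_mul, hs, hs, ← mul_div_assoc, ← mul_assoc, h1], fun v c1 c2 => ?_⟩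
  rcases cases_v h.ne_zero v.2.2 c1 with c3 | ⟨τ, c3, c4⟩
  · rw [map_div₀, map_mul, d3 _ v.2.2 c1 c3, b3 _ v.2.2 c1 c3, ← map_mul, h6 v c1 c3]
    exact div_self ((_root_.map_ne_zero _).2 (h.aeval_ne hD0))
  · rw [map_div₀, map_mul, h2 τ (c2 τ c3 c4) v c4, (Val.aeval x τ B').eq_one (b1 τ c3) v.2.2 c4,
      (Val.aeval x τ D').eq_one (d1 τ c3) v.2.2 c4, mul_one, div_one]

end Pool.Agent.Lib.MP_07b2d0_nt.Tq
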